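import Pool.Agent.H74.KV.Xu3
import Pool.Agent.H18.Ex.Sing
import Mathlib.RingTheory.MvPolynomial.IrreducibleQuadratic

/-!
# Classes in standard form whose intersection number with the cubics is positive
-/

namespace Pool.Agent.H74.KV

open Finset MvPolynomial Pool.Agent.H18.Fat Pool.Agent.H18.Ub Pool.Agent.H22.LU Pool.Agent.H74.CT
  Pool.Agent.H74.BP Pool.Agent.H18.Nef

variable {n : ℕ}

/-- Points on the cuspidal cubic. -/
noncomputable def cusp (n : ℕ) (i : Fin n) : Fin (2 + 1) → ℂ := ![1, (i : ℕ), (i : ℕ) ^ 3]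

/-- The cuspidal cubic. -/
noncomputable def cuspF : MvPolynomial (Fin (2 + 1)) ℂ := -X 0 ^ 2 * X 2 + X 1 ^ 3

theorem cusp_zero (i : Fin n) : cusp n i 0 = 1 := rfl

theorem cusp_inj : Function.Injective (cusp n) := by
  intro i j h
  have h1 := congrFun h 1
  change ((i : ℕ) : ℂ) = ((j : ℕ) : ℂ) at h1
  exact Fin.ext (by exact_mod_cast h1)

theorem cuspF_hom : cuspF.IsHomogeneous 3 := by
  unfold cuspF
  refine IsHomogeneous.add ?_ ?_
  · have h1 : (-X 0 ^ 2 * X 2 : MvPolynomial (Fin (2 + 1)) ℂ) = C (-1) * (X 0 ^ 2 * X 2) := by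
      rw [map_neg, map_one]
      ring
    rw [h1]
    exact (((isHomogeneous_X ℂ (0 : Fin (2 + 1))).pow 2).mul (isHomogeneous_X ℂ 2)).C_mul _
  · exact (isHomogeneous_X ℂ (1 : Fin (2 + 1))).pow 3

theorem cuspF_irr : Irreducible cuspF := by
  unfold cuspF
  refine irreducible_mul_X_add (-X 0 ^ 2) (X 1 ^ 3) 2 ?_ ?_ ?_ ?_
  · exact neg_ne_zero.2 (pow_ne_zero 2 (X_ne_zero 0))
  · rw [vars_neg]
    intro h
    have h1 := vars_pow (X 0 : MvPolynomial (Fin (2 + 1)) ℂ) 2 h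
    rw [vars_X, mem_singleton] at h1
    exact absurd h1 (by decide)
  · intro h
    have h1 := vars_pow (X 1 : MvPolynomial (Fin (2 + 1)) ℂ) 3 h
    rw [vars_X, mem_singleton] at h1
    exact absurd h1 (by decide)
  · intro a h0 h1
    rw [dvd_neg] at h0
    by_contra hu
    have ha0 : a ≠ 0 := by
      rintro rfl
      exact X_ne_zero (R := ℂ) (1 : Fin (2 + 1)) (pow_eq_zero_iff (by norm_num) |>.1
        (zero_dvd_iff.1 h1))
    obtain ⟨q, hq, hqa⟩ := WfDvdMonoid.exists_irreducible_factor hu ha0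
    have hqp : Prime q := hq.prime
    have h2 := hqp.dvd_of_dvd_pow (hqa.trans h0)
    have h3 := hqp.dvd_of_dvd_pow (hqa.trans h1)
    -- evaluate at `(0, 1, 0)` after writing `X 1 = q b`, `X 0 = q c`
    obtain ⟨c, hc⟩ := h2
    obtain ⟨b, hb⟩ := h3
    have hX0 : Irreducible (X 0 : MvPolynomial (Fin (2 + 1)) ℂ) := (MvPolynomial.X_prime).irreducible
    have hcu : IsUnit c := (hX0.isUnit_or_isUnit hc).resolve_left hq.not_isUnit
    obtain ⟨u, rfl⟩ := hcu
    have h4 : (X 0 : MvPolynomial (Fin (2 + 1)) ℂ) ∣ X 1 := by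
      refine ⟨(↑u⁻¹ : MvPolynomial (Fin (2 + 1)) ℂ) * b, ?_⟩
      rw [hc, hb]
      calc q * b = q * (↑u * ↑u⁻¹) * b := by rw [Units.mul_inv, mul_one]
        _ = _ := by ring
    obtain ⟨w, hw⟩ := h4
    have h5 := congrArg (eval (![0, 1, 0] : Fin (2 + 1) → ℂ)) hw
    rw [map_mul, eval_X, eval_X] at h5
    simp at h5

theorem cuspF_van (i : Fin n) : VanishesToOrder cuspF (cusp n i) 1 := by
  rw [vanishes_one_iff]
  unfold cuspF cusp
  simp

theorem cuspF_not (i : Fin n) : ¬ VanishesToOrder cuspF (cusp n i) 2 := by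
  intro h
  have h1 := Pool.Agent.H18.Ex.VanishesToOrder.pderiv h 2
  have h2 : pderiv (2 : Fin (2 + 1)) cuspF = -X 0 ^ 2 := by
    unfold cuspF
    rw [map_add, Derivation.leibniz, map_neg, Derivation.leibniz_pow, Derivation.leibniz_pow,
      pderiv_X_self, pderiv_X_of_ne (by decide), pderiv_X_of_ne (by decide)]
    simp
  rw [h2] at h1
  have h3 : VanishesToOrder (-X 0 ^ 2 : MvPolynomial (Fin (2 + 1)) ℂ) (cusp n i) 1 := h1
  rw [vanishes_one_iff, map_neg, map_pow, eval_X, cusp_zero] at h3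
  norm_num at h3

/-- Classes in standard form which are not negative on the cubics are nef. -/
theorem nef_three {m : Fin n → ℕ} {J : Finset (Fin n)} (hJ3 : 3 ≤ J.card) {d : ℕ}
    (hstd : ∀ S ⊆ J, S.card = 3 → ∑ i ∈ S, m i ≤ d) (hsum : ∑ i ∈ J, m i ≤ 3 * d) :
    NefC d fun i => if i ∈ J then m i else 0 := by
  classical
  intro f k hk
  have h1 : 1 ≤ Module.finrank ℂ (fatForms 2 f (cusp n) k) :=
    hk.trans (Nat.sInf_le ⟨cusp n, rfl⟩)
  obtain ⟨F, hF, hF0⟩ : ∃ F ∈ fatForms 2 f (cusp n) k, F ≠ 0 := by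
    by_contra hcon
    push Not at hcon
    have h2 : fatForms 2 f (cusp n) k = ⊥ := by
      rw [eq_bot_iff]
      intro F hF
      rw [Submodule.mem_bot]
      exact hcon F hF
    rw [h2, finrank_bot] at h1
    omega
  refine pair_of_irred (p := cusp n) d (fun i => if i ∈ J then m i else 0) f F hF0 hF.1
    (fun A e κ hA _ hAe he hef hκ => ?_) k fun i => hF.2 i
  have h0 : ∑ i, (if i ∈ J then m i else 0) * κ i = ∑ i ∈ J, m i * κ i := by
    rw [← sum_subset (subset_univ J)]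
    · exact sum_congr rfl fun i hi => by rw [if_pos hi]
    · intro i _ hi
      rw [if_neg hi, Nat.zero_mul]
  rw [h0]
  by_cases hdvd : A ∣ cuspF
  · -- the cubic itself
    obtain ⟨B, hB⟩ := hdvd
    have hB0 : B ≠ 0 := by
      rintro rfl
      exact cuspF_irr.ne_zero (by rw [hB, mul_zero])
    have hBu := (cuspF_irr.isUnit_or_isUnit hB).resolve_left hA.not_isUnit
    have hBc := totalDegree_eq_zero_iff_eq_C.1
      ((MvPolynomial.isUnit_iff_totalDegree_of_isReduced (R := ℂ)).1 hBu).2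
    obtain ⟨a, b, ha, hb, hab⟩ := hom_of_mul (hB ▸ cuspF_hom) hA.ne_zero hB0
    have hae : a = e := ha.inj_right hAe hA.ne_zero
    have hb0 : b = 0 := by
      have h3 := ((MvPolynomial.isUnit_iff_totalDegree_of_isReduced (R := ℂ)).1 hBu).2
      rw [hb.totalDegree hB0] at h3
      exact h3
    have he3 : e = 3 := by omega
    have hκ1 : ∀ i, κ i ≤ 1 := by
      intro i
      by_contra hcon
      push Not at hcon
      apply cuspF_not i
      intro β hβ
      rw [hB, hBc]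
      have h5 : shift (cusp n i) (A * C (coeff 0 B)) = shift (cusp n i) A * C (coeff 0 B) := by
        unfold shift
        rw [map_mul, aeval_C, algebraMap_eq]
      rw [h5, mul_comm, coeff_C_mul, (hκ i).1 β (by omega), mul_zero]
    calc ∑ i ∈ J, m i * κ i ≤ ∑ i ∈ J, m i := sum_le_sum fun i _ => by
          calc m i * κ i ≤ m i * 1 := Nat.mul_le_mul_left _ (hκ1 i)
            _ = m i := Nat.mul_one _
      _ ≤ 3 * d := hsum
      _ = d * e := by rw [he3, Nat.mul_comm]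
  · have hsep : Sep (cusp n) := sep_of_affine (fun i => rfl) fun i j hij => cusp_inj hij
    have h3 := bezout (cusp n) (fun i => by rw [cusp_zero]; exact one_ne_zero) hsep hA hAe
      cuspF_hom hdvd κ (fun _ => 1) (fun i => (hκ i).1) fun i => cuspF_van i
    have h4 : ∑ i, κ i * 1 = ∑ i, κ i := sum_congr rfl fun i _ => Nat.mul_one _
    rw [h4] at h3
    have h5 : ∑ i ∈ J, κ i ≤ ∑ i, κ i := sum_le_sum_of_subset (subset_univ J)
    refine knapsack m κ J hJ3 d e hstd (fun i => ?_) (by omega)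
    by_contra hcon
    push Not at hcon
    exact hA.ne_zero (eq_zero_of_vanishes A hAe _ hcon (hκ i).1)

/-- The standard form is checked on the three largest multiplicities. -/
theorem std3 {J : Finset (Fin n)} {m : Fin n → ℕ} {i₁ i₂ : Fin n} {a b c D : ℕ}
    (h : ∀ j ∈ J, m j ≤ c + (if j = i₁ then a - c else 0) + (if j = i₂ then b - c else 0))
    (hD : 3 * c + (a - c) + (b - c) ≤ D) (S : Finset (Fin n)) (hS : S ⊆ J) (hSc : S.card = 3) :
    ∑ i ∈ S, m i ≤ D := by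
  classical
  have h1 : ∑ i ∈ S, m i ≤ ∑ i ∈ S, (c + (if i = i₁ then a - c else 0) +
      (if i = i₂ then b - c else 0)) := sum_le_sum fun i hi => h i (hS hi)
  rw [sum_add_distrib, sum_add_distrib, sum_const, hSc, smul_eq_mul, sum_ite_eq', sum_ite_eq'] at h1
  have h2 : (if i₁ ∈ S then a - c else 0) ≤ a - c := by
    split_ifs
    · exact le_rfl
    · exact Nat.zero_le _
  have h3 : (if i₂ ∈ S then b - c else 0) ≤ b - c := by
    split_ifs
    · exact le_rfl
    · exact Nat.zero_le _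
  omega

/-- The three largest multiplicities. -/
theorem exists_top (m : Fin n → ℕ) {J : Finset (Fin n)} (hJ : 3 ≤ J.card) :
    ∃ i₁ i₂ i₃, i₁ ∈ J ∧ i₂ ∈ J ∧ i₃ ∈ J ∧ i₁ ≠ i₂ ∧ i₁ ≠ i₃ ∧ i₂ ≠ i₃ ∧ m i₂ ≤ m i₁ ∧
      m i₃ ≤ m i₂ ∧ ∀ j ∈ J, j ≠ i₁ → j ≠ i₂ → m j ≤ m i₃ := by
  classical
  obtain ⟨i₁, h₁, hmax₁⟩ := exists_max_image J m (card_pos.1 (by omega))
  have hc1 : (J.erase i₁).card = J.card - 1 := card_erase_of_mem h₁
  obtain ⟨i₂, h₂, hmax₂⟩ := exists_max_image (J.erase i₁) m (card_pos.1 (by omega))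
  have hc2 : ((J.erase i₁).erase i₂).card = J.card - 1 - 1 := by
    rw [card_erase_of_mem h₂, hc1]
  obtain ⟨i₃, h₃, hmax₃⟩ := exists_max_image ((J.erase i₁).erase i₂) m (card_pos.1 (by omega))
  refine ⟨i₁, i₂, i₃, h₁, mem_of_mem_erase h₂, mem_of_mem_erase (mem_of_mem_erase h₃),
    (ne_of_mem_erase h₂).symm, (ne_of_mem_erase (mem_of_mem_erase h₃)).symm,
    (ne_of_mem_erase h₃).symm, hmax₁ _ (mem_of_mem_erase h₂), hmax₂ _ (mem_of_mem_erase h₃),
    fun j hj h1 h2 => hmax₃ j (mem_erase.2 ⟨h2, mem_erase.2 ⟨h1, hj⟩⟩)⟩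

/-- The squares of the multiplicities. -/
theorem sq_anti {m : Fin n → ℕ} {J : Finset (Fin n)} (hJ3 : 3 ≤ J.card) {d s : ℕ}
    (hy : ∀ i ∈ J, s ≤ m i) (hstd : ∀ S ⊆ J, S.card = 3 → ∑ i ∈ S, m i ≤ d)
    (hsum : ∑ i ∈ J, m i + 16 * s ≤ 3 * d) : ∑ i ∈ J, m i ^ 2 + 16 * s ^ 2 ≤ d ^ 2 := by
  classical
  obtain ⟨i₁, i₂, i₃, h₁, h₂, h₃, h12, h13, h23, hab, hbc, hmax⟩ := exists_top m hJ3
  have h3 := hstd {i₁, i₂, i₃} (by
    intro x hx
    rw [mem_insert, mem_insert, mem_singleton] at hx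
    rcases hx with rfl | rfl | rfl <;> assumption) (by
    rw [card_insert_of_notMem, card_insert_of_notMem, card_singleton]
    · rw [mem_singleton]
      exact h23
    · rw [mem_insert, mem_singleton]
      push Not
      exact ⟨h12, h13⟩)
  rw [sum_insert, sum_insert, sum_singleton] at h3
  rotate_left
  · rw [mem_singleton]
    exact h23
  · rw [mem_insert, mem_singleton]
    push Not
    exact ⟨h12, h13⟩
  set a := m i₁ with ha
  set b := m i₂ with hb
  set c := m i₃ with hc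
  have h₂' : i₂ ∈ J.erase i₁ := mem_erase.2 ⟨h12.symm, h₂⟩
  have hsplit : ∀ f : Fin n → ℕ, ∑ i ∈ J, f i = f i₁ + (f i₂ + ∑ i ∈ (J.erase i₁).erase i₂, f i) := by
    intro f
    rw [add_sum_erase _ f h₂', add_sum_erase _ f h₁]
  rw [hsplit] at hsum
  rw [hsplit]
  have h4 : ∑ i ∈ (J.erase i₁).erase i₂, m i ^ 2 ≤ c * ∑ i ∈ (J.erase i₁).erase i₂, m i := by
    rw [mul_sum]
    refine sum_le_sum fun i hi => ?_
    rw [sq]
    exact Nat.mul_le_mul_right _ (hmax i (mem_of_mem_erase (mem_of_mem_erase hi))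
      (ne_of_mem_erase (mem_of_mem_erase hi)) (ne_of_mem_erase hi))
  set R := ∑ i ∈ (J.erase i₁).erase i₂, m i with hR
  have hs := hy i₃ h₃
  rw [← hc] at hs
  -- over the integers
  have h5 : (c : ℤ) * R ≤ c * (3 * d - 16 * s - a - b) := by
    refine mul_le_mul_of_nonneg_left ?_ (Int.natCast_nonneg c)
    have : ((m i₁ + (m i₂ + R) + 16 * s : ℕ) : ℤ) ≤ ((3 * d : ℕ) : ℤ) := by exact_mod_cast hsum
    push_cast at this
    rw [← ha, ← hb] at this
    linarith
  have h6 : ((∑ i ∈ (J.erase i₁).erase i₂, m i ^ 2 : ℕ) : ℤ) ≤ c * R := by exact_mod_cast h4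
  have h7 : (a : ℤ) + (b + c) ≤ d := by exact_mod_cast h3
  have h8 : (b : ℤ) ≤ a := by exact_mod_cast hab
  have h9 : (c : ℤ) ≤ b := by exact_mod_cast hbc
  have h10 : (s : ℤ) ≤ c := by exact_mod_cast hs
  have h11 : (0 : ℤ) ≤ s := Int.natCast_nonneg s
  have h12' : (c : ℤ) * c ≤ a * b := mul_le_mul (h9.trans h8) h9 (h11.trans h10) (by linarith)
  have h13' : (s : ℤ) * s ≤ c * s := mul_le_mul_of_nonneg_right h10 h11
  have h14 : (0 : ℤ) ≤ (d - a - b - c) * (d + a + b + c - 3 * c) :=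
    mul_nonneg (by linarith) (by linarith)
  have h15 : ((a ^ 2 + (b ^ 2 + ∑ i ∈ (J.erase i₁).erase i₂, m i ^ 2) + 16 * s ^ 2 : ℕ) : ℤ) ≤
      ((d ^ 2 : ℕ) : ℤ) := by
    push_cast
    push_cast at h6
    nlinarith
  exact_mod_cast h15

end Pool.Agent.H74.KV
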