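import Pool.Agent.H74.KV.Anti

/-!
# The pairing of a curve with an anticanonically positive class
-/

namespace Pool.Agent.H74.KV

open Finset MvPolynomial Pool.Agent.H18.Fat Pool.Agent.H18.Ub Pool.Agent.H22.LU Pool.Agent.H74.CT
  Pool.Agent.H74.BP Pool.Agent.H18.Nef

variable {n : ℕ}

/-- Irreducible curves through nine or more general points. -/
theorem lt_deg {D e : ℕ} {p : Fin n → Fin (2 + 1) → ℂ} (hp : Good n D p) (he : e ≤ D)
    {A : MvPolynomial (Fin (2 + 1)) ℂ} (hA : Irreducible A) (hAe : A.IsHomogeneous e)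
    (κ : Fin n → ℕ)
    (hκ : ∀ j, VanishesToOrder A (p j) (κ j) ∧ ¬ VanishesToOrder A (p j) (κ j + 1))
    (hT9 : 9 ≤ (univ.filter fun i => 1 ≤ κ i).card) :
    (∀ i, κ i < e) ∧ ∑ i, κ i ^ 2 ≤ e ^ 2 + e := by
  classical
  set T := univ.filter fun i => 1 ≤ κ i with hT
  obtain ⟨i₀, hi₀, hmin⟩ := exists_min_image T κ (card_pos.1 (by omega))
  have hq1 : 1 ≤ κ i₀ := (mem_filter.1 hi₀).2
  have hxu := xu hp he hA hAe κ hκ hq1
  have heff : 1 ≤ generalDim 2 e κ := eff_of_mem hp he hA.ne_zero hAe κ fun j => (hκ j).1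
  have hle : ∀ i, κ i ≤ e := fun i => le_of_effective κ heff i
  have hq2 : κ i₀ ≤ κ i₀ ^ 2 := by
    rw [sq]
    exact Nat.le_mul_of_pos_left _ hq1
  refine ⟨fun i => ?_, ?_⟩
  · rcases Nat.eq_zero_or_pos (κ i) with h0 | hpos
    · rw [h0]
      exact lt_of_lt_of_le hq1 (hle i₀)
    · have hi : i ∈ T := mem_filter.2 ⟨mem_univ i, hpos⟩
      have h1 : ∑ j ∈ T, κ j ^ 2 ≤ ∑ j, κ j ^ 2 := sum_le_sum_of_subset (subset_univ T)
      rw [← add_sum_erase T (fun j => κ j ^ 2) hi] at h1
      have h2 : ∑ _j ∈ T.erase i, κ i₀ ^ 2 ≤ ∑ j ∈ T.erase i, κ j ^ 2 :=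
        sum_le_sum fun j hj => Nat.pow_le_pow_left (hmin j (mem_of_mem_erase hj)) 2
      rw [sum_const, smul_eq_mul, card_erase_of_mem hi] at h2
      have h3 : 8 * κ i₀ ^ 2 ≤ (T.card - 1) * κ i₀ ^ 2 := Nat.mul_le_mul_right _ (by omega)
      have h4 : κ i ^ 2 < e ^ 2 := by omega
      exact lt_of_pow_lt_pow_left₀ 2 (Nat.zero_le _) h4
  · have := hle i₀
    omega

/-- Curves through nine or more of the points. -/
theorem pair_anti {D e : ℕ} {p : Fin n → Fin (2 + 1) → ℂ} (hp : Good n D p) (he : e ≤ D)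
    {A : MvPolynomial (Fin (2 + 1)) ℂ} (hA : Irreducible A) (hAe : A.IsHomogeneous e)
    (κ : Fin n → ℕ)
    (hκ : ∀ j, VanishesToOrder A (p j) (κ j) ∧ ¬ VanishesToOrder A (p j) (κ j + 1))
    {m : Fin n → ℕ} {J : Finset (Fin n)} {d s : ℕ} (hy : ∀ i ∈ J, s ≤ m i)
    (hstd : ∀ S ⊆ J, S.card = 3 → ∑ i ∈ S, m i ≤ d) (hsum : ∑ i ∈ J, m i + 16 * s ≤ 3 * d)
    (hS9 : 9 ≤ (J.filter fun i => 1 ≤ κ i).card) : ∑ i ∈ J, m i * κ i + s ≤ d * e := by
  classical
  set S := J.filter fun i => 1 ≤ κ i with hS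
  have hSJ : S ⊆ J := filter_subset _ _
  have hJ9 : 9 ≤ J.card := hS9.trans (card_le_card hSJ)
  have hST : S ⊆ univ.filter fun i => 1 ≤ κ i := fun i hi =>
    mem_filter.2 ⟨mem_univ i, (mem_filter.1 hi).2⟩
  obtain ⟨hlt, -⟩ := lt_deg hp he hA hAe κ hκ (hS9.trans (card_le_card hST))
  have heff : 1 ≤ generalDim 2 e κ := eff_of_mem hp he hA.ne_zero hAe κ fun j => (hκ j).1
  obtain ⟨i₁, i₂, i₃, h₁, h₂, h₃, h12, h13, h23, hab, hbc, hmax⟩ := exists_top m (J := J) (by omega)
  have hs1 := hlt i₁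
  have hs2 := hlt i₂
  have h3 := hstd {i₁, i₂, i₃} (by
    intro x hx
    rw [mem_insert, mem_insert, mem_singleton] at hx
    rcases hx with rfl | rfl | rfl <;> assumption) (by
    rw [card_insert_of_notMem, card_insert_of_notMem, card_singleton]
    · rw [mem_singleton]
      exact h23
    · rw [mem_insert, mem_singleton]
      push Not
      exact ⟨h12, h13⟩)
  rw [sum_insert, sum_insert, sum_singleton] at h3
  rotate_left
  · rw [mem_singleton]
    exact h23
  · rw [mem_insert, mem_singleton]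
    push Not
    exact ⟨h12, h13⟩
  -- the pairing with a nef class
  have key : ∀ (m' : Fin n → ℕ) (D' : ℕ), (∀ S ⊆ J, S.card = 3 → ∑ i ∈ S, m' i ≤ D') →
      ∑ i ∈ J, m' i ≤ 3 * D' → ∑ i ∈ J, m' i * κ i ≤ D' * e := by
    intro m' D' hstd' hsum'
    have h4 := nef_three (by omega) hstd' hsum' e κ heff
    have h5 : ∑ i, (if i ∈ J then m' i else 0) * κ i = ∑ i ∈ J, m' i * κ i := by
      rw [← sum_subset (subset_univ J)]
      · exact sum_congr rfl fun i hi => by rw [if_pos hi]
      · intro i _ hi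
        rw [if_neg hi, Nat.zero_mul]
    rw [h5] at h4
    exact h4
  have hbound : ∀ j ∈ J, m j ≤ m i₃ + (if j = i₁ then m i₁ - m i₃ else 0) +
      (if j = i₂ then m i₂ - m i₃ else 0) := by
    intro j hj
    by_cases hj1 : j = i₁
    · subst hj1
      rw [if_pos rfl]
      omega
    · by_cases hj2 : j = i₂
      · subst hj2
        rw [if_pos rfl, if_neg hj1]
        omega
      · rw [if_neg hj1, if_neg hj2]
        exact hmax j hj hj1 hj2
  -- changing one multiplicity
  have hupd : ∀ (f : Fin n → ℕ) (j : Fin n), j ∈ J → ∀ x : ℕ,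
      ∑ i ∈ J, Function.update m j x i * f i + m j * f j = ∑ i ∈ J, m i * f i + x * f j := by
    intro f j hj x
    rw [← add_sum_erase J (fun i => Function.update m j x i * f i) hj,
      ← add_sum_erase J (fun i => m i * f i) hj]
    have h4 : ∑ i ∈ J.erase j, Function.update m j x i * f i = ∑ i ∈ J.erase j, m i * f i :=
      sum_congr rfl fun i hi => by rw [Function.update_of_ne (ne_of_mem_erase hi)]
    rw [h4, Function.update_self]
    omega
  have hupd1 : ∀ j ∈ J, ∀ x : ℕ, ∑ i ∈ J, Function.update m j x i + m j = ∑ i ∈ J, m i + x := by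
    intro j hj x
    have h4 := hupd (fun _ => 1) j hj x
    simp only [Nat.mul_one] at h4
    exact h4
  by_cases hc1 : m i₁ + (m i₂ + m i₃) + s ≤ d
  · -- the degree can be lowered
    have h4 := key m (d - s) (std3 hbound (by omega)) (by omega)
    obtain ⟨t, ht⟩ : ∃ t, d = t + s := ⟨d - s, by omega⟩
    rw [ht, Nat.add_sub_cancel] at h4
    have h5 : d * e = t * e + s * e := by rw [ht, Nat.add_mul]
    have h6 : s * 1 ≤ s * e := Nat.mul_le_mul_left _ (by omega)
    omega
  push Not at hc1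
  by_cases hc2 : m i₂ + s ≤ m i₁
  · -- a pencil of lines
    have h4 := key (Function.update m i₁ (m i₁ - s)) (d - s) (std3 (i₁ := i₁) (i₂ := i₂)
      (a := m i₁ - s) (b := m i₂) (c := m i₃) (fun j hj => by
        by_cases hj1 : j = i₁
        · subst hj1
          rw [Function.update_self, if_pos rfl]
          omega
        · rw [Function.update_of_ne hj1]
          have h5 := hbound j hj
          rw [if_neg hj1] at h5 ⊢
          exact h5) (by omega)) (by
      have h5 := hupd1 i₁ h₁ (m i₁ - s)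
      omega)
    have h5 := hupd κ i₁ h₁ (m i₁ - s)
    obtain ⟨t, ht⟩ : ∃ t, d = t + s := ⟨d - s, by omega⟩
    obtain ⟨u, hu⟩ : ∃ u, m i₁ = u + s := ⟨m i₁ - s, by omega⟩
    rw [hu, Nat.add_sub_cancel] at h5 h4
    rw [ht, Nat.add_sub_cancel] at h4
    rw [ht]
    have h6 : (u + s) * κ i₁ = u * κ i₁ + s * κ i₁ := Nat.add_mul _ _ _
    have h7 : s * (κ i₁ + 1) ≤ s * e := Nat.mul_le_mul_left _ hs1
    have h8 : (t + s) * e = t * e + s * e := Nat.add_mul _ _ _
    have h9 : s * (κ i₁ + 1) = s * κ i₁ + s := by ring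
    omega
  push Not at hc2
  by_cases hc3 : m i₃ + s ≤ m i₂
  · -- conics
    set m' := Function.update (Function.update m i₁ (m i₁ - s)) i₂ (m i₂ - s) with hm'
    have hval : ∀ (f : Fin n → ℕ), ∑ i ∈ J, m' i * f i + s * f i₁ + s * f i₂ =
        ∑ i ∈ J, m i * f i := by
      intro f
      have h₂' : i₂ ∈ J.erase i₁ := mem_erase.2 ⟨h12.symm, h₂⟩
      rw [← add_sum_erase J (fun i => m' i * f i) h₁, ← add_sum_erase J (fun i => m i * f i) h₁,
        ← add_sum_erase _ (fun i => m' i * f i) h₂', ← add_sum_erase _ (fun i => m i * f i) h₂']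
      have h4 : ∑ i ∈ (J.erase i₁).erase i₂, m' i * f i =
          ∑ i ∈ (J.erase i₁).erase i₂, m i * f i := sum_congr rfl fun i hi => by
        rw [hm', Function.update_of_ne (ne_of_mem_erase hi),
          Function.update_of_ne (ne_of_mem_erase (mem_of_mem_erase hi))]
      have h5 : m' i₁ = m i₁ - s := by
        rw [hm', Function.update_of_ne h12, Function.update_self]
      have h6 : m' i₂ = m i₂ - s := by
        rw [hm', Function.update_self]
      rw [h4, h5, h6]
      obtain ⟨u, hu⟩ : ∃ u, m i₁ = u + s := ⟨m i₁ - s, by omega⟩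
      obtain ⟨v, hv⟩ : ∃ v, m i₂ = v + s := ⟨m i₂ - s, by omega⟩
      rw [hu, hv, Nat.add_sub_cancel, Nat.add_sub_cancel]
      ring
    have hval1 := hval fun _ => 1
    simp only [Nat.mul_one] at hval1
    have h4 := key m' (d - 2 * s) (std3 (i₁ := i₁) (i₂ := i₂)
      (a := m i₁ - s) (b := m i₂ - s) (c := m i₃) (fun j hj => by
        by_cases hj2 : j = i₂
        · subst hj2
          rw [hm', Function.update_self, if_pos rfl]
          omega
        · by_cases hj1 : j = i₁
          · subst hj1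
            rw [hm', Function.update_of_ne hj2, Function.update_self, if_pos rfl]
            omega
          · rw [hm', Function.update_of_ne hj2, Function.update_of_ne hj1, if_neg hj1, if_neg hj2]
            exact hmax j hj hj1 hj2) (by omega)) (by omega)
    have h5 := hval κ
    obtain ⟨t, ht⟩ : ∃ t, d = t + 2 * s := ⟨d - 2 * s, by omega⟩
    rw [ht, Nat.add_sub_cancel] at h4
    rw [ht]
    have h7 : s * (κ i₁ + κ i₂ + 1) ≤ s * (2 * e) := Nat.mul_le_mul_left _ (by omega)
    have h8 : (t + 2 * s) * e = t * e + s * (2 * e) := by ring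
    have h9 : s * (κ i₁ + κ i₂ + 1) = s * κ i₁ + s * κ i₂ + s := by ring
    omega
  push Not at hc3
  by_cases hc4 : ∃ j ∈ S, j ≠ i₁ ∧ j ≠ i₂ ∧ j ≠ i₃ ∧ m j + s ≤ m i₃
  · -- a multiplicity can be raised
    obtain ⟨j, hjS, hj1, hj2, hj3, hj⟩ := hc4
    have hjJ := hSJ hjS
    have h4 := key (Function.update m j (m j + s)) d (std3 (i₁ := i₁) (i₂ := i₂)
      (a := m i₁) (b := m i₂) (c := m i₃) (fun l hl => by
        by_cases hlj : l = j
        · subst hlj
          rw [Function.update_self, if_neg hj1, if_neg hj2]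
          exact hj
        · rw [Function.update_of_ne hlj]
          exact hbound l hl) (by omega)) (by
      have h5 := hupd1 j hjJ (m j + s)
      omega)
    have h5 := hupd κ j hjJ (m j + s)
    have h6 : (m j + s) * κ j = m j * κ j + s * κ j := Nat.add_mul _ _ _
    have h7 : s * 1 ≤ s * κ j := Nat.mul_le_mul_left _ (mem_filter.1 hjS).2
    omega
  · -- impossible
    exfalso
    push Not at hc4
    set R := ((J.erase i₁).erase i₂).erase i₃ with hR
    set R' := ((S.erase i₁).erase i₂).erase i₃ with hR'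
    have hR'R : R' ⊆ R := erase_subset_erase _ (erase_subset_erase _ (erase_subset_erase _ hSJ))
    have hR'6 : 6 ≤ R'.card := by
      have h4 := pred_card_le_card_erase (s := S) (a := i₁)
      have h5 := pred_card_le_card_erase (s := S.erase i₁) (a := i₂)
      have h6 := pred_card_le_card_erase (s := (S.erase i₁).erase i₂) (a := i₃)
      rw [← hR'] at h6
      omega
    have h₂' : i₂ ∈ J.erase i₁ := mem_erase.2 ⟨h12.symm, h₂⟩
    have h₃' : i₃ ∈ (J.erase i₁).erase i₂ := mem_erase.2 ⟨h23.symm, mem_erase.2 ⟨h13.symm, h₃⟩⟩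
    have h4 : ∑ i ∈ J, m i = m i₁ + (m i₂ + (m i₃ + ∑ i ∈ R, m i)) := by
      rw [hR, add_sum_erase _ m h₃', add_sum_erase _ m h₂', add_sum_erase _ m h₁]
    have h5 : ∑ i ∈ R', m i ≤ ∑ i ∈ R, m i := sum_le_sum_of_subset hR'R
    have h6 : ∑ _i ∈ R', (m i₃ - s) ≤ ∑ i ∈ R', m i := sum_le_sum fun i hi => by
      have h7 := hc4 i (mem_of_mem_erase (mem_of_mem_erase (mem_of_mem_erase hi)))
        (ne_of_mem_erase (mem_of_mem_erase (mem_of_mem_erase hi)))
        (ne_of_mem_erase (mem_of_mem_erase hi)) (ne_of_mem_erase hi)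
      omega
    rw [sum_const, smul_eq_mul] at h6
    have h7 : 6 * (m i₃ - s) ≤ R'.card * (m i₃ - s) := Nat.mul_le_mul_right _ hR'6
    have h8 := hy i₃ h₃
    omega

end Pool.Agent.H74.KV
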