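import Pool.Agent.H74.KV.Cone

/-!
# Large points filling a small part of the space
-/

namespace Pool.Agent.H74.KV

open Finset Pool.Agent.H18.Fat Pool.Agent.H18.Ub Pool.Agent.H18.Nef Pool.Agent.H74.BP

/-- The number of the conditions is off the window. -/
def OffR (r D M d μ : ℕ) {k : ℕ} (m : Fin k → ℕ) (J : Finset (Fin k)) : Prop :=
  μ ≤ M ∨
    (D + μ ≤ d ∧ ∑ i ∈ univ.filter (fun i => i ∈ J ∨ M < m i), (m i + r - 1).choose r ≤
      (d - D - μ + r).choose r) ∨
    (d + μ - 1 + r).choose r ≤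
      ∑ i ∈ univ.filter (fun i => i ∈ J ∨ M < m i), (m i + r - 1).choose r

theorem OffR.mono {r D D' M d μ k : ℕ} {m : Fin k → ℕ} {J : Finset (Fin k)}
    (h : OffR r D' M d μ m J) (hD : D ≤ D') : OffR r D M d μ m J := by
  rcases h with h | ⟨h1, h2⟩ | h
  · exact Or.inl h
  · exact Or.inr (Or.inl ⟨by omega, h2.trans (Nat.choose_le_choose r (by omega))⟩)
  · exact Or.inr (Or.inr h)

theorem OffR.off {D M d μ k : ℕ} {m : Fin k → ℕ} {J : Finset (Fin k)}
    (h : OffR 2 D M d μ m J) (hd : 1 ≤ d) : Off D M d μ m J := by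
  rcases h with h | h | h
  · exact Or.inl h
  · exact Or.inr (Or.inl h)
  · refine Or.inr (Or.inr ?_)
    have h1 : d + μ - 1 + 2 = d + μ + 1 := by omega
    rw [h1] at h
    exact h

/-- The points of `J` impose independent conditions with slack. -/
theorem srj_large (r : ℕ) (hr : 2 ≤ r) (ε : ℝ) (hε : 0 < ε) : ∃ d₀ : ℕ,
    ∀ (k d : ℕ) (m : Fin k → ℕ) (J : Finset (Fin k)), d₀ ≤ d → (∀ i ∈ J, ε * d ≤ m i) →
    (2 ^ r * ∑ i ∈ J, (m i : ℝ) ^ r ≤ ((1 - ε) * d) ^ r ∨
      ∃ a : ℕ, (a : ℝ) ≤ (1 - ε) * d ∧ NefC a fun i => if i ∈ J then m i else 0) →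
    ∃ x : Fin k → Fin r → ℂ, Srj r d J x m := by
  classical
  obtain ⟨d₁, hd₁⟩ := srj_num (r := r) (by omega) ε hε
  obtain ⟨d₂, hd₂⟩ := srj_of_nef r hr ε hε
  refine ⟨d₁ + d₂ + 1, fun k d m J hd hJ hor => ?_⟩
  have hd0 : (0 : ℝ) < d := by exact_mod_cast (by omega : 0 < d)
  rcases hor with h | ⟨a, ha, hnef⟩
  · rcases le_or_gt ε 1 with hε1 | hε1
    · exact hd₁ k d m J (by omega) hJ h hε1
    · rcases J.eq_empty_or_nonempty with h0 | ⟨i, hi⟩
      · subst h0
        exact ⟨fun _ => 0, fun u => ⟨0, by simp, fun i hi => absurd hi (notMem_empty i)⟩⟩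
      · exfalso
        have h1 : (2 * (m i : ℝ)) ^ r ≤ ((1 - ε) * d) ^ r := by
          refine le_trans ?_ h
          rw [mul_pow]
          refine mul_le_mul_of_nonneg_left ?_ (by positivity)
          exact single_le_sum (f := fun i => (m i : ℝ) ^ r) (fun _ _ => by positivity) hi
        have h2 : |(1 - ε) * (d : ℝ)| = (ε - 1) * d := by
          rw [abs_mul, abs_of_neg (by linarith), abs_of_pos hd0]
          ring
        have h3 : ((1 - ε) * (d : ℝ)) ^ r ≤ ((ε - 1) * d) ^ r := by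
          rw [← h2, ← abs_pow]
          exact le_abs_self _
        have h4 : 2 * (m i : ℝ) ≤ (ε - 1) * d :=
          le_of_pow_le_pow_left₀ (by omega) (by
            have : 0 ≤ ε - 1 := by linarith
            positivity) (h1.trans h3)
        have h5 := hJ i hi
        nlinarith
  · exact hd₂ k d a m J (by omega) hJ hnef ha

/-- The main theorem for large points with slack, in all dimensions. -/
theorem gen_large (r M : ℕ) (hr : 2 ≤ r) (hM : 1 ≤ M) (ε : ℝ) (hε : 0 < ε) : ∃ d₀ : ℕ,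
    ∀ (k d μ : ℕ) (m : Fin k → ℕ) (J : Finset (Fin k)), d₀ ≤ d → (∀ i ∈ J, ε * d ≤ m i) →
    (∀ i, i ∉ J → m i ≤ μ) →
    (2 ^ r * ∑ i ∈ J, (m i : ℝ) ^ r ≤ ((1 - ε) * d) ^ r ∨
      ∃ a : ℕ, (a : ℝ) ≤ (1 - ε) * d ∧ NefC a fun i => if i ∈ J then m i else 0) →
    OffR r (300 * r * M ^ (r + 4)) M d μ m J →
    ForGeneralPoints r k fun p => ImposesMaximalConditions r d p m := by
  classical
  set F := 300 * r * M ^ (r + 4) with hF
  obtain ⟨d₀, hd₀⟩ := srj_large r hr (ε / 2) (by positivity)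
  obtain ⟨d₁, hd₁⟩ := exists_nat_ge (2 * F / ε)
  refine ⟨d₀ + F + d₁ + 1, fun k d μ m J hd hJ hμ hor hoff => ?_⟩
  have hd0 : (0 : ℝ) < d := by exact_mod_cast (by omega : 0 < d)
  have hFd : (F : ℝ) ≤ ε / 2 * d := by
    have h1 : (2 * F / ε : ℝ) ≤ d := hd₁.trans (by exact_mod_cast (by omega : d₁ ≤ d))
    rw [div_le_iff₀ hε] at h1
    linarith
  have hcast : ((d - F : ℕ) : ℝ) = (d : ℝ) - F := Nat.cast_sub (by omega)
  have hF0 : (0 : ℝ) ≤ F := Nat.cast_nonneg F
  -- the slack in degree `d - F`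
  have hx : ∃ x : Fin k → Fin r → ℂ, Srj r (d - F) J x m := by
    rcases le_or_gt ε 1 with hε1 | hε1
    · have hlin : (1 - ε) * (d : ℝ) ≤ (1 - ε / 2) * ((d - F : ℕ) : ℝ) := by
        rw [hcast]
        have h1 : (1 - ε / 2) * ((d : ℝ) - ε / 2 * d) ≤ (1 - ε / 2) * (d - F) :=
          mul_le_mul_of_nonneg_left (by linarith) (by linarith)
        have h2 : (1 - ε / 2) * ((d : ℝ) - ε / 2 * d) = (1 - ε) * d + ε ^ 2 / 4 * d := by ring
        have h3 : (0 : ℝ) ≤ ε ^ 2 / 4 * d := by positivity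
        linarith
      refine hd₀ k (d - F) m J (by omega) (fun i hi => ?_) ?_
      · refine le_trans ?_ (hJ i hi)
        rw [hcast]
        have h1 : ε / 2 * ((d : ℝ) - F) ≤ ε / 2 * d := mul_le_mul_of_nonneg_left (by linarith)
          (by positivity)
        have h2 : ε / 2 * (d : ℝ) ≤ ε * d := by
          have : 0 ≤ ε / 2 * (d : ℝ) := by positivity
          linarith
        linarith
      · rcases hor with h | ⟨a, ha, hnef⟩
        · refine Or.inl (h.trans (pow_le_pow_left₀ ?_ hlin r))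
          have : 0 ≤ 1 - ε := by linarith
          positivity
        · exact Or.inr ⟨a, ha.trans hlin, hnef⟩
    · -- no large points
      rcases J.eq_empty_or_nonempty with h0 | ⟨i, hi⟩
      · subst h0
        exact ⟨fun _ => 0, fun u => ⟨0, by simp, fun i hi => absurd hi (notMem_empty i)⟩⟩
      · exfalso
        have h5 := hJ i hi
        rcases hor with h | ⟨a, ha, hnef⟩
        · have h1 : (2 * (m i : ℝ)) ^ r ≤ ((1 - ε) * d) ^ r := by
            refine le_trans ?_ h
            rw [mul_pow]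
            refine mul_le_mul_of_nonneg_left ?_ (by positivity)
            exact single_le_sum (f := fun i => (m i : ℝ) ^ r) (fun _ _ => by positivity) hi
          have h2 : |(1 - ε) * (d : ℝ)| = (ε - 1) * d := by
            rw [abs_mul, abs_of_neg (by linarith), abs_of_pos hd0]
            ring
          have h3 : ((1 - ε) * (d : ℝ)) ^ r ≤ ((ε - 1) * d) ^ r := by
            rw [← h2, ← abs_pow]
            exact le_abs_self _
          have h4 : 2 * (m i : ℝ) ≤ (ε - 1) * d :=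
            le_of_pow_le_pow_left₀ (by omega) (by
              have : 0 ≤ ε - 1 := by linarith
              positivity) (h1.trans h3)
          nlinarith
        · have h1 : (0 : ℝ) ≤ a := Nat.cast_nonneg a
          nlinarith
  obtain ⟨x, hx⟩ := hx
  exact of_exact r M hr hM k d μ m J hμ (by omega) (fun j hj => Exact.up hr hx (by omega)) hoff

end Pool.Agent.H74.KV
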