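import Pool.Agent.H74.KV.Anti2
import Pool.Agent.H74.KV.PlaneY

/-!
# The plane: anticanonically positive large part
-/

namespace Pool.Agent.H74.KV

open Finset MvPolynomial Pool.Agent.H18.Fat Pool.Agent.H18.Ub Pool.Agent.H22.LU Pool.Agent.H74.CT
  Pool.Agent.H74.BP Pool.Agent.H18.Nef Pool.Agent.H18.Cub Pool.Agent.H18.Pr

/-- A class in standard form, with sum of the multiplicities at most `(3 - ε) d`, is in the interior
of the nef cone. -/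
theorem nef_anti (ε : ℝ) (hε : 0 < ε) : ∃ η : ℝ, 0 < η ∧ ∃ d₁ : ℕ, ∀ (n d a : ℕ) (m : Fin n → ℕ)
    (J : Finset (Fin n)), d₁ ≤ d → 9 ≤ J.card → (∀ i ∈ J, ε * d ≤ m i) →
    (∀ S ⊆ J, S.card = 3 → ∑ i ∈ S, m i ≤ d) → ∑ i ∈ J, (m i : ℝ) ≤ (3 - ε) * d →
    (1 - η) * d ≤ a → NefC a fun i => if i ∈ J then m i else 0 := by
  classical
  set e₀ : ℕ := ⌈128 / ε ^ 2⌉₊ + 6 with he₀
  have he₀6 : (6 : ℝ) ≤ e₀ := by
    rw [he₀]
    push_cast
    have : (0 : ℝ) ≤ (⌈128 / ε ^ 2⌉₊ : ℝ) := Nat.cast_nonneg _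
    linarith
  have he₀ε : 128 / ε ^ 2 ≤ e₀ := by
    rw [he₀]
    push_cast
    have := Nat.le_ceil (128 / ε ^ 2)
    linarith
  have he₀pos : (0 : ℝ) < e₀ := by linarith
  set η : ℝ := min (ε / (32 * e₀)) (ε ^ 2 / 256) with hη
  have hηpos : 0 < η := lt_min (by positivity) (by positivity)
  have hη1 : η * (32 * e₀) ≤ ε := by
    have h1 : η ≤ ε / (32 * e₀) := min_le_left _ _
    rwa [le_div_iff₀ (by positivity)] at h1
  have hη2 : η ≤ ε ^ 2 / 256 := min_le_right _ _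
  have hη3 : 192 * η ≤ ε := by nlinarith
  refine ⟨η, hηpos, ⌈32 / ε⌉₊ + 1, fun n d a m J hd hJ9 hJ hstd hsum ha => ?_⟩
  have hd0 : (0 : ℝ) < d := by exact_mod_cast (by omega : 0 < d)
  have hdε : 32 ≤ ε * d := by
    have h1 : 32 / ε ≤ d := (Nat.le_ceil _).trans (by exact_mod_cast (by omega : ⌈32 / ε⌉₊ ≤ d))
    rw [div_le_iff₀ hε] at h1
    linarith
  have hε3 : ε ≤ 3 := by
    by_contra hcon
    push Not at hcon
    have h1 : (0 : ℝ) ≤ ∑ i ∈ J, (m i : ℝ) := sum_nonneg fun _ _ => Nat.cast_nonneg _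
    nlinarith
  set s : ℕ := ⌊ε * d / 16⌋₊ with hs
  have hs1 : (s : ℝ) ≤ ε * d / 16 := Nat.floor_le (by positivity)
  have hs2 : ε * d / 32 ≤ s := by
    have h1 : ε * d / 16 < s + 1 := Nat.lt_floor_add_one _
    linarith
  have hy : ∀ i ∈ J, s ≤ m i := by
    intro i hi
    have h1 := hJ i hi
    have h2 : (s : ℝ) ≤ m i := by linarith
    exact_mod_cast h2
  have hsum' : ∑ i ∈ J, m i + 16 * s ≤ 3 * d := by
    have h1 : ((∑ i ∈ J, m i + 16 * s : ℕ) : ℝ) ≤ ((3 * d : ℕ) : ℝ) := by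
      push_cast
      linarith
    exact_mod_cast h1
  have hsq := sq_anti (by omega) hy hstd hsum'
  intro f k hk
  have hkf : ∀ i, k i ≤ f := fun i => le_of_effective k hk i
  obtain ⟨p, hp⟩ := exists_good n f
  obtain ⟨F, hF, hF0⟩ : ∃ F ∈ fatForms 2 f p k, F ≠ 0 := by
    rw [← hp.dim f le_rfl k hkf] at hk
    by_contra hcon
    push Not at hcon
    have h4 : fatForms 2 f p k = ⊥ := by
      rw [eq_bot_iff]
      intro F hF
      rw [Submodule.mem_bot]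
      exact hcon F hF
    rw [h4, finrank_bot] at hk
    omega
  refine pair_of_irred (p := p) a (fun i => if i ∈ J then m i else 0) f F hF0 hF.1
    (fun A e κ hA _ hAe he hef hκ => ?_) k fun i => hF.2 i
  have h0 : ∑ i, (if i ∈ J then m i else 0) * κ i = ∑ i ∈ J, m i * κ i := by
    rw [← sum_subset (subset_univ J)]
    · exact sum_congr rfl fun i hi => by rw [if_pos hi]
    · intro i _ hi
      rw [if_neg hi, Nat.zero_mul]
  rw [h0]
  have heff : 1 ≤ generalDim 2 e κ := eff_of_mem hp hef hA.ne_zero hAe κ fun j => (hκ j).1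
  have he0 : (1 : ℝ) ≤ e := by exact_mod_cast he
  suffices h : ((∑ i ∈ J, m i * κ i : ℕ) : ℝ) ≤ ((a * e : ℕ) : ℝ) by exact_mod_cast h
  set S := J.filter fun i => 1 ≤ κ i with hS
  have hSJ : S ⊆ J := filter_subset _ _
  have hout : ∀ i ∈ J, i ∉ S → κ i = 0 := by
    intro i hi hi'
    rw [hS, mem_filter] at hi'
    by_contra hne
    exact hi' ⟨hi, by omega⟩
  rcases Nat.lt_or_ge S.card 9 with hS8 | hS9
  · obtain ⟨J', hSJ', hJ'J, hJ'3, hJ'8⟩ : ∃ J' : Finset (Fin n), S ⊆ J' ∧ J' ⊆ J ∧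
        3 ≤ J'.card ∧ J'.card ≤ 8 := by
      rcases Nat.lt_or_ge S.card 3 with h | h
      · obtain ⟨J', h5, h6, h7⟩ := exists_subsuperset_card_eq hSJ (n := 3) (by omega)
          (by omega : 3 ≤ J.card)
        exact ⟨J', h5, h6, by omega, by omega⟩
      · exact ⟨S, Subset.rfl, hSJ, h, by omega⟩
    have h6 := nef_eight m J' hJ'3 hJ'8 d s (fun i hi => hy i (hJ'J hi))
      (fun T hT hTc => hstd T (hT.trans hJ'J) hTc) heff
    have h7 : ∑ i ∈ J, m i * κ i = ∑ i ∈ J', m i * κ i := by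
      refine (sum_subset hJ'J fun i hi hi' => ?_).symm
      rw [hout i hi fun h => hi' (hSJ' h), Nat.mul_zero]
    rw [h7]
    have h8 : ((6 * ∑ i ∈ J', m i * κ i + s * e : ℕ) : ℝ) ≤ ((6 * d * e : ℕ) : ℝ) := by
      exact_mod_cast h6
    push_cast at h8 ⊢
    have h9 : (6 : ℝ) * d ≤ 6 * a + s := by nlinarith
    have h10 : (6 : ℝ) * d * e ≤ (6 * a + s) * e := mul_le_mul_of_nonneg_right h9 (by linarith)
    linarith
  · rcases Nat.lt_or_ge e₀ e with hbig | hsmall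
    · -- large degree
      have hST : S ⊆ univ.filter fun i => 1 ≤ κ i := fun i hi =>
        mem_filter.2 ⟨mem_univ i, (mem_filter.1 hi).2⟩
      obtain ⟨-, hX⟩ := lt_deg hp hef hA hAe κ hκ (hS9.trans (card_le_card hST))
      have h6 : ∑ i ∈ J, m i * κ i = ∑ i ∈ S, m i * κ i := by
        refine (sum_subset hSJ fun i hi hi' => ?_).symm
        rw [hout i hi hi', Nat.mul_zero]
      have h7 : (∑ i ∈ S, m i * κ i) ^ 2 ≤ (∑ i ∈ S, m i ^ 2) * ∑ i ∈ S, κ i ^ 2 :=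
        sum_mul_sq_le_sq_mul_sq _ _ _
      have h8 : ∑ i ∈ S, m i ^ 2 ≤ ∑ i ∈ J, m i ^ 2 := sum_le_sum_of_subset hSJ
      have h9 : ∑ i ∈ S, κ i ^ 2 ≤ ∑ i, κ i ^ 2 := sum_le_sum_of_subset (subset_univ S)
      have h10 : (∑ i ∈ S, m i * κ i) ^ 2 ≤ (∑ i ∈ J, m i ^ 2) * (e ^ 2 + e) :=
        h7.trans (Nat.mul_le_mul h8 (h9.trans hX))
      rw [h6]
      have h11 : (((∑ i ∈ S, m i * κ i : ℕ) : ℝ)) ^ 2 ≤
          ((∑ i ∈ J, m i ^ 2 : ℕ) : ℝ) * ((e : ℝ) ^ 2 + e) := by exact_mod_cast h10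
      have h12 : ((∑ i ∈ J, m i ^ 2 : ℕ) : ℝ) + 16 * (s : ℝ) ^ 2 ≤ (d : ℝ) ^ 2 := by
        exact_mod_cast hsq
      have h13 : (ε * d / 32) ^ 2 ≤ (s : ℝ) ^ 2 := pow_le_pow_left₀ (by positivity) hs2 2
      have h14 : ((∑ i ∈ J, m i ^ 2 : ℕ) : ℝ) ≤ (1 - ε ^ 2 / 64) * (d : ℝ) ^ 2 := by
        have : 16 * (ε * d / 32) ^ 2 = ε ^ 2 / 64 * (d : ℝ) ^ 2 := by ring
        linarith
      have he₀e : (e₀ : ℝ) ≤ e := by exact_mod_cast hbig.le
      have h15 : (e : ℝ) ^ 2 + e ≤ (1 + ε ^ 2 / 128) * (e : ℝ) ^ 2 := by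
        have h16 : 128 ≤ ε ^ 2 * e := by
          have := he₀ε.trans he₀e
          rw [div_le_iff₀ (by positivity)] at this
          linarith
        have h17 : (e : ℝ) ≤ ε ^ 2 / 128 * (e : ℝ) ^ 2 := by nlinarith
        linarith
      have h16 : (0 : ℝ) ≤ ((∑ i ∈ J, m i ^ 2 : ℕ) : ℝ) := Nat.cast_nonneg _
      have h17 : ((∑ i ∈ J, m i ^ 2 : ℕ) : ℝ) * ((e : ℝ) ^ 2 + e) ≤
          ((1 - ε ^ 2 / 64) * (d : ℝ) ^ 2) * ((1 + ε ^ 2 / 128) * (e : ℝ) ^ 2) :=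
        mul_le_mul h14 h15 (by positivity) (h16.trans h14)
      have h18 : (1 - ε ^ 2 / 64) * (1 + ε ^ 2 / 128) ≤ (1 - η) ^ 2 := by nlinarith [sq_nonneg η, sq_nonneg ε]
      have h19 : ((1 - ε ^ 2 / 64) * (d : ℝ) ^ 2) * ((1 + ε ^ 2 / 128) * (e : ℝ) ^ 2) ≤
          ((1 - η) * d) ^ 2 * (e : ℝ) ^ 2 := by
        have h20 : ((1 - ε ^ 2 / 64) * (d : ℝ) ^ 2) * ((1 + ε ^ 2 / 128) * (e : ℝ) ^ 2) =
            ((1 - ε ^ 2 / 64) * (1 + ε ^ 2 / 128)) * ((d : ℝ) ^ 2 * (e : ℝ) ^ 2) := by ring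
        have h21 : ((1 - η) * (d : ℝ)) ^ 2 * (e : ℝ) ^ 2 = (1 - η) ^ 2 * ((d : ℝ) ^ 2 * (e : ℝ) ^ 2) := by
          ring
        rw [h20, h21]
        exact mul_le_mul_of_nonneg_right h18 (by positivity)
      have hη1' : 0 ≤ 1 - η := by linarith
      have h20 : ((1 - η) * (d : ℝ)) ^ 2 ≤ (a : ℝ) ^ 2 :=
        pow_le_pow_left₀ (by positivity) ha 2
      have h21 : (((∑ i ∈ S, m i * κ i : ℕ) : ℝ)) ^ 2 ≤ (((a * e : ℕ) : ℝ)) ^ 2 := by
        push_cast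
        rw [mul_pow]
        have h22 : ((1 - η) * (d : ℝ)) ^ 2 * (e : ℝ) ^ 2 ≤ (a : ℝ) ^ 2 * (e : ℝ) ^ 2 :=
          mul_le_mul_of_nonneg_right h20 (sq_nonneg _)
        push_cast at h11 h17
        linarith
      exact (abs_le_of_sq_le_sq' h21 (Nat.cast_nonneg _)).2
    · -- small degree
      have h6 := pair_anti hp hef hA hAe κ hκ hy hstd hsum' hS9
      have h8 : ((∑ i ∈ J, m i * κ i + s : ℕ) : ℝ) ≤ ((d * e : ℕ) : ℝ) := by exact_mod_cast h6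
      push_cast at h8 ⊢
      have he₀e : (e : ℝ) ≤ e₀ := by exact_mod_cast hsmall
      have h9 : η * d * e ≤ ε * d / 32 := by
        have h10 : η * d * e ≤ η * d * e₀ := mul_le_mul_of_nonneg_left he₀e (by positivity)
        nlinarith
      have h10 : (1 - η) * (d : ℝ) * e ≤ a * e := mul_le_mul_of_nonneg_right ha (by linarith)
      nlinarith

/-- The plane: standard form and anticanonically positive large part. -/
theorem plane_anti : ∃ K E : ℕ, ∀ M : ℕ, 1 ≤ M → ∀ ε : ℝ, 0 < ε → ∃ d₀ : ℕ,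
    ∀ (k d μ : ℕ) (m : Fin k → ℕ) (J : Finset (Fin k)), d₀ ≤ d → (∀ i ∈ J, ε * d ≤ m i) →
    (∀ i, i ∉ J → m i ≤ μ) → (∀ S : Finset (Fin k), S.card ≤ 3 → ∑ i ∈ S, m i ≤ d) →
    ∑ i ∈ J, (m i : ℝ) ≤ (3 - ε) * d → Off (K * M ^ E) M d μ m J →
    ForGeneralPoints 2 k fun p => ImposesMaximalConditions 2 d p m := by
  classical
  obtain ⟨K, E, hT⟩ := plane_T
  refine ⟨K + 600, E + 6, fun M hM ε hε => ?_⟩
  obtain ⟨η₁, hη₁, d₁, hd₁⟩ := nef_anti ε hε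
  set η : ℝ := min (η₁ / 2) (min ε (1 / 2)) with hη
  have hηpos : 0 < η := lt_min (by positivity) (lt_min hε (by norm_num))
  have hη1 : η ≤ η₁ / 2 := min_le_left _ _
  have hη2 : η ≤ ε := (min_le_right _ _).trans (min_le_left _ _)
  have hη3 : η ≤ 1 / 2 := (min_le_right _ _).trans (min_le_right _ _)
  obtain ⟨d₀, hd₀⟩ := plane_of_nef M hM η hηpos
  obtain ⟨d₂, hd₂⟩ := exists_nat_ge (2 / η₁)
  have hE1 : K * M ^ E ≤ (K + 600) * M ^ (E + 6) :=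
    Nat.mul_le_mul (Nat.le_add_right _ _) (Nat.pow_le_pow_right hM (Nat.le_add_right _ _))
  have hE2 : 300 * 2 * M ^ (2 + 4) ≤ (K + 600) * M ^ (E + 6) := by
    have h1 : M ^ (2 + 4) ≤ M ^ (E + 6) := Nat.pow_le_pow_right hM (by omega)
    nlinarith [Nat.zero_le (K * M ^ (E + 6))]
  refine ⟨d₀ + d₁ + d₂ + K * M ^ E + 1, fun k d μ m J hd hJ hμ hstd hsum hoff => ?_⟩
  rcases Nat.lt_or_ge J.card 9 with h9 | h9
  · refine hT M hM k d μ m J hμ hstd (by omega) (Or.inl ⟨by omega, ?_⟩)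
    exact hoff.mono hE1
  · have hd0 : (0 : ℝ) < d := by exact_mod_cast (by omega : 0 < d)
    have hdd : (2 / η₁ : ℝ) ≤ d := hd₂.trans (by exact_mod_cast (by omega : d₂ ≤ d))
    rw [div_le_iff₀ hη₁] at hdd
    set a := ⌊(1 - η) * (d : ℝ)⌋₊ with ha
    have ha1 : (a : ℝ) ≤ (1 - η) * d := Nat.floor_le (mul_nonneg (by linarith) hd0.le)
    have ha2 : (1 - η) * (d : ℝ) < a + 1 := Nat.lt_floor_add_one _
    refine hd₀ k d μ a m J (by omega) (fun i hi => ?_) hμ ?_ ha1 (hoff.mono hE2)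
    · exact (mul_le_mul_of_nonneg_right hη2 hd0.le).trans (hJ i hi)
    · refine hd₁ k d a m J (by omega) h9 hJ (fun S _ hS => hstd S hS.le) hsum ?_
      nlinarith

end Pool.Agent.H74.KV
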