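import Pool.Agent.H74.KV.Ind

/-!
# The inequality of Bezout for plane curves with multiplicities
-/

namespace Pool.Agent.H74.KV

open MvPolynomial Pool.Agent.H18.Fat Pool.Agent.H18.Ub Pool.Agent.H22.LU Pool.Agent.H74.CT
  Pool.Agent.H74.BP

variable {ι : Type*}

section Factor

variable {σ : Type*}

/-- the substitution `X i ↦ X i t` -/
private noncomputable def phi (σ : Type*) :
    MvPolynomial σ ℂ →ₐ[ℂ] Polynomial (MvPolynomial σ ℂ) :=
  aeval fun i => Polynomial.monomial 1 (X i)

private theorem phi_hom {A : MvPolynomial σ ℂ} {a : ℕ} (hA : A.IsHomogeneous a) :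
    phi σ A = Polynomial.monomial a A := by
  classical
  have h1 : ∀ m : σ →₀ ℕ, ∀ c : ℂ,
      phi σ (monomial m c) = Polynomial.monomial m.degree (monomial m c) := by
    intro m c
    have h2 : phi σ (monomial m c) =
        Polynomial.C (C c) * (m.prod fun i k =>
          (Polynomial.monomial 1 (X i : MvPolynomial σ ℂ)) ^ k) := by
      unfold phi
      rw [aeval_monomial]
      rfl
    rw [h2]
    have h3 : (m.prod fun i k => (Polynomial.monomial 1 (X i : MvPolynomial σ ℂ)) ^ k) =
        Polynomial.monomial m.degree (m.prod fun i k => (X i : MvPolynomial σ ℂ) ^ k) := by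
      simp only [Finsupp.prod, Polynomial.monomial_pow, one_mul]
      have h4 : ∀ s : Finset σ,
          ∏ i ∈ s, Polynomial.monomial (m i) ((X i : MvPolynomial σ ℂ) ^ m i) =
          Polynomial.monomial (∑ i ∈ s, m i) (∏ i ∈ s, (X i : MvPolynomial σ ℂ) ^ m i) := by
        intro s
        induction s using Finset.induction_on with
        | empty => simp
        | insert a s ha ih =>
          rw [Finset.prod_insert ha, Finset.prod_insert ha, Finset.sum_insert ha, ih,
            Polynomial.monomial_mul_monomial]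
      rw [h4]
      rfl
    rw [h3, Polynomial.C_mul_monomial, monomial_eq]
  rw [A.as_sum, map_sum, map_sum]
  refine Finset.sum_congr rfl fun m hm => ?_
  have h2 : m.degree = a := by
    by_contra h
    exact (mem_support_iff.1 hm) (hA.coeff_eq_zero h)
  rw [h1, h2]

private theorem phi_coeff (A : MvPolynomial σ ℂ) (k : ℕ) :
    (phi σ A).coeff k = homogeneousComponent k A := by
  classical
  conv_lhs => rw [← sum_homogeneousComponent A]
  rw [map_sum, Polynomial.finsetSum_coeff]
  have h1 : ∀ i, (phi σ (homogeneousComponent i A)).coeff k =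
      if i = k then homogeneousComponent k A else 0 := by
    intro i
    rw [phi_hom (homogeneousComponent_isHomogeneous i A), Polynomial.coeff_monomial]
    split_ifs with h
    · rw [h]
    · rfl
  rw [Finset.sum_congr rfl fun i _ => h1 i, Finset.sum_ite_eq']
  split_ifs with h
  · rfl
  · rw [Finset.mem_range, not_lt] at h
    exact (homogeneousComponent_eq_zero _ _ (by omega)).symm

/-- the factors of a form are forms -/
theorem hom_of_mul {A B : MvPolynomial σ ℂ} {d : ℕ} (h : (A * B).IsHomogeneous d) (hA : A ≠ 0)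
    (hB : B ≠ 0) : ∃ a b, A.IsHomogeneous a ∧ B.IsHomogeneous b ∧ a + b = d := by
  classical
  have key : ∀ A B : MvPolynomial σ ℂ, (A * B).IsHomogeneous d → A ≠ 0 → B ≠ 0 →
      ∃ a, A.IsHomogeneous a := by
    intro A B h hA hB
    have hprod : phi σ A * phi σ B = Polynomial.monomial d (A * B) := by
      rw [← map_mul, phi_hom h]
    have hne : ∀ P : MvPolynomial σ ℂ, P ≠ 0 → phi σ P ≠ 0 := by
      intro P hP h0
      apply hP
      rw [← sum_homogeneousComponent P]
      refine Finset.sum_eq_zero fun i _ => ?_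
      rw [← phi_coeff, h0, Polynomial.coeff_zero]
    have hAB : A * B ≠ 0 := mul_ne_zero hA hB
    have e1 := Polynomial.natDegree_mul (hne A hA) (hne B hB)
    have e2 := Polynomial.natTrailingDegree_mul (hne A hA) (hne B hB)
    rw [hprod, Polynomial.natDegree_monomial_eq _ hAB] at e1
    rw [hprod, Polynomial.natTrailingDegree_monomial hAB] at e2
    have e3 := Polynomial.natTrailingDegree_le_natDegree (phi σ A)
    have e4 := Polynomial.natTrailingDegree_le_natDegree (phi σ B)
    have e5 : (phi σ A).natTrailingDegree = (phi σ A).natDegree := by omega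
    refine ⟨(phi σ A).natDegree, ?_⟩
    have h6 : A = homogeneousComponent (phi σ A).natDegree A := by
      conv_lhs => rw [← sum_homogeneousComponent A]
      have h7 : ∀ i, homogeneousComponent i A = if i = (phi σ A).natDegree then
          homogeneousComponent (phi σ A).natDegree A else 0 := by
        intro i
        split_ifs with h
        · rw [h]
        · rw [← phi_coeff]
          rcases lt_or_gt_of_ne h with h8 | h8
          · exact Polynomial.coeff_eq_zero_of_lt_natTrailingDegree (by omega)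
          · exact Polynomial.coeff_eq_zero_of_natDegree_lt h8
      rw [Finset.sum_congr rfl fun i _ => h7 i, Finset.sum_ite_eq']
      split_ifs with h
      · rfl
      · rw [Finset.mem_range, not_lt] at h
        exact (homogeneousComponent_eq_zero _ _ (by omega)).symm
    have h8 := homogeneousComponent_isHomogeneous (phi σ A).natDegree A
    rwa [← h6] at h8
  obtain ⟨a, ha⟩ := key A B h hA hB
  obtain ⟨b, hb⟩ := key B A (by rwa [mul_comm]) hB hA
  exact ⟨a, b, ha, hb, IsHomogeneous.inj_right (ha.mul hb) h (mul_ne_zero hA hB)⟩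

theorem hom_quot {A B : MvPolynomial σ ℂ} {a d : ℕ} (h : (A * B).IsHomogeneous d) (hA : A ≠ 0)
    (ha : A.IsHomogeneous a) : B.IsHomogeneous (d - a) := by
  by_cases hB : B = 0
  · rw [hB]
    exact isHomogeneous_zero _ _ _
  obtain ⟨a', b, h1, h2, h3⟩ := hom_of_mul h hA hB
  have h4 := IsHomogeneous.inj_right h1 ha hA
  have h5 : d - a = b := by omega
  rw [h5]
  exact h2

theorem le_of_hom_mul {A B : MvPolynomial σ ℂ} {a d : ℕ} (h : (A * B).IsHomogeneous d)
    (hAB : A * B ≠ 0) (ha : A.IsHomogeneous a) : a ≤ d := by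
  obtain ⟨a', b, h1, h2, h3⟩ := hom_of_mul h (left_ne_zero_of_mul hAB) (right_ne_zero_of_mul hAB)
  have h4 := IsHomogeneous.inj_right h1 ha (left_ne_zero_of_mul hAB)
  omega

end Factor

/-- A pencil. -/
theorem mulgen2 {n : ℕ} (F G : MvPolynomial (Fin n) ℂ) (hF : F ≠ 0)
    (A B W D : Submodule ℂ (MvPolynomial (Fin n) ℂ)) [FiniteDimensional ℂ A]
    [FiniteDimensional ℂ B] [FiniteDimensional ℂ W] [FiniteDimensional ℂ D]
    (h1 : ∀ R ∈ A, F * R ∈ W) (h2 : ∀ T ∈ B, G * T ∈ W)
    (h3 : ∀ R ∈ A, ∀ T ∈ B, F * R + G * T = 0 → ∃ C ∈ D, T = F * C) :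
    Module.finrank ℂ A + Module.finrank ℂ B ≤ Module.finrank ℂ W + Module.finrank ℂ D := by
  let f : (A × B) →ₗ[ℂ] W :=
    { toFun := fun x => ⟨F * x.1.1 + G * x.2.1, W.add_mem (h1 _ x.1.2) (h2 _ x.2.2)⟩
      map_add' := by
        intro x y
        apply Subtype.ext
        simp only [Prod.fst_add, Prod.snd_add, Submodule.coe_add, mul_add]
        abel
      map_smul' := by
        intro c x
        apply Subtype.ext
        simp only [Prod.smul_fst, Prod.smul_snd, Submodule.coe_smul, RingHom.id_apply, smul_add,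
          mul_smul_comm] }
  let g : LinearMap.ker f →ₗ[ℂ] MvPolynomial (Fin n) ℂ :=
    { toFun := fun x => x.1.2.1
      map_add' := fun x y => rfl
      map_smul' := fun c x => rfl }
  have hf0 : ∀ x : LinearMap.ker f, F * x.1.1.1 + G * x.1.2.1 = 0 := by
    intro x
    have h0 : (f x.1).1 = 0 := by
      rw [LinearMap.mem_ker.1 x.2]
      rfl
    exact h0
  have hg : Function.Injective g := by
    intro x y hxy
    have e1 : x.1.2.1 = y.1.2.1 := hxy
    have e2 := hf0 x
    have e3 := hf0 y
    rw [e1, ← e3] at e2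
    have e4 : x.1.1.1 = y.1.1.1 := mul_left_cancel₀ hF (add_right_cancel e2)
    apply Subtype.ext
    apply Prod.ext
    · exact Subtype.ext e4
    · exact Subtype.ext e1
  have hr : LinearMap.range g ≤ D.map (LinearMap.mulLeft ℂ F) := by
    rintro _ ⟨x, rfl⟩
    obtain ⟨C, hC, h4⟩ := h3 _ x.1.1.2 _ x.1.2.2 (hf0 x)
    exact ⟨C, hC, h4.symm⟩
  have e0 : FiniteDimensional ℂ (D.map (LinearMap.mulLeft ℂ F)) := inferInstance
  have e1 : Module.finrank ℂ (LinearMap.ker f) ≤ Module.finrank ℂ D := by
    rw [← LinearMap.finrank_range_of_inj hg]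
    exact (Submodule.finrank_mono hr).trans (Submodule.finrank_map_le _ _)
  have e2 := LinearMap.finrank_range_add_finrank_ker f
  rw [Module.finrank_prod] at e2
  have e3 : Module.finrank ℂ (LinearMap.range f) ≤ Module.finrank ℂ W := Submodule.finrank_le _
  omega

theorem bez_num (t e g : ℕ) : (t + e + 2).choose 2 + (t + g + 2).choose 2 + e * g =
    (t + e + g + 2).choose 2 + (t + 2).choose 2 := by
  have h : ∀ x : ℕ, ((x + 2).choose 2 : ℚ) = (x + 2) * (x + 1) / 2 := by
    intro x
    rw [Nat.cast_choose_two]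
    push_cast
    ring
  have key : (((t + e + 2).choose 2 + (t + g + 2).choose 2 + e * g : ℕ) : ℚ) =
      ((t + e + g + 2).choose 2 + (t + 2).choose 2 : ℕ) := by
    push_cast
    rw [h, h, h, h]
    push_cast
    ring
  exact_mod_cast key

theorem bez_len (a b : ℕ) : (a + b + 2 - 1).choose 2 =
    (a + 2 - 1).choose 2 + (b + 2 - 1).choose 2 + a * b := by
  have h : ∀ x : ℕ, ((x + 1).choose 2 : ℚ) = (x + 1) * x / 2 := by
    intro x
    rw [Nat.cast_choose_two]
    push_cast
    ring
  have key : (((a + b + 1).choose 2 : ℕ) : ℚ) =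
      (((a + 1).choose 2 + (b + 1).choose 2 + a * b : ℕ) : ℚ) := by
    push_cast
    rw [h, h, h]
    push_cast
    ring
  exact_mod_cast key

/-- Bezout, with multiplicities at distinct points. -/
theorem bezout [Fintype ι] (p : ι → Fin (2 + 1) → ℂ) (h0 : ∀ i, p i 0 ≠ 0) (hsep : Sep p)
    {F G : MvPolynomial (Fin (2 + 1)) ℂ} {e g : ℕ} (hF : Irreducible F) (hFe : F.IsHomogeneous e)
    (hGg : G.IsHomogeneous g) (hFG : ¬ F ∣ G) (κ b : ι → ℕ)
    (hκ : ∀ i, VanishesToOrder F (p i) (κ i)) (hb : ∀ i, VanishesToOrder G (p i) (b i)) :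
    ∑ i, κ i * b i ≤ e * g := by
  classical
  have hF0 := hF.ne_zero
  have hG0 : G ≠ 0 := fun h => hFG (h ▸ dvd_zero F)
  set t := ∑ i, (κ i + b i) with ht
  have i1 := fin_fatForms 2 (t + g) p b
  have i2 := fin_fatForms 2 (t + e) p κ
  have i3 := fin_fatForms 2 (t + e + g) p fun i => κ i + b i
  have i4 := fin_fatForms 2 t p fun _ => 0
  have h1 := mulgen2 F G hF0 (fatForms 2 (t + g) p b) (fatForms 2 (t + e) p κ)
    (fatForms 2 (t + e + g) p fun i => κ i + b i) (fatForms 2 t p fun _ => 0)
    (fun R hR => ⟨by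
      have := hFe.mul hR.1
      have h5 : e + (t + g) = t + e + g := by omega
      rwa [h5] at this, fun i => van_mul (hκ i) (hR.2 i)⟩)
    (fun T hT => ⟨by
      have := hGg.mul hT.1
      have h5 : g + (t + e) = t + e + g := by omega
      rwa [h5] at this, fun i => by
      dsimp only
      rw [Nat.add_comm (κ i) (b i)]
      exact van_mul (hb i) (hT.2 i)⟩)
    (fun R _ T hT h => by
      have h2 : F ∣ G * T := by
        have h3 : G * T = F * (-R) := by
          rw [mul_neg]
          exact eq_neg_of_add_eq_zero_right h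
        exact h3 ▸ dvd_mul_right _ _
      obtain ⟨C, hC⟩ := (hF.prime.dvd_or_dvd h2).resolve_left hFG
      refine ⟨C, ⟨?_, fun i => vanishes_zero _ _⟩, hC⟩
      have h4 := hom_quot (hC ▸ hT.1) hF0 hFe
      have h5 : t + e - e = t := by omega
      rwa [h5] at h4)
  have e1 := finrank_fatForms_ge (r := 2) (d := t + g) (by norm_num) h0 b
  have e2 := finrank_fatForms_ge (r := 2) (d := t + e) (by norm_num) h0 κ
  have e3 := ind_large (r := 2) (by norm_num) p h0 hsep (fun i => κ i + b i) (t + e + g)
    (by omega)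
  have e4 := finrank_all 2 t p
  have e5 := bez_num t e g
  have e6 : ∑ i, (κ i + b i + 2 - 1).choose 2 = ∑ i, (κ i + 2 - 1).choose 2 +
      ∑ i, (b i + 2 - 1).choose 2 + ∑ i, κ i * b i := by
    rw [← Finset.sum_add_distrib, ← Finset.sum_add_distrib]
    exact Finset.sum_congr rfl fun i _ => bez_len _ _
  rw [e6] at e3
  have e7 : ((∑ i, (κ i + 2 - 1).choose 2 : ℕ) : ℤ) = ∑ i, ((κ i + 2 - 1).choose 2 : ℤ) := by
    push_cast
    rfl
  have e8 : ((∑ i, (b i + 2 - 1).choose 2 : ℕ) : ℤ) = ∑ i, ((b i + 2 - 1).choose 2 : ℤ) := by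
    push_cast
    rfl
  omega

end Pool.Agent.H74.KV
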