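import Pool.Agent.H18.FatPerfect
import Pool.Agent.H18.FatToric
import Pool.Agent.H18.TileAlg

/-!
# Points collapsing to a point
-/

namespace Pool.Agent.H74.KV

open Finset MvPolynomial Pool.Agent.H18.Fat

variable {r : ℕ}

/-- The conditions at the points of `I` are independent on the polynomials of degree at most `d`. -/
def Srj (r d : ℕ) {ι : Type*} (I : Finset ι) (x : ι → Fin r → ℂ) (m : ι → ℕ) : Prop :=
  ∀ u : ι → (Fin r →₀ ℕ) → ℂ, ∃ f : MvPolynomial (Fin r) ℂ, f.totalDegree ≤ d ∧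
    ∀ i ∈ I, ∀ γ : Fin r →₀ ℕ, γ.degree < m i → coeff γ (shift (x i) f) = u i γ

theorem Srj.mono {d d' : ℕ} {ι : Type*} {I : Finset ι} {x : ι → Fin r → ℂ} {m m' : ι → ℕ}
    (h : Srj r d I x m) (hd : d ≤ d') (hm : ∀ i ∈ I, m' i ≤ m i) : Srj r d' I x m' := by
  intro u
  obtain ⟨f, hf, h1⟩ := h u
  exact ⟨f, hf.trans hd, fun i hi γ hγ => h1 i hi γ (lt_of_lt_of_le hγ (hm i hi))⟩

theorem Srj.congr {d : ℕ} {ι : Type*} {I : Finset ι} {x x' : ι → Fin r → ℂ} {m : ι → ℕ}
    (h : Srj r d I x m) (hx : ∀ i ∈ I, x' i = x i) : Srj r d I x' m := by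
  intro u
  obtain ⟨f, hf, h1⟩ := h u
  exact ⟨f, hf, fun i hi γ hγ => by rw [hx i hi]; exact h1 i hi γ hγ⟩

theorem shift_shift' {n : ℕ} (x y : Fin n → ℂ) (F : MvPolynomial (Fin n) ℂ) :
    shift (x + y) F = shift y (shift x F) := by
  unfold shift
  rw [← AlgHom.comp_apply]
  congr 1
  apply algHom_ext
  intro i
  rw [AlgHom.comp_apply, aeval_X, aeval_X, map_add, aeval_X, aeval_C, Pi.add_apply, map_add,
    algebraMap_eq]
  ring

theorem tc_smul {n : ℕ} (t : ℂ) (y : Fin n → ℂ) (δ γ : Fin n →₀ ℕ) :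
    t ^ γ.degree * tc (t • y) δ γ = t ^ δ.degree * tc y δ γ := by
  unfold tc
  rw [Finsupp.degree_eq_sum, Finsupp.degree_eq_sum, ← prod_pow_eq_pow_sum, ← prod_pow_eq_pow_sum,
    ← prod_mul_distrib, ← prod_mul_distrib]
  refine prod_congr rfl fun j _ => ?_
  rcases Nat.lt_or_ge (δ j) (γ j) with h | h
  · rw [Nat.choose_eq_zero_of_lt h]
    simp
  · obtain ⟨e, he⟩ := Nat.exists_eq_add_of_le h
    have h1 : δ j - γ j = e := by omega
    rw [h1, he, Pi.smul_apply, smul_eq_mul, mul_pow, pow_add]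
    ring

/-- A single point. -/
theorem srj_single {d : ℕ} {ι : Type*} {I : Finset ι} (hI : I.card ≤ 1) {m : ι → ℕ}
    (hm : ∀ i ∈ I, m i ≤ d + 1) : Srj r d I (fun _ => 0) m := by
  classical
  intro u
  rcases Finset.eq_empty_or_nonempty I with h0 | ⟨i, hi⟩
  · subst h0
    exact ⟨0, by simp, fun i hi => absurd hi (notMem_empty i)⟩
  · refine ⟨∑ γ ∈ full r (m i), monomial γ (u i γ), ?_, ?_⟩
    · refine totalDegree_finsetSum_le fun γ hγ => ?_
      refine (totalDegree_monomial_le _ _).trans ?_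
      have h1 := mem_full.1 hγ
      have h2 := hm i hi
      have h3 : (γ.sum fun _ => id) = γ.degree := rfl
      rw [h3]
      omega
    · intro j hj γ hγ
      have hij : j = i := card_le_one.1 hI j hj i hi
      subst hij
      have h1 : shift (0 : Fin r → ℂ) (∑ γ ∈ full r (m j), monomial γ (u j γ)) =
          ∑ γ ∈ full r (m j), monomial γ (u j γ) := by
        unfold shift
        have h2 : (fun j => X j + C ((0 : Fin r → ℂ) j) : Fin r → MvPolynomial (Fin r) ℂ) = X := by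
          funext l
          simp
        rw [h2]
        exact aeval_X_left_apply _
      change coeff γ (shift (0 : Fin r → ℂ) _) = _
      rw [h1, coeff_sum]
      simp_rw [coeff_monomial]
      rw [sum_ite_eq' (full r (m j)) γ, if_pos (mem_full.2 hγ)]

/-- Several points of the same multiplicity `a` are replaced by clusters. -/
theorem collapse {κ ι : Type*} [Fintype κ] [DecidableEq κ] {d a : ℕ} (ha : 1 ≤ a)
    (X' : κ → Fin r → ℂ) (hX : Srj r d univ X' fun _ => a) (φ : ι → κ) (I : Finset ι)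
    (y : ι → Fin r → ℂ) (m : ι → ℕ)
    (hy : ∀ c, Srj r (a - 1) (I.filter fun i => φ i = c) y m) :
    ∃ t : ℂ, t ≠ 0 ∧ Srj r d I (fun i => X' (φ i) + t • y i) m := by
  classical
  have hf' : ∀ (c : κ) (β : Fin r →₀ ℕ), ∃ f : MvPolynomial (Fin r) ℂ, f.totalDegree ≤ d ∧
      ∀ c' (γ : Fin r →₀ ℕ), γ.degree < a →
        coeff γ (shift (X' c') f) = if c' = c ∧ γ = β then 1 else 0 := by
    intro c β
    obtain ⟨f, h1, h2⟩ := hX fun c' γ => if c' = c ∧ γ = β then 1 else 0
    exact ⟨f, h1, fun c' γ hγ => h2 c' (mem_univ _) γ hγ⟩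
  choose f hfd hfc using hf'
  let N : Matrix (Σ i : I, {γ // γ ∈ full r (m i)}) (κ × {β // β ∈ full r a})
      (MvPolynomial Unit ℂ) := fun x z =>
    ∑ δ ∈ (shift (X' (φ x.1)) (f z.1 z.2.1)).support,
      C (coeff δ (shift (X' (φ x.1)) (f z.1 z.2.1)) * tc (y x.1) δ x.2.1) *
        X () ^ (δ.degree - (z.2.1 : Fin r →₀ ℕ).degree)
  have hN : ∀ (τ : Unit → ℂ) x z, (N.map (eval τ)) x z =
      ∑ δ ∈ (shift (X' (φ x.1)) (f z.1 z.2.1)).support,
        coeff δ (shift (X' (φ x.1)) (f z.1 z.2.1)) * tc (y x.1) δ x.2.1 *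
          τ () ^ (δ.degree - (z.2.1 : Fin r →₀ ℕ).degree) := by
    intro τ x z
    rw [Matrix.map_apply]
    change eval τ (∑ δ ∈ (shift (X' (φ x.1)) (f z.1 z.2.1)).support,
      C (coeff δ (shift (X' (φ x.1)) (f z.1 z.2.1)) * tc (y x.1) δ x.2.1) *
        X () ^ (δ.degree - (z.2.1 : Fin r →₀ ℕ).degree)) = _
    rw [map_sum]
    exact sum_congr rfl fun δ _ => by rw [map_mul, eval_C, map_pow, eval_X]
  have hsupp : ∀ (i : ι) (c : κ) (β : Fin r →₀ ℕ), β.degree < a →
      ∀ δ ∈ (shift (X' (φ i)) (f c β)).support, β.degree ≤ δ.degree ∧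
        (δ.degree ≤ β.degree → φ i = c ∧ δ = β) := by
    intro i c β hβ δ hδ
    rw [mem_support_iff] at hδ
    have h1 : δ.degree < a → φ i = c ∧ δ = β := by
      intro h
      rw [hfc c β (φ i) δ h] at hδ
      by_contra hcon
      rw [if_neg hcon] at hδ
      exact hδ rfl
    constructor
    · by_contra hcon
      push Not at hcon
      rw [(h1 (hcon.trans hβ)).2] at hcon
      exact lt_irrefl _ hcon
    · exact fun h => h1 (lt_of_le_of_lt h hβ)
  -- the special value
  have hspec : Function.Surjective (N.map (eval fun _ => (0 : ℂ))).mulVec := by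
    have h0 : ∀ x z, (N.map (eval fun _ => (0 : ℂ))) x z =
        if φ x.1 = z.1 then tc (y x.1) z.2.1 x.2.1 else 0 := by
      intro x z
      rw [hN]
      have hβ := mem_full.1 z.2.2
      by_cases hc : φ x.1 = z.1
      · rw [if_pos hc]
        have h1 : coeff z.2.1 (shift (X' (φ x.1)) (f z.1 z.2.1)) = 1 := by
          rw [hfc _ _ _ _ hβ, if_pos ⟨hc, rfl⟩]
        rw [sum_eq_single z.2.1]
        · rw [h1, Nat.sub_self, pow_zero, one_mul, mul_one]
        · intro δ hδ hne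
          obtain ⟨h2, h3⟩ := hsupp x.1 z.1 z.2.1 hβ δ hδ
          have h4 : δ.degree - (z.2.1 : Fin r →₀ ℕ).degree ≠ 0 := by
            intro h5
            exact hne (h3 (by omega)).2
          rw [zero_pow h4, mul_zero]
        · intro h2
          rw [notMem_support_iff, h1] at h2
          exact absurd h2 one_ne_zero
      · rw [if_neg hc]
        refine sum_eq_zero fun δ hδ => ?_
        obtain ⟨h2, h3⟩ := hsupp x.1 z.1 z.2.1 hβ δ hδ
        have h4 : δ.degree - (z.2.1 : Fin r →₀ ℕ).degree ≠ 0 := by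
          intro h5
          exact hc (h3 (by omega)).1
        rw [zero_pow h4, mul_zero]
    intro v
    choose g hg1 hg2 using fun c => hy c fun i γ =>
      if h : i ∈ I ∧ γ ∈ full r (m i) then v ⟨⟨i, h.1⟩, ⟨γ, h.2⟩⟩ else 0
    refine ⟨fun z => coeff z.2.1 (g z.1), ?_⟩
    funext x
    unfold Matrix.mulVec dotProduct
    rw [Fintype.sum_prod_type]
    rw [sum_eq_single (φ x.1)]
    · have h1 := hg2 (φ x.1) x.1 (mem_filter.2 ⟨x.1.2, rfl⟩) x.2.1 (mem_full.1 x.2.2)
      rw [dif_pos ⟨x.1.2, x.2.2⟩, coeff_shift] at h1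
      rw [← h1]
      have h2 : (g (φ x.1)).support ⊆ full r a := by
        intro δ hδ
        rw [mem_full]
        have h3 := le_totalDegree hδ
        have h4 : (δ.sum fun _ => id) = δ.degree := rfl
        have h5 : (δ.sum fun _ e => e) = δ.degree := rfl
        have h6 := hg1 (φ x.1)
        rw [h5] at h3
        omega
      rw [sum_subset h2 fun δ _ hδ => by rw [notMem_support_iff.1 hδ, zero_mul]]
      rw [← sum_coe_sort (full r a)]
      refine sum_congr rfl fun β _ => ?_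
      change (N.map (eval fun _ => (0 : ℂ))) x (φ x.1, β) * coeff β.1 (g (φ x.1)) = _
      rw [h0, if_pos rfl, mul_comm]
    · intro c _ hc
      refine sum_eq_zero fun β _ => ?_
      change (N.map (eval fun _ => (0 : ℂ))) x (c, β) * coeff β.1 (g c) = _
      rw [h0, if_neg (Ne.symm hc), zero_mul]
    · exact fun h => absurd (mem_univ _) h
  obtain ⟨G, hG, hG'⟩ := exists_poly_surjective N (fun _ => 0) hspec
  obtain ⟨τ, hτ, hGτ⟩ := exists_ne_zero_eval hG
  have hsurj := hG' τ hGτ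
  refine ⟨τ (), hτ, fun u => ?_⟩
  obtain ⟨s, hs⟩ := hsurj fun x => τ () ^ (x.2.1 : Fin r →₀ ℕ).degree * u x.1 x.2.1
  refine ⟨∑ z : κ × {β // β ∈ full r a},
    C (s z * (τ () ^ (z.2.1 : Fin r →₀ ℕ).degree)⁻¹) * f z.1 z.2.1, ?_, ?_⟩
  · refine totalDegree_finsetSum_le fun z _ => ?_
    refine (totalDegree_mul _ _).trans ?_
    rw [totalDegree_C, zero_add]
    exact hfd _ _
  · intro i hi γ hγ
    have hrow := congrFun hs ⟨⟨i, hi⟩, ⟨γ, mem_full.2 hγ⟩⟩
    unfold Matrix.mulVec dotProduct at hrow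
    dsimp only at hrow
    have hτγ : τ () ^ γ.degree ≠ 0 := pow_ne_zero _ hτ
    apply mul_left_cancel₀ hτγ
    rw [← hrow]
    have hsum : coeff γ (shift (X' (φ i) + τ () • y i) (∑ z : κ × {β // β ∈ full r a},
        C (s z * (τ () ^ (z.2.1 : Fin r →₀ ℕ).degree)⁻¹) * f z.1 z.2.1)) =
        ∑ z : κ × {β // β ∈ full r a}, s z * (τ () ^ (z.2.1 : Fin r →₀ ℕ).degree)⁻¹ *
          coeff γ (shift (X' (φ i) + τ () • y i) (f z.1 z.2.1)) := by
      unfold shift
      rw [map_sum, coeff_sum]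
      refine sum_congr rfl fun z _ => ?_
      rw [map_mul, aeval_C, algebraMap_eq, coeff_C_mul]
    rw [hsum, mul_sum]
    refine sum_congr rfl fun z _ => ?_
    rw [hN]
    have hβ := mem_full.1 z.2.2
    have hτβ : τ () ^ (z.2.1 : Fin r →₀ ℕ).degree ≠ 0 := pow_ne_zero _ hτ
    have h1 : τ () ^ γ.degree * coeff γ (shift (X' (φ i) + τ () • y i) (f z.1 z.2.1)) =
        τ () ^ (z.2.1 : Fin r →₀ ℕ).degree *
          ∑ δ ∈ (shift (X' (φ i)) (f z.1 z.2.1)).support,
            coeff δ (shift (X' (φ i)) (f z.1 z.2.1)) * tc (y i) δ γ *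
              τ () ^ (δ.degree - (z.2.1 : Fin r →₀ ℕ).degree) := by
      rw [shift_shift', coeff_shift, mul_sum, mul_sum]
      refine sum_congr rfl fun δ hδ => ?_
      obtain ⟨h2, _⟩ := hsupp i z.1 z.2.1 hβ δ hδ
      have h3 := tc_smul (τ ()) (y i) δ γ
      have h4 : τ () ^ δ.degree = τ () ^ (z.2.1 : Fin r →₀ ℕ).degree *
          τ () ^ (δ.degree - (z.2.1 : Fin r →₀ ℕ).degree) := by
        rw [← pow_add]
        congr 1
        omega
      calc τ () ^ γ.degree * (coeff δ (shift (X' (φ i)) (f z.1 z.2.1)) * tc (τ () • y i) δ γ) =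
          coeff δ (shift (X' (φ i)) (f z.1 z.2.1)) *
            (τ () ^ γ.degree * tc (τ () • y i) δ γ) := by ring
        _ = _ := by
          rw [h3, h4]
          ring
    calc τ () ^ γ.degree * (s z * (τ () ^ (z.2.1 : Fin r →₀ ℕ).degree)⁻¹ *
        coeff γ (shift (X' (φ i) + τ () • y i) (f z.1 z.2.1))) =
        s z * (τ () ^ (z.2.1 : Fin r →₀ ℕ).degree)⁻¹ * (τ () ^ γ.degree *
          coeff γ (shift (X' (φ i) + τ () • y i) (f z.1 z.2.1))) := by ring
      _ = _ := by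
        rw [h1]
        field_simp

end Pool.Agent.H74.KV
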