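import Pool.Agent.H74.KV.Xu
import Pool.Agent.H74.KV.Gen

/-!
# The plane: large points forming a nef class with slack
-/

namespace Pool.Agent.H74.KV

open Finset Pool.Agent.H18.Cub Pool.Agent.H18.Pr Pool.Agent.H18.Fat Pool.Agent.H18.Ub
  Pool.Agent.H18.Nef Pool.Agent.H74.BP

/-- The number of the large points. -/
theorem card_le_of_nef {ε : ℝ} (hε : 0 < ε) {n d a : ℕ} {m : Fin n → ℕ} {J : Finset (Fin n)}
    (hd : 0 < d) (hJ : ∀ i ∈ J, ε * d ≤ m i) (hnef : NefC a fun i => if i ∈ J then m i else 0)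
    (ha : a ≤ d) : J.card ≤ ⌈1 / ε ^ 2⌉₊ := by
  classical
  have h1 := nef_sq hnef
  have h2 : ∑ i ∈ J, m i ^ 2 ≤ a ^ 2 := by
    refine le_trans ?_ h1
    have h3 : ∑ i ∈ J, m i ^ 2 = ∑ i ∈ J, (if i ∈ J then m i else 0) ^ 2 :=
      sum_congr rfl fun i hi => by rw [if_pos hi]
    rw [h3]
    exact sum_le_sum_of_subset (subset_univ J)
  have h3 : (J.card : ℝ) * (ε * d) ^ 2 ≤ (d : ℝ) ^ 2 := by
    have h4 : ∑ _i ∈ J, (ε * (d : ℝ)) ^ 2 ≤ ∑ i ∈ J, (m i : ℝ) ^ 2 :=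
      sum_le_sum fun i hi => pow_le_pow_left₀ (by positivity) (hJ i hi) 2
    rw [sum_const, nsmul_eq_mul] at h4
    have h5 : ∑ i ∈ J, (m i : ℝ) ^ 2 ≤ (a : ℝ) ^ 2 := by exact_mod_cast h2
    have h6 : (a : ℝ) ^ 2 ≤ (d : ℝ) ^ 2 := by exact_mod_cast Nat.pow_le_pow_left ha 2
    linarith
  have hd0 : (0 : ℝ) < d := by exact_mod_cast hd
  have h4 : (J.card : ℝ) ≤ 1 / ε ^ 2 := by
    rw [le_div_iff₀ (by positivity)]
    have h5 : (J.card : ℝ) * (ε * d) ^ 2 = (J.card : ℝ) * ε ^ 2 * (d : ℝ) ^ 2 := by ring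
    rw [h5] at h3
    have h6 : (0 : ℝ) < (d : ℝ) ^ 2 := by positivity
    nlinarith
  exact_mod_cast h4.trans (Nat.le_ceil _)

/-- The large points form a nef class with slack. -/
theorem exact_of_nef (ε : ℝ) (hε : 0 < ε) (F : ℕ) : ∃ d₀ : ℕ, ∀ (n d a : ℕ) (m : Fin n → ℕ)
    (J : Finset (Fin n)), d₀ ≤ d → (∀ i ∈ J, ε * d ≤ m i) →
    (NefC a fun i => if i ∈ J then m i else 0) → (a : ℝ) ≤ (1 - ε) * d →
    F ≤ d ∧ ∀ j, d ≤ j + F → Exact 2 j m J := by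
  classical
  obtain ⟨d₀, hd₀⟩ := nef_exact_on ⌈1 / ε ^ 2⌉₊ (ε / 2) (by positivity)
  obtain ⟨d₁, hd₁⟩ := exists_nat_ge (2 * F / ε)
  refine ⟨d₀ + F + d₁ + 1, fun n d a m J hd hJ hnef ha => ⟨by omega, fun j hj => ?_⟩⟩
  have hd0 : (0 : ℝ) < d := by exact_mod_cast (by omega : 0 < d)
  have ha0 : (0 : ℝ) ≤ a := Nat.cast_nonneg a
  have hε1 : ε ≤ 1 := by
    by_contra hcon
    push Not at hcon
    nlinarith
  have had : a ≤ d := by
    have : (a : ℝ) ≤ d := by nlinarith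
    exact_mod_cast this
  have hcard := card_le_of_nef hε (by omega) hJ hnef had
  have hFd : (F : ℝ) ≤ ε / 2 * d := by
    have h1 : (2 * F / ε : ℝ) ≤ d := hd₁.trans (by exact_mod_cast (by omega : d₁ ≤ d))
    rw [div_le_iff₀ hε] at h1
    linarith
  have hjr : (d : ℝ) ≤ j + F := by exact_mod_cast hj
  have h1 := hd₀ n j a (fun i => if i ∈ J then m i else 0) J hcard (fun i hi => if_neg hi)
    (by omega) hnef (by
      have h2 : (1 - ε / 2) * (d - ε / 2 * d) ≤ (1 - ε / 2) * (j : ℝ) :=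
        mul_le_mul_of_nonneg_left (by linarith) (by linarith)
      have h3 : (1 - ε) * (d : ℝ) ≤ (1 - ε / 2) * (d - ε / 2 * d) := by
        have h4 : (1 - ε / 2) * ((d : ℝ) - ε / 2 * d) = (1 - ε) * d + ε ^ 2 / 4 * d := by ring
        rw [h4]
        have : (0 : ℝ) ≤ ε ^ 2 / 4 * d := by positivity
        linarith
      linarith)
  unfold Exact
  have h2 : ∑ i, (((if i ∈ J then m i else 0) + 2 - 1).choose 2) =
      ∑ i ∈ J, ((m i + 2 - 1).choose 2) := by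
    rw [← sum_subset (subset_univ J)]
    · exact sum_congr rfl fun i hi => by rw [if_pos hi]
    · intro i _ hi
      rw [if_neg hi]
      rfl
  rw [← h2]
  exact h1

/-- The conditions off the window. -/
def Off (D M d μ : ℕ) {k : ℕ} (m : Fin k → ℕ) (J : Finset (Fin k)) : Prop :=
  μ ≤ M ∨
    (D + μ ≤ d ∧ ∑ i ∈ univ.filter (fun i => i ∈ J ∨ M < m i), (m i + 1).choose 2 ≤
      (d - D - μ + 2).choose 2) ∨
    (d + μ + 1).choose 2 ≤ ∑ i ∈ univ.filter (fun i => i ∈ J ∨ M < m i), (m i + 1).choose 2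

theorem Off.mono {D D' M d μ k : ℕ} {m : Fin k → ℕ} {J : Finset (Fin k)} (h : Off D' M d μ m J)
    (hD : D ≤ D') : Off D M d μ m J := by
  rcases h with h | ⟨h1, h2⟩ | h
  · exact Or.inl h
  · exact Or.inr (Or.inl ⟨by omega, h2.trans (Nat.choose_le_choose 2 (by omega))⟩)
  · exact Or.inr (Or.inr h)

/-- The plane: the large points form a nef class with slack. -/
theorem plane_of_nef (M : ℕ) (hM : 1 ≤ M) (ε : ℝ) (hε : 0 < ε) : ∃ d₀ : ℕ,
    ∀ (k d μ a : ℕ) (m : Fin k → ℕ) (J : Finset (Fin k)), d₀ ≤ d → (∀ i ∈ J, ε * d ≤ m i) →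
    (∀ i, i ∉ J → m i ≤ μ) → (NefC a fun i => if i ∈ J then m i else 0) →
    (a : ℝ) ≤ (1 - ε) * d → Off (300 * 2 * M ^ (2 + 4)) M d μ m J →
    ForGeneralPoints 2 k fun p => ImposesMaximalConditions 2 d p m := by
  obtain ⟨d₀, hd₀⟩ := exact_of_nef ε hε (300 * 2 * M ^ (2 + 4))
  refine ⟨d₀ + 1, fun k d μ a m J hd hJ hμ hnef ha hor => ?_⟩
  obtain ⟨h1, h2⟩ := hd₀ k d a m J (by omega) hJ hnef ha
  refine of_exact 2 M le_rfl hM k d μ m J hμ h1 h2 ?_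
  rcases hor with h | h | h
  · exact Or.inl h
  · exact Or.inr (Or.inl h)
  · refine Or.inr (Or.inr ?_)
    have h3 : d + μ - 1 + 2 = d + μ + 1 := by omega
    rw [h3]
    exact h

/-- The plane: the large points fill at most nine tenths. -/
theorem plane_num : ∃ K E : ℕ, ∀ M : ℕ, 1 ≤ M → ∀ ε : ℝ, 0 < ε → ∃ d₀ : ℕ,
    ∀ (k d μ : ℕ) (m : Fin k → ℕ) (J : Finset (Fin k)), d₀ ≤ d → (∀ i ∈ J, ε * d ≤ m i) →
    (∀ i, i ∉ J → m i ≤ μ) → (∀ S : Finset (Fin k), S.card ≤ 3 → ∑ i ∈ S, m i ≤ d) →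
    ∑ i ∈ J, (m i : ℝ) ^ 2 ≤ (9 / 10 - ε) * d ^ 2 → Off (K * M ^ E) M d μ m J →
    ForGeneralPoints 2 k fun p => ImposesMaximalConditions 2 d p m := by
  classical
  obtain ⟨K, E, hT⟩ := plane_T
  refine ⟨K + 600, E + 6, fun M hM ε hε => ?_⟩
  -- the nef class
  set η : ℝ := min (ε / 24) (1 / 2) with hη
  have hηpos : 0 < η := lt_min (by positivity) (by norm_num)
  have hηε : η ≤ ε / 24 := min_le_left _ _
  obtain ⟨d₀, hd₀⟩ := plane_of_nef M hM η hηpos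
  obtain ⟨d₁, hd₁⟩ := exists_nat_ge (24 / ε)
  have hE1 : K * M ^ E ≤ (K + 600) * M ^ (E + 6) :=
    Nat.mul_le_mul (Nat.le_add_right _ _) (Nat.pow_le_pow_right hM (Nat.le_add_right _ _))
  have hE2 : 300 * 2 * M ^ (2 + 4) ≤ (K + 600) * M ^ (E + 6) := by
    have h1 : M ^ (2 + 4) ≤ M ^ (E + 6) := Nat.pow_le_pow_right hM (by omega)
    nlinarith [Nat.zero_le (K * M ^ (E + 6))]
  refine ⟨d₀ + d₁ + K * M ^ E + 1, fun k d μ m J hd hJ hμ hstd hsq hoff => ?_⟩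
  rcases Nat.lt_or_ge J.card 9 with h9 | h9
  · refine hT M hM k d μ m J hμ hstd (by omega) (Or.inl ⟨by omega, ?_⟩)
    exact hoff.mono hE1
  · have hd0 : (0 : ℝ) < d := by exact_mod_cast (by omega : 0 < d)
    have hdd : (24 / ε : ℝ) ≤ d := hd₁.trans (by exact_mod_cast (by omega : d₁ ≤ d))
    rw [div_le_iff₀ hε] at hdd
    -- `ε ≤ 1`
    have hε1 : ε ≤ 9 / 10 := by
      by_contra hcon
      push Not at hcon
      have h1 : (0 : ℝ) ≤ ∑ i ∈ J, (m i : ℝ) ^ 2 := sum_nonneg fun _ _ => sq_nonneg _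
      have h2 : (9 / 10 - ε) * (d : ℝ) ^ 2 < 0 := by
        have : (0 : ℝ) < (d : ℝ) ^ 2 := by positivity
        nlinarith
      linarith
    set a := ⌊(1 - η) * (d : ℝ)⌋₊ with ha
    have hη1 : 0 ≤ 1 - η := by
      have := min_le_right (ε / 24) (1 / 2 : ℝ)
      linarith
    have ha1 : (a : ℝ) ≤ (1 - η) * d := Nat.floor_le (by positivity)
    have ha2 : (1 - η) * (d : ℝ) < a + 1 := Nat.lt_floor_add_one _
    set y := ⌈ε * (d : ℝ)⌉₊ with hy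
    have hy1 : ε * (d : ℝ) ≤ y := Nat.le_ceil _
    refine hd₀ k d μ a m J (by omega) (fun i hi => ?_) hμ ?_ ha1 (hoff.mono hE2)
    · refine le_trans ?_ (hJ i hi)
      have : η ≤ ε := by linarith
      exact mul_le_mul_of_nonneg_right this hd0.le
    · refine nef_num hε (J := J) (by omega) (d := d) (y := y) (fun i hi => ?_)
        (fun S _ hS => hstd S hS.le) hsq ?_ ?_
      · exact Nat.ceil_le.2 (hJ i hi)
      · have h1 : (6 : ℝ) * d ≤ 6 * a + y := by nlinarith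
        exact_mod_cast h1
      · nlinarith

end Pool.Agent.H74.KV
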