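import Pool.Agent.H74.KV.Dya2
import Pool.Agent.H74.KV.PlaneN

/-!
# Coplanar points, and independent conditions in all dimensions
-/

namespace Pool.Agent.H74.KV

open Finset MvPolynomial Pool.Agent.H18.Fat Pool.Agent.H18.Ub Pool.Agent.H22.LU
  Pool.Agent.H74.CT Pool.Agent.H18.Nef Pool.Agent.H74.BP

variable {r : ℕ}

theorem tc_cons (x : Fin r → ℂ) (b b' : ℕ) (δ γ : Fin r →₀ ℕ) :
    tc (Fin.cons 0 x : Fin (r + 1) → ℂ) (Finsupp.cons b δ) (Finsupp.cons b' γ) =
      if b = b' then tc x δ γ else 0 := by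
  unfold tc
  rw [Fin.prod_univ_succ, Finsupp.cons_zero, Finsupp.cons_zero, Fin.cons_zero]
  have h1 : ∏ j : Fin r, ((((Finsupp.cons b δ) j.succ).choose ((Finsupp.cons b' γ) j.succ) : ℂ) *
      (Fin.cons 0 x : Fin (r + 1) → ℂ) j.succ ^ ((Finsupp.cons b δ) j.succ -
        (Finsupp.cons b' γ) j.succ)) = ∏ j, (((δ j).choose (γ j) : ℂ) * x j ^ (δ j - γ j)) := by
    refine prod_congr rfl fun j _ => ?_
    rw [Finsupp.cons_succ, Finsupp.cons_succ, Fin.cons_succ]
  rw [h1]
  split_ifs with h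
  · subst h
    rw [Nat.choose_self, Nat.sub_self, pow_zero, Nat.cast_one, one_mul, one_mul]
  · rcases Nat.lt_or_gt_of_ne h with h2 | h2
    · rw [Nat.choose_eq_zero_of_lt h2]
      simp
    · rw [zero_pow (by omega)]
      simp

/-- The cone. -/
theorem cone {d : ℕ} {ι : Type*} {I : Finset ι} {x : ι → Fin r → ℂ} {m : ι → ℕ}
    (hm : ∀ i ∈ I, m i ≤ d + 1) (h : ∀ b ≤ d, Srj r (d - b) I x fun i => m i - b) :
    Srj (r + 1) d I (fun i => Fin.cons 0 (x i)) m := by
  classical
  intro u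
  have h' : ∀ b, ∃ f : MvPolynomial (Fin r) ℂ, b ≤ d → (f.totalDegree ≤ d - b ∧
      ∀ i ∈ I, ∀ γ : Fin r →₀ ℕ, γ.degree < m i - b →
        coeff γ (shift (x i) f) = u i (Finsupp.cons b γ)) := by
    intro b
    by_cases hb : b ≤ d
    · obtain ⟨f, h1, h2⟩ := h b hb fun i γ => u i (Finsupp.cons b γ)
      exact ⟨f, fun _ => ⟨h1, h2⟩⟩
    · exact ⟨0, fun h => absurd h hb⟩
  choose f hf using h'
  refine ⟨∑ b ∈ range (d + 1), ∑ δ ∈ (f b).support, monomial (Finsupp.cons b δ) (coeff δ (f b)),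
    ?_, ?_⟩
  · refine totalDegree_finsetSum_le fun b hb => totalDegree_finsetSum_le fun δ hδ => ?_
    have hb' : b ≤ d := by
      have := mem_range.1 hb
      omega
    refine (totalDegree_monomial_le _ _).trans ?_
    have h3 : ((Finsupp.cons b δ).sum fun _ => id) = (Finsupp.cons b δ).degree := rfl
    rw [h3, degree_cons']
    have h4 := le_totalDegree hδ
    have h5 : (δ.sum fun _ e => e) = δ.degree := rfl
    rw [h5] at h4
    have h6 := (hf b hb').1
    omega
  · intro i hi γ hγ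
    have hcons : Finsupp.cons (γ 0) (Finsupp.tail γ) = γ := Finsupp.cons_tail γ
    have hdeg := degree_tail γ
    have hmi := hm i hi
    have hb' : γ 0 ≤ d := by omega
    have h1 := (hf (γ 0) hb').2 i hi (Finsupp.tail γ) (by omega)
    rw [hcons] at h1
    rw [← h1, coeff_shift (x i) (Finsupp.tail γ) (f (γ 0))]
    unfold shift
    rw [map_sum, coeff_sum]
    rw [sum_eq_single (γ 0)]
    · rw [map_sum, coeff_sum]
      refine sum_congr rfl fun δ _ => ?_
      have h2 := coeff_shift_monomial (Fin.cons 0 (x i) : Fin (r + 1) → ℂ)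
        (Finsupp.cons (γ 0) δ) γ (coeff δ (f (γ 0)))
      unfold shift at h2
      rw [h2]
      congr 1
      conv_lhs => rw [← hcons]
      rw [Finsupp.cons_zero, tc_cons, if_pos rfl]
    · intro b _ hb
      rw [map_sum, coeff_sum]
      refine sum_eq_zero fun δ _ => ?_
      have h2 := coeff_shift_monomial (Fin.cons 0 (x i) : Fin (r + 1) → ℂ)
        (Finsupp.cons b δ) γ (coeff δ (f b))
      unfold shift at h2
      rw [h2]
      conv_lhs => rw [← hcons]
      rw [tc_cons, if_neg hb, mul_zero]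
    · intro hb
      exact absurd (mem_range.2 (by omega)) hb

theorem cones {d : ℕ} {ι : Type*} {I : Finset ι} {m : ι → ℕ} (hm : ∀ i ∈ I, m i ≤ d + 1) :
    ∀ s : ℕ, (∃ x : ι → Fin r → ℂ, ∀ b ≤ d, Srj r (d - b) I x fun i => m i - b) →
      ∃ x : ι → Fin (r + s) → ℂ, ∀ b ≤ d, Srj (r + s) (d - b) I x fun i => m i - b := by
  intro s
  induction s with
  | zero => exact fun h => h
  | succ s ih =>
    intro h
    obtain ⟨x, hx⟩ := ih h
    refine ⟨fun i => Fin.cons 0 (x i), fun b hb => ?_⟩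
    refine cone (fun i hi => ?_) fun b' hb' => ?_
    · have := hm i hi
      omega
    · have h1 := hx (b + b') (by omega)
      have h2 : d - (b + b') = d - b - b' := by omega
      rw [h2] at h1
      exact h1.mono le_rfl fun i _ => by omega

/-- Independent conditions at general points. -/
theorem exact_of_srj (hr : 2 ≤ r) {j k : ℕ} {m : Fin k → ℕ} {J : Finset (Fin k)}
    {x : Fin k → Fin r → ℂ} (h : Srj r j J x m) : Exact r j m J := by
  classical
  have h1 : Srj r j univ x fun i => if i ∈ J then m i else 0 := by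
    intro u
    obtain ⟨f, hf, h2⟩ := h u
    refine ⟨f, hf, fun i _ γ hγ => ?_⟩
    by_cases hi : i ∈ J
    · have hγ' : γ.degree < if i ∈ J then m i else 0 := hγ
      rw [if_pos hi] at hγ'
      exact h2 i hi γ hγ'
    · have hγ' : γ.degree < if i ∈ J then m i else 0 := hγ
      rw [if_neg hi] at hγ'
      omega
  have h2 := finrank_of_surjective (by omega)
    (p := fun i => (Fin.cons 1 (x i) : Fin (r + 1) → ℂ)) (fun i => by
      rw [Fin.cons_zero]
      exact one_ne_zero) (condMat_of_srj h1)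
  have h3 : generalDim r j (fun i => if i ∈ J then m i else 0) ≤
      Module.finrank ℂ (fatForms r j (fun i => (Fin.cons 1 (x i) : Fin (r + 1) → ℂ))
        fun i => if i ∈ J then m i else 0) := Nat.sInf_le ⟨_, rfl⟩
  obtain ⟨s, rfl⟩ : ∃ s, r = s + 2 := ⟨r - 2, by omega⟩
  have h4 := Pool.Agent.H74.CT.dim_ge s j k m J
  have h5 : ∑ i, ((if i ∈ J then m i else 0) + (s + 2) - 1).choose (s + 2) =
      ∑ i ∈ J, (m i + (s + 2) - 1).choose (s + 2) := by
    rw [← sum_subset (subset_univ J)]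
    · exact sum_congr rfl fun i hi => by rw [if_pos hi]
    · intro i _ hi
      rw [if_neg hi, Nat.choose_eq_zero_of_lt (by omega)]
  unfold Exact
  rw [h5] at h2
  omega

theorem Exact.up (hr : 2 ≤ r) {j j' k : ℕ} {m : Fin k → ℕ} {J : Finset (Fin k)}
    {x : Fin k → Fin r → ℂ} (h : Srj r j J x m) (hj : j ≤ j') : Exact r j' m J :=
  exact_of_srj hr (h.mono hj fun _ _ => le_rfl)

/-- Independent conditions at special points from general ones. -/
theorem srj_of_exact {n D d : ℕ} {p : Fin n → Fin (2 + 1) → ℂ} (hp : Good n D p) (hd : d ≤ D)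
    {m : Fin n → ℕ} (hm : ∀ i, m i ≤ D)
    (h : generalDim 2 d m + ∑ i, (m i + 2 - 1).choose 2 = (d + 2).choose 2) :
    Srj 2 d univ (fun i j => p i j.succ) m := by
  classical
  refine srj_of_condMat hp.one ?_
  have h1 := rank_add_finrank (d := d) hp.ne m
  rw [hp.dim d hd m hm] at h1
  have h2 : Module.finrank ℂ (LinearMap.range (condMat 2 d p m).mulVecLin) =
      Module.finrank ℂ (Cond 2 m → ℂ) := by
    rw [Module.finrank_fintype_fun_eq_card, card_cond (by norm_num)]
    omega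
  have h3 := Submodule.eq_top_of_finrank_eq h2
  exact LinearMap.range_eq_top.1 h3

/-- Nef classes in the plane give independent conditions in all dimensions. -/
theorem srj_of_nef (r : ℕ) (hr : 2 ≤ r) (ε : ℝ) (hε : 0 < ε) : ∃ d₀ : ℕ,
    ∀ (k d a : ℕ) (m : Fin k → ℕ) (J : Finset (Fin k)), d₀ ≤ d → (∀ i ∈ J, ε * d ≤ m i) →
    (NefC a fun i => if i ∈ J then m i else 0) → (a : ℝ) ≤ (1 - ε) * d →
    ∃ x : Fin k → Fin r → ℂ, Srj r d J x m := by
  classical
  obtain ⟨d₀, hd₀⟩ := nef_exact_on ⌈1 / ε ^ 2⌉₊ (ε / 2) (by positivity)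
  obtain ⟨d₁, hd₁⟩ := exists_nat_ge (d₀ / ε + 2 / ε ^ 2)
  obtain ⟨s, rfl⟩ : ∃ s, r = 2 + s := ⟨r - 2, by omega⟩
  refine ⟨d₁ + 1, fun k d a m J hd hJ hnef ha => ?_⟩
  have hd0 : (0 : ℝ) < d := by exact_mod_cast (by omega : 0 < d)
  have ha0 : (0 : ℝ) ≤ a := Nat.cast_nonneg a
  have hε1 : ε ≤ 1 := by
    by_contra hcon
    push Not at hcon
    nlinarith
  have had : a ≤ d := by
    have : (a : ℝ) ≤ d := by nlinarith
    exact_mod_cast this
  have hcard := card_le_of_nef hε (by omega) hJ hnef had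
  have hdd : (d₀ / ε + 2 / ε ^ 2 : ℝ) ≤ d := hd₁.trans (by exact_mod_cast (by omega : d₁ ≤ d))
  have hmul : (d₀ : ℝ) + 2 / ε ≤ ε * d := by
    have h1 : (d₀ / ε + 2 / ε ^ 2 : ℝ) * ε ≤ d * ε := mul_le_mul_of_nonneg_right hdd hε.le
    have h2 : (d₀ / ε + 2 / ε ^ 2 : ℝ) * ε = d₀ + 2 / ε := by
      field_simp
    linarith
  set m' : Fin k → ℕ := fun i => if i ∈ J then m i else 0 with hm'
  have hm'a : ∀ i, m' i ≤ a := fun i => hnef.one i
  have hma : ∀ i ∈ J, m i ≤ a := by
    intro i hi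
    have h1 := hm'a i
    rw [hm'] at h1
    dsimp only at h1
    rw [if_pos hi] at h1
    exact h1
  obtain ⟨p, hp⟩ := exists_good k (d + 1)
  have hplane : ∀ b ≤ d, Srj 2 (d - b) J (fun i j => p i j.succ) fun i => m i - b := by
    intro b hb
    by_cases hall : ∀ i ∈ J, m i ≤ b
    · intro u
      refine ⟨0, by simp, fun i hi γ hγ => ?_⟩
      have := hall i hi
      have h5 : γ.degree < m i - b := hγ
      omega
    · push Not at hall
      obtain ⟨i₀, hi₀, hbi⟩ := hall
      have hba : b ≤ a := by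
        have := hma i₀ hi₀
        omega
      have hbar : (b : ℝ) ≤ a := by exact_mod_cast hba
      have hdb : ((d - b : ℕ) : ℝ) = (d : ℝ) - b := Nat.cast_sub hb
      have hdb1 : ε * d ≤ ((d - b : ℕ) : ℝ) := by
        rw [hdb]
        linarith
      set a' := ⌈(1 - ε) * ((d - b : ℕ) : ℝ)⌉₊ with ha'
      have ha'1 : (1 - ε) * ((d - b : ℕ) : ℝ) ≤ a' := Nat.le_ceil _
      have ha'2 : (a' : ℝ) < (1 - ε) * ((d - b : ℕ) : ℝ) + 1 := Nat.ceil_lt_add_one (by
        have : 0 ≤ 1 - ε := by linarith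
        positivity)
      have hnef' : NefC a' fun i => m' i - b := by
        intro e κ hκ
        have h1 := hnef e κ hκ
        have h2 : (∑ i, (((m' i - b : ℕ) : ℝ)) * (κ i : ℝ)) * d ≤
            ((d - b : ℕ) : ℝ) * (∑ i, (m' i : ℝ) * (κ i : ℝ)) := by
          rw [sum_mul, mul_sum]
          refine sum_le_sum fun i _ => ?_
          have h3 : ((m' i - b : ℕ) : ℝ) * d ≤ ((d - b : ℕ) : ℝ) * m' i := by
            rcases Nat.le_total (m' i) b with h4 | h4
            · rw [Nat.sub_eq_zero_of_le h4]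
              simp only [Nat.cast_zero, zero_mul]
              positivity
            · rw [Nat.cast_sub h4, hdb]
              have h5 : (m' i : ℝ) ≤ d := by exact_mod_cast (hm'a i).trans had
              have h6 : (0 : ℝ) ≤ b := Nat.cast_nonneg b
              nlinarith
          have h4 : (0 : ℝ) ≤ κ i := Nat.cast_nonneg _
          nlinarith [mul_le_mul_of_nonneg_right h3 h4]
        have h3 : (∑ i, (m' i : ℝ) * (κ i : ℝ)) ≤ (a : ℝ) * e := by exact_mod_cast h1
        have h4 : (0 : ℝ) ≤ e := Nat.cast_nonneg e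
        have h5 : (0 : ℝ) ≤ ((d - b : ℕ) : ℝ) := Nat.cast_nonneg _
        have h6 : ((d - b : ℕ) : ℝ) * ((a : ℝ) * e) ≤ ((a' : ℝ) * e) * d := by
          have h7 : ((d - b : ℕ) : ℝ) * ((a : ℝ) * e) ≤
              ((d - b : ℕ) : ℝ) * (((1 - ε) * d) * e) :=
            mul_le_mul_of_nonneg_left (mul_le_mul_of_nonneg_right ha h4) h5
          have h8 : ((d - b : ℕ) : ℝ) * (((1 - ε) * d) * e) =
              ((1 - ε) * ((d - b : ℕ) : ℝ)) * (e * d) := by ring
          have h9 : ((1 - ε) * ((d - b : ℕ) : ℝ)) * (e * d) ≤ (a' : ℝ) * (e * d) :=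
            mul_le_mul_of_nonneg_right ha'1 (by positivity)
          have h10 : (a' : ℝ) * (e * d) = ((a' : ℝ) * e) * d := by ring
          linarith
        have h7 : (∑ i, (((m' i - b : ℕ) : ℝ)) * (κ i : ℝ)) * d ≤ ((a' : ℝ) * e) * d :=
          h2.trans ((mul_le_mul_of_nonneg_left h3 h5).trans h6)
        have h8 := le_of_mul_le_mul_right h7 hd0
        exact_mod_cast h8
      have hεinv : (2 : ℝ) / ε ≤ ε * d := by
        have : (0 : ℝ) ≤ d₀ := Nat.cast_nonneg d₀
        linarith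
      have h1 := hd₀ k (d - b) a' (fun i => m' i - b) J hcard (fun i hi => by
          rw [hm']
          dsimp only
          rw [if_neg hi, Nat.zero_sub]) (by
          have h2 : (d₀ : ℝ) ≤ ((d - b : ℕ) : ℝ) := by
            have : (0 : ℝ) ≤ 2 / ε := by positivity
            linarith
          exact_mod_cast h2) hnef' (by
          have h2 : (1 : ℝ) ≤ ε / 2 * ((d - b : ℕ) : ℝ) := by
            have h3 : (2 : ℝ) / ε ≤ ((d - b : ℕ) : ℝ) := hεinv.trans hdb1
            rw [div_le_iff₀ hε] at h3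
            linarith
          linarith)
      have h2 := srj_of_exact hp (by omega) (fun i => by
        have := hm'a i
        omega) h1
      intro u
      obtain ⟨f, hf, h3⟩ := h2 u
      refine ⟨f, hf, fun i hi γ hγ => h3 i (mem_univ i) γ ?_⟩
      rw [hm']
      dsimp only
      rw [if_pos hi]
      exact hγ
  obtain ⟨x, hx⟩ := cones (fun i hi => by
    have := hma i hi
    omega) s ⟨_, hplane⟩
  exact ⟨x, hx 0 (Nat.zero_le d)⟩

end Pool.Agent.H74.KV
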