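import Pool.Agent.H74.KV.Col
import Pool.Agent.H74.KV.Pos

/-!
# Deforming a point: a multiplicity can be lowered
-/

namespace Pool.Agent.H74.KV

open Finset MvPolynomial Pool.Agent.H18.Fat Pool.Agent.H18.Ub Pool.Agent.H22.LU
  Pool.Agent.H74.CT Pool.Agent.H74.BP

/-- A first-order statement on matrices of locally constant rank. -/
theorem la {R K : Type*} [Fintype R] [Fintype K] (N : Matrix R K (MvPolynomial Unit ℂ))
    (f : K → ℂ) (w : R → MvPolynomial Unit ℂ)
    (hw : ∀ τ : Unit → ℂ, (N.map (eval τ)).mulVec f = fun r => τ () * eval τ (w r))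
    (hrank : ∀ τ : Unit → ℂ, Module.finrank ℂ (LinearMap.range (N.map (eval τ)).mulVecLin) ≤
      Module.finrank ℂ (LinearMap.range (N.map (eval fun _ => (0 : ℂ))).mulVecLin)) :
    ∃ g : K → ℂ, (N.map (eval fun _ => (0 : ℂ))).mulVec g = fun r => eval (fun _ => 0) (w r) := by
  classical
  by_contra hcon
  set V := LinearMap.range (N.map (eval fun _ => (0 : ℂ))).mulVecLin with hV
  have hw0 : (fun r => eval (fun _ => (0 : ℂ)) (w r)) ∉ V := by
    rintro ⟨g, hg⟩
    exact hcon ⟨g, hg⟩
  set ρ := Module.finrank ℂ V with hρ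
  let b : Module.Basis (Fin ρ) ℂ V := Module.finBasis ℂ V
  have hb : ∀ j, ∃ v : K → ℂ, (N.map (eval fun _ => (0 : ℂ))).mulVec v = (b j : R → ℂ) :=
    fun j => (b j).2
  choose v hv using hb
  let P : Matrix R (Fin (ρ + 1)) (MvPolynomial Unit ℂ) := fun r =>
    Fin.cons (w r) fun j => ∑ k, N r k * C (v j k)
  have hP0 : ∀ (τ : Unit → ℂ) r, (P.map (eval τ)) r 0 = eval τ (w r) := fun τ r => rfl
  have hPs : ∀ (τ : Unit → ℂ) r (j : Fin ρ), (P.map (eval τ)) r j.succ =
      (N.map (eval τ)).mulVec (v j) r := by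
    intro τ r j
    have h1 : (P.map (eval τ)) r j.succ = eval τ (∑ k, N r k * C (v j k)) := rfl
    rw [h1, map_sum]
    unfold Matrix.mulVec dotProduct
    exact sum_congr rfl fun k _ => by rw [map_mul, eval_C]; rfl
  have hmul : ∀ (τ : Unit → ℂ) (c : Fin (ρ + 1) → ℂ) r, (P.map (eval τ)).mulVec c r =
      eval τ (w r) * c 0 + ∑ j : Fin ρ, (N.map (eval τ)).mulVec (v j) r * c j.succ := by
    intro τ c r
    unfold Matrix.mulVec dotProduct
    rw [Fin.sum_univ_succ]
    congr 1
    exact sum_congr rfl fun j _ => by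
      change (P.map (eval τ)) r j.succ * c j.succ = _
      rw [hPs]
      rfl
  have hker : LinearMap.ker (P.map (eval fun _ => (0 : ℂ))).mulVecLin = ⊥ := by
    rw [LinearMap.ker_eq_bot']
    intro c hc
    rw [Matrix.mulVecLin_apply] at hc
    have h1 : (c 0) • (fun r => eval (fun _ => (0 : ℂ)) (w r)) +
        ∑ j : Fin ρ, (c j.succ) • (b j : R → ℂ) = 0 := by
      funext r
      have h2 := congrFun hc r
      rw [hmul] at h2
      rw [Pi.add_apply, Pi.smul_apply, Finset.sum_apply, smul_eq_mul, Pi.zero_apply]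
      rw [Pi.zero_apply] at h2
      refine Eq.trans ?_ h2
      rw [mul_comm]
      congr 1
      exact sum_congr rfl fun j _ => by
        rw [Pi.smul_apply, smul_eq_mul, hv, mul_comm]
    have h2 : c 0 = 0 := by
      by_contra hne
      apply hw0
      have h3 : (fun r => eval (fun _ => (0 : ℂ)) (w r)) =
          -((c 0)⁻¹ • ∑ j : Fin ρ, (c j.succ) • (b j : R → ℂ)) := by
        have h4 : (c 0)⁻¹ • ((c 0) • (fun r => eval (fun _ => (0 : ℂ)) (w r)) +
            ∑ j : Fin ρ, (c j.succ) • (b j : R → ℂ)) = (c 0)⁻¹ • (0 : R → ℂ) := by rw [h1]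
        rw [smul_add, smul_smul, inv_mul_cancel₀ hne, one_smul, smul_zero] at h4
        exact eq_neg_of_add_eq_zero_left h4
      rw [h3]
      exact V.neg_mem (V.smul_mem _ (V.sum_mem fun j _ => V.smul_mem _ (b j).2))
    rw [h2, zero_smul, zero_add] at h1
    have h3 : ∑ j : Fin ρ, (c j.succ) • b j = 0 := by
      apply Subtype.ext
      rw [V.coe_sum, V.coe_zero]
      exact h1
    have h4 := Fintype.linearIndependent_iff.1 b.linearIndependent (fun j => c j.succ) h3
    funext j
    refine Fin.cases ?_ (fun j => ?_) j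
    · exact h2
    · exact h4 j
  obtain ⟨G, hG, hG'⟩ := exists_poly_injective P (fun _ => 0) hker
  obtain ⟨τ, hτ, hGτ⟩ := exists_ne_zero_eval hG
  have hinj := hG' τ hGτ
  have h1 : LinearMap.range (P.map (eval τ)).mulVecLin ≤
      LinearMap.range (N.map (eval τ)).mulVecLin := by
    rintro _ ⟨c, rfl⟩
    refine ⟨(c 0 * (τ ())⁻¹) • f + ∑ j : Fin ρ, c j.succ • v j, ?_⟩
    rw [map_add, map_smul, map_sum]
    funext r
    rw [Matrix.mulVecLin_apply, Matrix.mulVecLin_apply, hmul, Pi.add_apply, Pi.smul_apply, hw,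
      Finset.sum_apply, smul_eq_mul]
    congr 1
    · field_simp
    · exact sum_congr rfl fun j _ => by
        rw [map_smul, Matrix.mulVecLin_apply, Pi.smul_apply, smul_eq_mul, mul_comm]
  have h2 := Submodule.finrank_mono h1
  rw [LinearMap.finrank_range_of_inj (LinearMap.ker_eq_bot.1 hinj),
    Module.finrank_fintype_fun_eq_card, Fintype.card_fin] at h2
  have h3 := hrank τ
  omega

theorem tc_single {n : ℕ} (l : Fin n) (τ : ℂ) (δ β : Fin n →₀ ℕ) :
    tc (Pi.single l τ) δ β = if ∀ j, j ≠ l → δ j = β j then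
      ((δ l).choose (β l) : ℂ) * τ ^ (δ l - β l) else 0 := by
  classical
  unfold tc
  rw [← mul_prod_erase univ _ (mem_univ l), Pi.single_eq_same]
  split_ifs with h
  · rw [prod_eq_one, mul_one]
    intro j hj
    rw [h j (ne_of_mem_erase hj), Nat.choose_self, Nat.sub_self, pow_zero]
    simp
  · push Not at h
    obtain ⟨j, hj, hne⟩ := h
    rw [prod_eq_zero (mem_erase.2 ⟨hj, mem_univ j⟩), mul_zero]
    rw [Pi.single_eq_of_ne hj]
    rcases Nat.lt_or_gt_of_ne hne with h1 | h1
    · rw [Nat.choose_eq_zero_of_lt h1]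
      simp
    · rw [zero_pow (by omega)]
      simp

/-- At general points some form has a smaller multiplicity at one of the points. -/
theorem exists_drop {r e k : ℕ} {p : Fin k → Fin (r + 1) → ℂ} (hp : ∀ i, p i 0 = 1)
    (κ : Fin k → ℕ) (hdim : Module.finrank ℂ (fatForms r e p κ) = generalDim r e κ)
    {F : MvPolynomial (Fin (r + 1)) ℂ} (hF : F ∈ fatForms r e p κ) {i : Fin k} (hi : 1 ≤ κ i)
    (hmult : ¬ VanishesToOrder F (p i) (κ i + 1)) :
    ∃ G : MvPolynomial (Fin (r + 1)) ℂ, G.IsHomogeneous e ∧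
      (∀ j, j ≠ i → VanishesToOrder G (p j) (κ j)) ∧ VanishesToOrder G (p i) (κ i - 1) ∧
      ¬ VanishesToOrder G (p i) (κ i) := by
  classical
  have hp0 : ∀ i, p i 0 ≠ 0 := fun i => by
    rw [hp]
    exact one_ne_zero
  set f : mons (r + 1) e → ℂ := fun α => coeff α.1 F with hf
  have hfF : toPoly (r + 1) e f = F := exists_toPoly hF.1
  -- a direction
  obtain ⟨β₀, l, hl0, hβ₀, hβ₀d, hcoef⟩ : ∃ (β₀ : Fin (r + 1) →₀ ℕ) (l : Fin (r + 1)), l ≠ 0 ∧
      β₀ 0 = 0 ∧ β₀.degree + 1 = κ i ∧ coeff (β₀ + Finsupp.single l 1) (shift (p i) F) ≠ 0 := by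
    have h1 : ∃ β : Fin (r + 1) →₀ ℕ, β 0 = 0 ∧ β.degree < κ i + 1 ∧
        coeff β (shift (p i) F) ≠ 0 := by
      by_contra hcon
      push Not at hcon
      apply hmult
      rw [← hfF]
      refine vanishes_of_affine (hp0 i) f fun β hβ0 hβ => ?_
      rw [hfF]
      exact hcon β hβ0 hβ
    obtain ⟨β, hβ0, hβ, hc⟩ := h1
    have h2 : β.degree = κ i := by
      by_contra hne
      exact hc (hF.2 i β (by omega))
    obtain ⟨l, hl⟩ : ∃ l, β l ≠ 0 := by
      by_contra hcon
      push Not at hcon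
      have h3 : β = 0 := by
        ext j
        exact hcon j
      rw [h3] at h2
      simp at h2
      omega
    have hl0 : l ≠ 0 := by
      rintro rfl
      exact hl hβ0
    have h3 : β - Finsupp.single l 1 + Finsupp.single l 1 = β := by
      ext j
      simp only [Finsupp.add_apply, Finsupp.tsub_apply]
      by_cases hj : j = l
      · subst hj
        simp
        omega
      · simp [Finsupp.single_eq_of_ne hj]
    refine ⟨β - Finsupp.single l 1, l, hl0, ?_, ?_, ?_⟩
    · rw [Finsupp.tsub_apply, hβ0, Nat.zero_sub]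
    · have h4 := congrArg Finsupp.degree h3
      rw [map_add, Finsupp.degree_single, h2] at h4
      exact h4
    · rw [h3]
      exact hc
  -- the deformed matrix
  let g : Fin k × Fin (r + 1) → MvPolynomial Unit ℂ := fun x =>
    C (p x.1 x.2) + C (if x.1 = i ∧ x.2 = l then 1 else 0) * X ()
  let N : Matrix (Cond r κ) (mons (r + 1) e) (MvPolynomial Unit ℂ) :=
    (genMat r e κ).map (aeval g)
  let pt : ℂ → Fin k → Fin (r + 1) → ℂ := fun τ j => p j + if j = i then Pi.single l τ else 0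
  have hN : ∀ τ : Unit → ℂ, N.map (eval τ) = condMat r e (pt (τ ())) κ := by
    intro τ
    have key : ∀ Q : MvPolynomial (Fin k × Fin (r + 1)) ℂ,
        eval τ (aeval g Q) = eval (fun x => pt (τ ()) x.1 x.2) Q := by
      intro Q
      induction Q using MvPolynomial.induction_on with
      | C c => rw [aeval_C, algebraMap_eq, eval_C, eval_C]
      | add a b ha hb => rw [map_add, map_add, map_add, ha, hb]
      | mul_X a y ha =>
        rw [map_mul, map_mul, map_mul, ha, aeval_X, eval_X]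
        congr 1
        have h0 : pt (τ ()) y.1 y.2 = p y.1 y.2 +
            (if y.1 = i then Pi.single l (τ ()) else 0 : Fin (r + 1) → ℂ) y.2 := rfl
        have h00 : g y = C (p y.1 y.2) + C (if y.1 = i ∧ y.2 = l then 1 else 0) * X () := rfl
        rw [h0, h00, map_add, map_mul, eval_C, eval_C, eval_X]
        congr 1
        by_cases h1 : y.1 = i
        · rw [if_pos h1]
          by_cases h2 : y.2 = l
          · rw [if_pos ⟨h1, h2⟩, h2, Pi.single_eq_same, one_mul]
          · rw [if_neg (fun h => h2 h.2), Pi.single_eq_of_ne h2, zero_mul]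
        · rw [if_neg (fun h => h1 h.1), if_neg h1, zero_mul, Pi.zero_apply]
    rw [← genMat_map]
    ext x α
    rw [Matrix.map_apply, Matrix.map_apply]
    exact key (genMat r e κ x α)
  have hpt0 : ∀ τ j, pt τ j 0 ≠ 0 := by
    intro τ j
    change (p j + if j = i then Pi.single l τ else 0 : Fin (r + 1) → ℂ) 0 ≠ 0
    rw [Pi.add_apply, hp]
    split_ifs
    · rw [Pi.single_eq_of_ne hl0.symm, add_zero]
      exact one_ne_zero
    · rw [Pi.zero_apply, add_zero]
      exact one_ne_zero
  have hpt : pt 0 = p := by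
    funext j
    change (p j + if j = i then Pi.single l 0 else 0) = p j
    split_ifs
    · rw [Pi.single_zero, add_zero]
    · rw [add_zero]
  -- the coefficients at the deformed point
  set S := (shift (p i) F).support with hS
  let w : Cond r κ → MvPolynomial Unit ℂ := fun x =>
    if x.1 = i then
      ∑ δ ∈ S, if (∀ j, j ≠ l → δ j = (x.2.1 : Fin (r + 1) →₀ ℕ) j) ∧
          (x.2.1 : Fin (r + 1) →₀ ℕ) l < δ l then
        C (coeff δ (shift (p i) F) * ((δ l).choose ((x.2.1 : Fin (r + 1) →₀ ℕ) l) : ℂ)) *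
          X () ^ (δ l - (x.2.1 : Fin (r + 1) →₀ ℕ) l - 1) else 0
    else 0
  have hrow : ∀ (τ : ℂ) (x : Cond r κ), (condMat r e (pt τ) κ).mulVec f x =
      coeff x.2.1 (shift (pt τ x.1) F) := by
    intro τ x
    rw [← hfF, coeff_shift_toPoly]
    unfold Matrix.mulVec dotProduct condMat
    exact sum_congr rfl fun α _ => mul_comm _ _
  obtain ⟨γ, hγ⟩ := la N f w (fun τ => by
    funext x
    rw [hN, hrow]
    by_cases hx : x.1 = i
    · have h1 : pt (τ ()) x.1 = p i + Pi.single l (τ ()) := by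
        change (p x.1 + if x.1 = i then Pi.single l (τ ()) else 0) = _
        rw [if_pos hx, hx]
      have h2 : w x = ∑ δ ∈ S, if (∀ j, j ≠ l → δ j = (x.2.1 : Fin (r + 1) →₀ ℕ) j) ∧
          (x.2.1 : Fin (r + 1) →₀ ℕ) l < δ l then
        C (coeff δ (shift (p i) F) * ((δ l).choose ((x.2.1 : Fin (r + 1) →₀ ℕ) l) : ℂ)) *
          X () ^ (δ l - (x.2.1 : Fin (r + 1) →₀ ℕ) l - 1) else 0 := if_pos hx
      rw [h1, shift_shift', coeff_shift, h2, map_sum, mul_sum]
      refine sum_congr rfl fun δ hδ => ?_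
      rw [tc_single]
      by_cases h3 : ∀ j, j ≠ l → δ j = (x.2.1 : Fin (r + 1) →₀ ℕ) j
      · rw [if_pos h3]
        rcases Nat.lt_trichotomy ((x.2.1 : Fin (r + 1) →₀ ℕ) l) (δ l) with h4 | h4 | h4
        · rw [if_pos ⟨h3, h4⟩, map_mul, eval_C, map_pow, eval_X]
          obtain ⟨c, hc⟩ : ∃ c, δ l - (x.2.1 : Fin (r + 1) →₀ ℕ) l = c + 1 :=
            ⟨δ l - (x.2.1 : Fin (r + 1) →₀ ℕ) l - 1, by omega⟩
          rw [hc, Nat.add_sub_cancel, pow_succ]
          ring
        · -- the coefficient vanishes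
          exfalso
          have h5 : δ = x.2.1 := by
            ext j
            by_cases hj : j = l
            · rw [hj, h4]
            · exact h3 j hj
          rw [hS, mem_support_iff, h5] at hδ
          apply hδ
          have h6 := (mem_aff.1 x.2.2).2
          have h7 : κ x.1 = κ i := by rw [hx]
          exact hF.2 i _ (by omega)
        · rw [if_neg (fun h => by omega), map_zero, Nat.choose_eq_zero_of_lt h4]
          simp
      · rw [if_neg h3, if_neg (fun h => h3 h.1), map_zero, mul_zero, mul_zero]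
    · have h1 : pt (τ ()) x.1 = p x.1 := by
        change (p x.1 + if x.1 = i then Pi.single l (τ ()) else 0) = _
        rw [if_neg hx, add_zero]
      have h2 : w x = 0 := if_neg hx
      rw [h1, h2, map_zero, mul_zero]
      exact hF.2 x.1 _ (mem_aff.1 x.2.2).2) (fun τ => by
    rw [hN, hN, hpt]
    have h1 := rank_add_finrank (d := e) (hpt0 (τ ())) κ
    have h2 := rank_add_finrank (d := e) hp0 κ
    have h3 : generalDim r e κ ≤ Module.finrank ℂ (fatForms r e (pt (τ ())) κ) :=
      Nat.sInf_le ⟨_, rfl⟩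
    rw [hdim] at h2
    omega)
  rw [hN, hpt] at hγ
  have hG : ∀ x : Cond r κ, coeff x.2.1 (shift (p x.1) (toPoly (r + 1) e γ)) =
      eval (fun _ => 0) (w x) := by
    intro x
    rw [← congrFun hγ x, coeff_shift_toPoly]
    unfold Matrix.mulVec dotProduct condMat
    exact sum_congr rfl fun α _ => mul_comm _ _
  -- the value of `w` at zero
  have hw0 : ∀ x : Cond r κ, x.1 = i → eval (fun _ => (0 : ℂ)) (w x) =
      coeff ((x.2.1 : Fin (r + 1) →₀ ℕ) + Finsupp.single l 1) (shift (p i) F) *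
        ((x.2.1 : Fin (r + 1) →₀ ℕ) l + 1) := by
    intro x hx
    have h2 : w x = ∑ δ ∈ S, if (∀ j, j ≠ l → δ j = (x.2.1 : Fin (r + 1) →₀ ℕ) j) ∧
        (x.2.1 : Fin (r + 1) →₀ ℕ) l < δ l then
      C (coeff δ (shift (p i) F) * ((δ l).choose ((x.2.1 : Fin (r + 1) →₀ ℕ) l) : ℂ)) *
        X () ^ (δ l - (x.2.1 : Fin (r + 1) →₀ ℕ) l - 1) else 0 := if_pos hx
    rw [h2, map_sum, sum_eq_single ((x.2.1 : Fin (r + 1) →₀ ℕ) + Finsupp.single l 1)]
    · rw [if_pos, map_mul, eval_C, map_pow, eval_X]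
      · have h3 : ((x.2.1 : Fin (r + 1) →₀ ℕ) + Finsupp.single l 1 : Fin (r + 1) →₀ ℕ) l =
            (x.2.1 : Fin (r + 1) →₀ ℕ) l + 1 := by
          rw [Finsupp.add_apply, Finsupp.single_eq_same]
        rw [h3, Nat.choose_succ_self_right]
        have h4 : (x.2.1 : Fin (r + 1) →₀ ℕ) l + 1 - (x.2.1 : Fin (r + 1) →₀ ℕ) l - 1 = 0 := by
          omega
        rw [h4, pow_zero]
        push_cast
        ring
      · constructor
        · intro j hj
          rw [Finsupp.add_apply, Finsupp.single_eq_of_ne hj, add_zero]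
        · rw [Finsupp.add_apply, Finsupp.single_eq_same]
          omega
    · intro δ _ hne
      split_ifs with h3
      · rw [map_mul, map_pow, eval_X, zero_pow, mul_zero]
        intro h4
        apply hne
        ext j
        by_cases hj : j = l
        · rw [hj, Finsupp.add_apply, Finsupp.single_eq_same]
          have := h3.2
          omega
        · rw [Finsupp.add_apply, Finsupp.single_eq_of_ne hj, add_zero]
          exact h3.1 j hj
      · exact map_zero _
    · intro h3
      rw [hS, notMem_support_iff] at h3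
      split_ifs
      · rw [h3, zero_mul, C_0, zero_mul, map_zero]
      · exact map_zero _
  refine ⟨toPoly (r + 1) e γ, toPoly_isHomogeneous γ, fun j hj => ?_, ?_, fun hcon => ?_⟩
  · refine vanishes_of_affine (hp0 j) γ fun β hβ0 hβ => ?_
    have h1 := hG ⟨j, ⟨β, mem_aff.2 ⟨hβ0, hβ⟩⟩⟩
    have h2 : w ⟨j, ⟨β, mem_aff.2 ⟨hβ0, hβ⟩⟩⟩ = 0 := if_neg hj
    have h3 : eval (fun _ => (0 : ℂ)) (w ⟨j, ⟨β, mem_aff.2 ⟨hβ0, hβ⟩⟩⟩) = 0 := by
      rw [h2]
      exact map_zero _
    exact h1.trans h3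
  · refine vanishes_of_affine (hp0 i) γ fun β hβ0 hβ => ?_
    have hβ' : β.degree < κ i := by omega
    have h1 := hG ⟨i, ⟨β, mem_aff.2 ⟨hβ0, hβ'⟩⟩⟩
    rw [hw0 _ rfl] at h1
    dsimp only at h1
    rw [h1, hF.2 i (β + Finsupp.single l 1) (by
      rw [map_add, Finsupp.degree_single]
      omega), zero_mul]
  · have hmem : β₀ ∈ aff r (κ i) := mem_aff.2 ⟨hβ₀, by omega⟩
    have h1 := hG ⟨i, ⟨β₀, hmem⟩⟩
    rw [hw0 _ rfl] at h1
    dsimp only at h1
    rw [hcon β₀ (by omega)] at h1
    have h2 : ((β₀ l : ℂ) + 1) ≠ 0 := Nat.cast_add_one_ne_zero (β₀ l)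
    exact mul_ne_zero hcoef h2 h1.symm

end Pool.Agent.H74.KV
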