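import Pool.Agent.H74.KV.Col
import Pool.Agent.H74.KV.Gen

/-!
# Dyadic packings
-/

namespace Pool.Agent.H74.KV

open Finset MvPolynomial Pool.Agent.H18.Fat

variable {r : ℕ}

theorem degree_tail (α : Fin (r + 1) →₀ ℕ) : α.degree = α 0 + (Finsupp.tail α).degree := by
  rw [Finsupp.degree_eq_sum, Finsupp.degree_eq_sum, Fin.sum_univ_succ]
  rfl

theorem degree_cons' (a : ℕ) (γ : Fin r →₀ ℕ) : (Finsupp.cons a γ).degree = a + γ.degree := by
  rw [degree_tail, Finsupp.cons_zero, Finsupp.tail_cons]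

theorem tc_tail {q : Fin (r + 1) → ℂ} (hq : q 0 = 1) (α β : Fin (r + 1) →₀ ℕ) (hβ : β 0 = 0) :
    tc q α β = tc (fun j => q j.succ) (Finsupp.tail α) (Finsupp.tail β) := by
  unfold tc
  rw [Fin.prod_univ_succ, hq, hβ, Nat.choose_zero_right, one_pow, Nat.cast_one, one_mul, one_mul]
  rfl

/-- From the condition matrix to polynomials of bounded degree. -/
theorem srj_of_condMat {d : ℕ} {ι : Type*} [Fintype ι] {p : ι → Fin (r + 1) → ℂ}
    (hp : ∀ i, p i 0 = 1) {m : ι → ℕ} (h : Function.Surjective (condMat r d p m).mulVec) :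
    Srj r d univ (fun i j => p i j.succ) m := by
  classical
  intro u
  obtain ⟨F, hF⟩ := h fun x => u x.1 (Finsupp.tail x.2.1)
  refine ⟨∑ α : mons (r + 1) d, monomial (Finsupp.tail α.1) (F α), ?_, ?_⟩
  · refine totalDegree_finsetSum_le fun α _ => ?_
    refine (totalDegree_monomial_le _ _).trans ?_
    have h3 : ((Finsupp.tail α.1).sum fun _ => id) = (Finsupp.tail α.1).degree := rfl
    rw [h3]
    have h4 := degree_tail α.1
    have h5 := mem_mons.1 α.2
    omega
  · intro i _ γ hγ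
    have hmem : Finsupp.cons 0 γ ∈ aff r (m i) := mem_aff.2 ⟨Finsupp.cons_zero _ _, by
      rw [degree_cons', zero_add]
      exact hγ⟩
    have h1 := congrFun hF ⟨i, ⟨Finsupp.cons 0 γ, hmem⟩⟩
    dsimp only at h1
    rw [Finsupp.tail_cons] at h1
    rw [← h1]
    unfold shift
    rw [map_sum, coeff_sum]
    unfold Matrix.mulVec dotProduct condMat
    refine sum_congr rfl fun α _ => ?_
    have h2 := coeff_shift_monomial (fun j => p i j.succ) (Finsupp.tail α.1) γ (F α)
    unfold shift at h2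
    rw [h2]
    dsimp only
    rw [tc_tail (hp i) α.1 _ (Finsupp.cons_zero _ _), Finsupp.tail_cons]
    ring

/-- From polynomials of bounded degree to the condition matrix. -/
theorem condMat_of_srj {d : ℕ} {ι : Type*} [Fintype ι] {x : ι → Fin r → ℂ} {m : ι → ℕ}
    (h : Srj r d univ x m) :
    Function.Surjective (condMat r d (fun i => Fin.cons 1 (x i)) m).mulVec := by
  classical
  intro v
  obtain ⟨f, hf, h1⟩ := h fun i γ =>
    if h : Finsupp.cons 0 γ ∈ aff r (m i) then v ⟨i, ⟨Finsupp.cons 0 γ, h⟩⟩ else 0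
  refine ⟨fun α => coeff (Finsupp.tail α.1) f, ?_⟩
  funext z
  obtain ⟨i, β, hβ⟩ := z
  obtain ⟨hβ0, hβm⟩ := mem_aff.1 hβ
  have hcons : Finsupp.cons 0 (Finsupp.tail β) = β := by
    rw [← hβ0]
    exact Finsupp.cons_tail β
  have hdeg : (Finsupp.tail β).degree < m i := by
    have := degree_tail β
    omega
  have h2 := h1 i (mem_univ i) (Finsupp.tail β) hdeg
  have hmem : Finsupp.cons 0 (Finsupp.tail β) ∈ aff r (m i) := by
    rw [hcons]
    exact hβ
  rw [dif_pos hmem] at h2
  have h3 : v ⟨i, ⟨Finsupp.cons 0 (Finsupp.tail β), hmem⟩⟩ = v ⟨i, ⟨β, hβ⟩⟩ := by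
    congr 3
  rw [h3] at h2
  rw [← h2, coeff_shift]
  unfold Matrix.mulVec dotProduct condMat
  dsimp only
  have h4 : ∀ α : mons (r + 1) d, tc (Fin.cons 1 (x i)) α.1 β * coeff (Finsupp.tail α.1) f =
      (fun δ => coeff δ f * tc (x i) δ (Finsupp.tail β)) (Finsupp.tail α.1) := by
    intro α
    rw [tc_tail (Fin.cons_zero _ _) α.1 β hβ0, mul_comm]
    rfl
  rw [sum_congr rfl fun α _ => h4 α]
  symm
  have hdf : ∀ δ ∈ f.support, δ.degree ≤ d := by
    intro δ hδ
    have h5 := le_totalDegree hδ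
    have h6 : (δ.sum fun _ e => e) = δ.degree := rfl
    rw [h6] at h5
    omega
  refine sum_bij_ne_zero (fun δ hδ _ => (⟨Finsupp.cons (d - δ.degree) δ, mem_mons.2 (by
      rw [degree_cons']
      have := hdf δ hδ
      omega)⟩ : mons (r + 1) d)) (fun _ _ _ => mem_univ _) ?_ ?_ ?_
  · intro δ hδ _ δ' hδ' _ he
    have h5 := congrArg (fun z : mons (r + 1) d => Finsupp.tail z.1) he
    simpa [Finsupp.tail_cons] using h5
  · intro α _ hα
    have h5 : coeff (Finsupp.tail α.1) f ≠ 0 := fun h => hα (by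
      dsimp only
      rw [h, zero_mul])
    refine ⟨Finsupp.tail α.1, mem_support_iff.2 h5, hα, ?_⟩
    apply Subtype.ext
    dsimp only
    have h6 := degree_tail α.1
    have h7 := mem_mons.1 α.2
    have h8 : d - (Finsupp.tail α.1).degree = α.1 0 := by omega
    rw [h8]
    exact Finsupp.cons_tail α.1
  · intro δ hδ _
    dsimp only
    rw [Finsupp.tail_cons]

/-- The vertices of the cube. -/
theorem srj_grid (hr : 1 ≤ r) (a : ℕ) :
    ∃ X' : (Fin r → Fin 2) → Fin r → ℂ, Srj r (2 * (a - 1) + r) univ X' fun _ => a := by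
  have hζ : IsPrimitiveRoot (-1 : ℂ) 2 := IsPrimitiveRoot.neg_one 0 (by norm_num)
  have h1 := grid_surjective (r := r) (s := 2) (2 * (a - 1) + r) hr (by norm_num) hζ
  refine ⟨_, (srj_of_condMat (fun b => gridPt_zero (-1) b) h1).mono le_rfl fun b _ => ?_⟩
  refine le_perf (by norm_num) b ?_
  have h2 : gsum b ≤ r := by
    unfold gsum
    calc ∑ j, (b j : ℕ) ≤ ∑ _j : Fin r, 1 := sum_le_sum fun j _ => by omega
      _ = r := by simp
  omega

end Pool.Agent.H74.KV
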