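import Pool.Agent.H74.KV.Dya

/-!
# The dyadic criterion for independent conditions
-/

namespace Pool.Agent.H74.KV

open Finset MvPolynomial Pool.Agent.H18.Fat

variable {r : ℕ}

theorem exists_sub {ι : Type*} (b L : ℕ) (hb : 1 ≤ b) (w : ι → ℕ) (I : Finset ι)
    (hw : ∀ i ∈ I, w i ≤ L) (hI : b ^ L ≤ ∑ i ∈ I, b ^ w i) :
    ∃ I' ⊆ I, ∑ i ∈ I', b ^ w i = b ^ L := by
  classical
  have hne : (I.powerset.filter fun A => b ^ L ≤ ∑ i ∈ A, b ^ w i).Nonempty :=
    ⟨I, mem_filter.2 ⟨mem_powerset_self I, hI⟩⟩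
  obtain ⟨A, hA, hmin⟩ := exists_min_image _ Finset.card hne
  obtain ⟨hAI, hAs⟩ := mem_filter.1 hA
  rw [mem_powerset] at hAI
  refine ⟨A, hAI, ?_⟩
  have hbL : 1 ≤ b ^ L := Nat.one_le_pow _ _ hb
  have hAne : A.Nonempty := by
    rw [nonempty_iff_ne_empty]
    rintro rfl
    rw [sum_empty] at hAs
    omega
  obtain ⟨i₀, hi₀, hi₀min⟩ := exists_min_image A w hAne
  have h1 : ∑ i ∈ A.erase i₀, b ^ w i < b ^ L := by
    by_contra hcon
    push Not at hcon
    have h2 := hmin (A.erase i₀) (mem_filter.2 ⟨mem_powerset.2 ((erase_subset _ _).trans hAI), hcon⟩)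
    rw [card_erase_of_mem hi₀] at h2
    have := card_pos.2 hAne
    omega
  have h2 := add_sum_erase A (fun i => b ^ w i) hi₀
  have h3 : b ^ w i₀ ∣ ∑ i ∈ A, b ^ w i := dvd_sum fun i hi => pow_dvd_pow b (hi₀min i hi)
  have h4 : b ^ w i₀ ∣ b ^ L := pow_dvd_pow b (hw i₀ (hAI hi₀))
  obtain ⟨u, hu⟩ := h3
  obtain ⟨v, hv⟩ := h4
  have hq : 1 ≤ b ^ w i₀ := Nat.one_le_pow _ _ hb
  have h5 : u ≤ v := by
    by_contra hcon
    push Not at hcon
    have h6 : b ^ w i₀ * (v + 1) ≤ b ^ w i₀ * u := Nat.mul_le_mul_left _ hcon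
    rw [Nat.mul_add, Nat.mul_one, ← hv, ← hu] at h6
    omega
  have h6 : b ^ w i₀ * u ≤ b ^ w i₀ * v := Nat.mul_le_mul_left _ h5
  rw [← hu, ← hv] at h6
  omega

theorem bins {ι κ : Type*} [DecidableEq κ] (b L : ℕ) (hb : 1 ≤ b) (w : ι → ℕ) :
    ∀ (N : ℕ) (S : Finset κ), S.card = N + 1 → ∀ I : Finset ι, (∀ i ∈ I, w i ≤ L) →
    ∑ i ∈ I, b ^ w i ≤ S.card * b ^ L → ∃ φ : ι → κ, (∀ i ∈ I, φ i ∈ S) ∧
      ∀ c, ∑ i ∈ I.filter (fun i => φ i = c), b ^ w i ≤ b ^ L := by
  classical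
  intro N
  induction N with
  | zero =>
    intro S hS I _ hI
    obtain ⟨c, rfl⟩ := card_eq_one.1 hS
    rw [card_singleton, Nat.one_mul] at hI
    refine ⟨fun _ => c, fun _ _ => mem_singleton_self c, fun c' => ?_⟩
    exact (sum_le_sum_of_subset (filter_subset _ _)).trans hI
  | succ N ih =>
    intro S hS I hw hI
    obtain ⟨c, hc⟩ := card_pos.1 (by omega : 0 < S.card)
    rcases Nat.lt_or_ge (b ^ L) (∑ i ∈ I, b ^ w i) with h | h
    · obtain ⟨A, hAI, hA⟩ := exists_sub b L hb w I hw h.le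
      have h1 : (S.erase c).card = N + 1 := by
        rw [card_erase_of_mem hc]
        omega
      have h2 := sum_sdiff (f := fun i => b ^ w i) hAI
      obtain ⟨φ, hφ1, hφ2⟩ := ih (S.erase c) h1 (I \ A)
        (fun i hi => hw i (mem_sdiff.1 hi).1) (by
          rw [h1]
          rw [hS, Nat.add_mul (N + 1) 1, Nat.one_mul] at hI
          omega)
      refine ⟨fun i => if i ∈ A then c else φ i, fun i hi => ?_, fun c' => ?_⟩
      · dsimp only
        split_ifs with hiA
        · exact hc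
        · exact mem_of_mem_erase (hφ1 i (mem_sdiff.2 ⟨hi, hiA⟩))
      · by_cases hcc : c' = c
        · subst hcc
          have h3 : I.filter (fun i => (if i ∈ A then c' else φ i) = c') ⊆ A := by
            intro i hi
            rw [mem_filter] at hi
            by_contra hiA
            rw [if_neg hiA] at hi
            exact ne_of_mem_erase (hφ1 i (mem_sdiff.2 ⟨hi.1, hiA⟩)) hi.2
          exact (sum_le_sum_of_subset h3).trans hA.le
        · have h3 : I.filter (fun i => (if i ∈ A then c else φ i) = c') ⊆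
              (I \ A).filter fun i => φ i = c' := by
            intro i hi
            rw [mem_filter] at hi
            by_cases hiA : i ∈ A
            · rw [if_pos hiA] at hi
              exact absurd hi.2.symm hcc
            · rw [if_neg hiA] at hi
              exact mem_filter.2 ⟨mem_sdiff.2 ⟨hi.1, hiA⟩, hi.2⟩
          exact (sum_le_sum_of_subset h3).trans (hφ2 c')
    · refine ⟨fun _ => c, fun _ _ => hc, fun c' => ?_⟩
      exact (sum_le_sum_of_subset (filter_subset _ _)).trans h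

/-- The dyadic multiplicities. -/
def AA (r a : ℕ) : ℕ → ℕ
  | 0 => a
  | w + 1 => 2 * AA r a w + (r - 1)

theorem AA_eq (r a w : ℕ) : AA r a w + (r - 1) = 2 ^ w * (a + (r - 1)) := by
  induction w with
  | zero => simp [AA]
  | succ w ih =>
    have h1 : AA r a (w + 1) = 2 * AA r a w + (r - 1) := rfl
    rw [h1, pow_succ, Nat.mul_comm (2 ^ w) 2, Nat.mul_assoc, ← ih]
    ring

theorem AA_pos {r a : ℕ} (ha : 1 ≤ a) (w : ℕ) : 1 ≤ AA r a w := by
  induction w with
  | zero => exact ha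
  | succ w ih =>
    have h1 : AA r a (w + 1) = 2 * AA r a w + (r - 1) := rfl
    omega

theorem dyadic {ι : Type*} (hr : 1 ≤ r) {a : ℕ} (ha : 1 ≤ a) (w : ι → ℕ) : ∀ (K : ℕ)
    (I : Finset ι), ∑ i ∈ I, (2 ^ r) ^ w i ≤ (2 ^ r) ^ K →
    ∃ y : ι → Fin r → ℂ, Srj r (AA r a K - 1) I y fun i => AA r a (w i) := by
  classical
  have hb2 : 2 ≤ 2 ^ r := by
    calc 2 = 2 ^ 1 := rfl
      _ ≤ 2 ^ r := Nat.pow_le_pow_right (by norm_num) hr
  intro K
  induction K with
  | zero =>
    intro I hI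
    rw [pow_zero] at hI
    have hpos : ∀ i ∈ I, 1 ≤ (2 ^ r) ^ w i := fun i _ => Nat.one_le_pow _ _ (by omega)
    have hcard : I.card ≤ 1 := by
      have h1 : ∑ _i ∈ I, 1 ≤ ∑ i ∈ I, (2 ^ r) ^ w i := sum_le_sum hpos
      rw [sum_const, smul_eq_mul, Nat.mul_one] at h1
      omega
    refine ⟨fun _ => 0, srj_single hcard fun i hi => ?_⟩
    have h1 : (2 ^ r) ^ w i ≤ 1 := (single_le_sum (f := fun i => (2 ^ r) ^ w i)
      (fun _ _ => Nat.zero_le _) hi).trans hI
    have h2 : w i = 0 := by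
      by_contra hne
      have h3 : (2 ^ r) ^ 1 ≤ (2 ^ r) ^ w i := Nat.pow_le_pow_right (by omega) (by omega)
      rw [pow_one] at h3
      omega
    rw [h2]
    have := AA_pos (r := r) ha 0
    omega
  | succ K ih =>
    intro I hI
    by_cases hbig : ∃ i ∈ I, K + 1 ≤ w i
    · obtain ⟨i, hi, hiK⟩ := hbig
      have h1 : (2 ^ r) ^ (K + 1) ≤ (2 ^ r) ^ w i := Nat.pow_le_pow_right (by omega) hiK
      have hcard : I.card ≤ 1 := by
        rw [card_le_one]
        intro j hj l hl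
        by_contra hne
        have h2 : ∃ l' ∈ I, l' ≠ i := by
          by_cases hji : j = i
          · exact ⟨l, hl, fun h => hne (hji.trans h.symm)⟩
          · exact ⟨j, hj, hji⟩
        obtain ⟨l', hl', hl'i⟩ := h2
        have h3 : ∑ x ∈ {i, l'}, (2 ^ r) ^ w x ≤ ∑ x ∈ I, (2 ^ r) ^ w x :=
          sum_le_sum_of_subset fun x hx => by
            rcases mem_insert.1 hx with h | h
            · rw [h]
              exact hi
            · rw [mem_singleton.1 h]
              exact hl'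
        rw [sum_pair (Ne.symm hl'i)] at h3
        have h4 : 1 ≤ (2 ^ r) ^ w l' := Nat.one_le_pow _ _ (by omega)
        omega
      refine ⟨fun _ => 0, srj_single hcard fun j hj => ?_⟩
      have h2 : (2 ^ r) ^ w j ≤ (2 ^ r) ^ (K + 1) := (single_le_sum
        (f := fun i => (2 ^ r) ^ w i) (fun _ _ => Nat.zero_le _) hj).trans hI
      have h3 : w j ≤ K + 1 := (Nat.pow_le_pow_iff_right (by omega)).1 h2
      have hmono : Monotone (AA r a) := monotone_nat_of_le_succ fun w => by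
        have h1 : AA r a (w + 1) = 2 * AA r a w + (r - 1) := rfl
        omega
      have h4 := hmono h3
      have := AA_pos (r := r) ha (K + 1)
      omega
    · push Not at hbig
      have hcard : (univ : Finset (Fin r → Fin 2)).card = (2 ^ r - 1) + 1 := by
        rw [card_univ, Fintype.card_fun, Fintype.card_fin, Fintype.card_fin]
        omega
      obtain ⟨φ, _, hφ⟩ := bins (2 ^ r) K (by omega) w (2 ^ r - 1)
        (univ : Finset (Fin r → Fin 2)) hcard I (fun i hi => by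
          have := hbig i hi
          omega) (by
          rw [hcard]
          have h1 : 2 ^ r - 1 + 1 = 2 ^ r := by omega
          rw [h1, ← pow_succ']
          exact hI)
      choose y hy using fun c => ih (I.filter fun i => φ i = c) (hφ c)
      obtain ⟨X', hX'⟩ := srj_grid hr (AA r a K)
      obtain ⟨t, _, ht⟩ := collapse (AA_pos ha K) X' hX' φ I (fun i => y (φ i) i)
        (fun i => AA r a (w i)) fun c => (hy c).congr fun i hi => by
          rw [(mem_filter.1 hi).2]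
      refine ⟨_, ht.mono ?_ fun _ _ => le_rfl⟩
      have h1 : AA r a (K + 1) = 2 * AA r a K + (r - 1) := rfl
      have h2 := AA_pos (r := r) ha K
      omega

/-- Multiplicities of the order of the degree, filling less than the `2 ^ r`-th part of the space. -/
theorem srj_num (hr : 1 ≤ r) (ε : ℝ) (hε : 0 < ε) : ∃ d₀ : ℕ, ∀ (k d : ℕ) (m : Fin k → ℕ)
    (I : Finset (Fin k)), d₀ ≤ d → (∀ i ∈ I, ε * d ≤ m i) →
    2 ^ r * ∑ i ∈ I, (m i : ℝ) ^ r ≤ ((1 - ε) * d) ^ r →
    ε ≤ 1 → ∃ x : Fin k → Fin r → ℂ, Srj r d I x m := by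
  classical
  obtain ⟨K, hK⟩ := exists_nat_ge (2 / ε)
  set ρ : ℕ := r - 1 with hρ
  set η : ℝ := ε / 3 with hη
  have hηpos : 0 < η := by positivity
  obtain ⟨d₁, hd₁⟩ := exists_nat_ge (ρ / (η * ε) + 2 ^ K / η)
  refine ⟨d₁ + 2 ^ K * (ρ + 3) + ρ + 1, fun k d m I hd hI hsum hε1 => ?_⟩
  have hd0 : (0 : ℝ) < d := by exact_mod_cast (by omega : 0 < d)
  have hdd : (ρ / (η * ε) + 2 ^ K / η : ℝ) ≤ d := hd₁.trans (by
    exact_mod_cast (by
      have : 0 ≤ 2 ^ K * (ρ + 3) := Nat.zero_le _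
      omega : d₁ ≤ d))
  have hρd : (ρ : ℝ) ≤ η * (ε * d) := by
    have h1 : (ρ / (η * ε) : ℝ) ≤ d := by
      have : (0 : ℝ) ≤ 2 ^ K / η := by positivity
      linarith
    rw [div_le_iff₀ (by positivity)] at h1
    linarith
  have hKd : (2 : ℝ) ^ K ≤ η * d := by
    have h1 : (2 ^ K / η : ℝ) ≤ d := by
      have : (0 : ℝ) ≤ ρ / (η * ε) := by positivity
      linarith
    rw [div_le_iff₀ hηpos] at h1
    linarith
  have h2K : (2 : ℝ) / ε ≤ 2 ^ K := by
    refine hK.trans ?_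
    exact_mod_cast (Nat.lt_two_pow_self (n := K)).le
  have h2Kpos : 0 < 2 ^ K := by positivity
  set q := (d + 1 + ρ) / 2 ^ K with hq
  have hq1 : 2 ^ K * q ≤ d + 1 + ρ := Nat.mul_div_le _ _
  have hq2 : d + 1 + ρ < 2 ^ K * q + 2 ^ K := Nat.lt_mul_div_succ _ h2Kpos
  have hqρ : ρ + 1 ≤ q := by
    by_contra hcon
    push Not at hcon
    have h1 : 2 ^ K * q ≤ 2 ^ K * ρ := Nat.mul_le_mul_left _ (by omega)
    have h2 : 2 ^ K * (ρ + 3) = 2 ^ K * ρ + 3 * 2 ^ K := by ring
    omega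
  obtain ⟨a, ha⟩ : ∃ a, q = a + ρ := ⟨q - ρ, by omega⟩
  have ha1 : 1 ≤ a := by omega
  have hAK : AA r a K ≤ d + 1 := by
    have h1 := AA_eq r a K
    rw [← hρ, ← ha] at h1
    omega
  -- the levels
  have hex : ∀ i, ∃ w, m i ≤ AA r a w := by
    intro i
    refine ⟨m i, ?_⟩
    have h1 := AA_eq r a (m i)
    have h2 : m i + ρ ≤ 2 ^ m i * (a + ρ) := by
      have h3 : m i + 1 ≤ 2 ^ m i := Nat.lt_two_pow_self
      have h4 : (m i + 1) * (a + ρ) ≤ 2 ^ m i * (a + ρ) := Nat.mul_le_mul_right _ h3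
      have h5 : m i * 1 + 1 * ρ ≤ (m i + 1) * (a + ρ) := by
        have h6 : (m i + 1) * (a + ρ) = m i * (a + ρ) + (a + ρ) := by ring
        have h7 : m i * 1 ≤ m i * (a + ρ) := Nat.mul_le_mul_left _ (by omega)
        omega
      omega
    rw [← hρ] at h1
    omega
  set w : Fin k → ℕ := fun i => Nat.find (hex i) with hw
  have hw1 : ∀ i, m i ≤ AA r a (w i) := fun i => Nat.find_spec (hex i)
  have hw2 : ∀ i ∈ I, 2 ^ w i * q ≤ 2 * (m i + ρ) := by
    intro i hi
    rcases Nat.eq_zero_or_pos (w i) with h0 | h0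
    · rw [h0, pow_zero, Nat.one_mul]
      have h1 : (q : ℝ) * 2 ^ K ≤ d + 1 + ρ := by
        have : ((2 ^ K * q : ℕ) : ℝ) ≤ ((d + 1 + ρ : ℕ) : ℝ) := by exact_mod_cast hq1
        push_cast at this
        linarith
      have h2 : (q : ℝ) * (2 / ε) ≤ d + 1 + ρ :=
        (mul_le_mul_of_nonneg_left h2K (Nat.cast_nonneg q)).trans h1
      have h3 : (q : ℝ) * 2 ≤ ε * (d + 1 + ρ) := by
        have h4 : (q : ℝ) * (2 / ε) = (q * 2) / ε := by ring
        rw [h4, div_le_iff₀ hε] at h2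
        linarith
      have h4 : (d : ℝ) + 1 + ρ ≤ 2 * d := by
        have : d + 1 + ρ ≤ 2 * d := by omega
        exact_mod_cast this
      have h5 : ε * ((d : ℝ) + 1 + ρ) ≤ ε * (2 * d) := mul_le_mul_of_nonneg_left h4 hε.le
      have h6 := hI i hi
      have h7 : (q : ℝ) ≤ m i := by linarith
      have h8 : q ≤ m i := by exact_mod_cast h7
      omega
    · have h1 : ¬ m i ≤ AA r a (w i - 1) := Nat.find_min (hex i) (by
        change w i - 1 < w i
        omega)
      have h2 := AA_eq r a (w i - 1)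
      rw [← hρ, ← ha] at h2
      have h3 : 2 ^ w i * q = 2 * (2 ^ (w i - 1) * q) := by
        obtain ⟨v, hv⟩ : ∃ v, w i = v + 1 := ⟨w i - 1, by omega⟩
        rw [hv, Nat.add_sub_cancel, pow_succ]
        ring
      rw [h3]
      omega
  have hsumw : ∑ i ∈ I, (2 ^ r) ^ w i ≤ (2 ^ r) ^ K := by
    have hq0 : (0 : ℝ) < q := by exact_mod_cast (by omega : 0 < q)
    have h1 : ∑ i ∈ I, ((2 : ℝ) ^ w i * q) ^ r ≤ ((2 : ℝ) ^ K * q) ^ r := by
      calc ∑ i ∈ I, ((2 : ℝ) ^ w i * q) ^ r ≤ ∑ i ∈ I, (2 * ((1 + η) * m i)) ^ r := by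
            refine sum_le_sum fun i hi => pow_le_pow_left₀ (by positivity) ?_ r
            have h2 : ((2 ^ w i * q : ℕ) : ℝ) ≤ ((2 * (m i + ρ) : ℕ) : ℝ) := by
              exact_mod_cast hw2 i hi
            push_cast at h2
            have h3 := hI i hi
            have h4 : (ρ : ℝ) ≤ η * m i := hρd.trans (mul_le_mul_of_nonneg_left h3 hηpos.le)
            linarith
        _ = (1 + η) ^ r * (2 ^ r * ∑ i ∈ I, (m i : ℝ) ^ r) := by
            rw [mul_sum, mul_sum]
            refine sum_congr rfl fun i _ => ?_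
            rw [mul_pow, mul_pow]
            ring
        _ ≤ (1 + η) ^ r * ((1 - ε) * d) ^ r := mul_le_mul_of_nonneg_left hsum (by positivity)
        _ = ((1 + η) * ((1 - ε) * d)) ^ r := by rw [← mul_pow]
        _ ≤ ((1 - η) * d) ^ r := by
            refine pow_le_pow_left₀ ?_ ?_ r
            · have : 0 ≤ 1 - ε := by linarith
              positivity
            · have h2 : (1 + η) * (1 - ε) ≤ 1 - η := by
                rw [hη]
                nlinarith
              nlinarith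
        _ ≤ ((2 : ℝ) ^ K * q) ^ r := by
            refine pow_le_pow_left₀ ?_ ?_ r
            · have : 0 ≤ 1 - η := by
                rw [hη]
                linarith
              positivity
            · have h2 : ((d + 1 + ρ : ℕ) : ℝ) < ((2 ^ K * q + 2 ^ K : ℕ) : ℝ) := by
                exact_mod_cast hq2
              push_cast at h2
              have h3 : (0 : ℝ) ≤ ρ := Nat.cast_nonneg ρ
              linarith
    have h2 : ∀ x : ℕ, ((2 : ℝ) ^ x * q) ^ r = (((2 ^ r) ^ x : ℕ) : ℝ) * (q : ℝ) ^ r := by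
      intro x
      push_cast
      rw [mul_pow, ← pow_mul, ← pow_mul, Nat.mul_comm]
    rw [h2, sum_congr rfl fun i _ => h2 (w i), ← sum_mul] at h1
    have h3 := le_of_mul_le_mul_right h1 (by positivity)
    exact_mod_cast h3
  obtain ⟨y, hy⟩ := dyadic hr ha1 w K I hsumw
  exact ⟨y, hy.mono (by omega) fun i _ => hw1 i⟩

end Pool.Agent.H74.KV
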