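import Pool.Agent.H74.BP.Elem
import Pool.Agent.H18.FatToric
import Pool.Agent.H18.TileMain

/-!
# Fat points impose independent conditions in large degree
-/

namespace Pool.Agent.H74.KV

open MvPolynomial Pool.Agent.H18.Fat Pool.Agent.H18.Ub Pool.Agent.H22.LU Pool.Agent.H74.CT
  Pool.Agent.H74.BP

variable {ι : Type*}

theorem finrank_le_all (r d : ℕ) (p : ι → Fin (r + 1) → ℂ) (m : ι → ℕ) :
    Module.finrank ℂ (fatForms r d p m) ≤ (d + r).choose r := by
  have h1 : fatForms r d p m ≤ LinearMap.range (toPoly (r + 1) d) :=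
    fun F hF => ⟨_, exists_toPoly hF.1⟩
  have h2 := Submodule.finrank_mono h1
  refine h2.trans ((LinearMap.finrank_range_le _).trans ?_)
  rw [Module.finrank_fintype_fun_eq_card, Fintype.card_coe, card_mons]

theorem finrank_all (r d : ℕ) (p : ι → Fin (r + 1) → ℂ) :
    Module.finrank ℂ (fatForms r d p fun _ => 0) = (d + r).choose r := by
  have h1 : fatForms r d p (fun _ => 0) = LinearMap.range (toPoly (r + 1) d) := by
    ext F
    constructor
    · exact fun hF => ⟨_, exists_toPoly hF.1⟩
    · rintro ⟨f, rfl⟩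
      exact ⟨toPoly_isHomogeneous f, fun i => vanishes_zero _ _⟩
  rw [h1, LinearMap.finrank_range_of_inj (toPoly_injective _ _),
    Module.finrank_fintype_fun_eq_card, Fintype.card_coe, card_mons]

theorem coord_le (r d a : ℕ) (hr : 1 ≤ r) (ha : a ≤ d + 1) :
    Module.finrank ℂ (fatForms r d (fun _ : Unit => (Pi.single 0 1 : Fin (r + 1) → ℂ)) fun _ => a) +
      (a + r - 1).choose r ≤ (d + r).choose r := by
  classical
  rcases Nat.eq_zero_or_pos a with h0 | h0
  · subst h0
    rw [Nat.choose_eq_zero_of_lt (by omega), Nat.add_zero]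
    exact finrank_le_all _ _ _ _
  rcases Nat.lt_or_ge d a with hda | hda
  · have h1 : fatForms r d (fun _ : Unit => (Pi.single 0 1 : Fin (r + 1) → ℂ)) (fun _ => a) = ⊥ := by
      rw [eq_bot_iff]
      intro F hF
      rw [Submodule.mem_bot]
      exact Pool.Agent.H18.Nef.eq_zero_of_vanishes F hF.1 _ hda (hF.2 ())
    rw [h1, finrank_bot, Nat.zero_add]
    exact Nat.choose_le_choose _ (by omega)
  -- the restriction to the allowed coefficients is injective
  set A := (mons (r + 1) d).filter fun α => ¬ d < α 0 + a with hA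
  have := fin_fatForms r d (fun _ : Unit => (Pi.single 0 1 : Fin (r + 1) → ℂ)) fun _ => a
  let ρ : fatForms r d (fun _ : Unit => (Pi.single 0 1 : Fin (r + 1) → ℂ)) (fun _ => a) →ₗ[ℂ]
      (A → ℂ) :=
    { toFun := fun F α => coeff α.1 F.1
      map_add' := fun F G => by
        funext α
        simp
      map_smul' := fun c F => by
        funext α
        simp }
  have hρ : Function.Injective ρ := by
    rw [injective_iff_map_eq_zero]
    intro F hF
    apply Subtype.ext
    have h1 := exists_toPoly F.2.1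
    have h2 := (vanishes_coord_iff (fun α : mons (r + 1) d => coeff α.1 F.1) 0 (m := a)).1 (by
      rw [h1]
      exact F.2.2 ())
    rw [← h1]
    have h3 : (fun α : mons (r + 1) d => coeff α.1 F.1) = 0 := by
      funext α
      by_contra hne
      have h4 := h2 α hne
      have h5 : α.1 ∈ A := by
        rw [hA, Finset.mem_filter]
        exact ⟨α.2, by omega⟩
      exact hne (congrFun hF ⟨α.1, h5⟩)
    rw [h3, map_zero]
    rfl
  have h1 := LinearMap.finrank_le_finrank_of_injective hρ
  rw [Module.finrank_fintype_fun_eq_card, Fintype.card_coe] at h1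
  have h2 := card_bad (r := r) (d := d) (mJ := fun _ => a) (l := 0) h0 hda
  have h3 : (bad r d (fun _ => a) 0).card + A.card = (mons (r + 1) d).card := by
    have h4 : bad r d (fun _ => a) 0 = (mons (r + 1) d).filter fun α => d < α 0 + a := by
      ext α
      rw [mem_bad, Finset.mem_filter]
    rw [h4]
    exact Finset.card_filter_add_card_filter_not _
  rw [card_mons] at h3
  have h4 : Pool.Agent.H18.Fat.len r a = (a + r - 1).choose r := rfl
  rw [h2, h4] at h3
  omega

/-- One point. -/
theorem one_le (r d a : ℕ) (hr : 1 ≤ r) (ha : a ≤ d + 1) (q : Fin (r + 1) → ℂ) (hq : q 0 ≠ 0) :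
    Module.finrank ℂ (fatForms r d (fun _ : Unit => q) fun _ => a) +
      (a + r - 1).choose r ≤ (d + r).choose r := by
  classical
  let A : Matrix (Fin (r + 1)) (Fin (r + 1)) ℂ := Matrix.of fun i j =>
    if j = 0 then q i else if i = j then 1 else 0
  let B : Matrix (Fin (r + 1)) (Fin (r + 1)) ℂ := Matrix.of fun i j =>
    if j = 0 then (if i = 0 then (q 0)⁻¹ else - q i * (q 0)⁻¹) else if i = j then 1 else 0
  have hAB : A * B = 1 := by
    ext i j
    rw [Matrix.mul_apply, Fin.sum_univ_succ]
    simp only [A, B, Matrix.of_apply, if_true, Fin.succ_ne_zero, if_false]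
    by_cases hj : j = 0
    · subst hj
      simp only [if_true]
      by_cases hi : i = 0
      · subst hi
        rw [Matrix.one_apply_eq, mul_inv_cancel₀ hq]
        rw [Finset.sum_eq_zero, add_zero]
        intro x _
        rw [if_neg (Fin.succ_ne_zero x).symm, zero_mul]
      · obtain ⟨i', rfl⟩ := Fin.exists_succ_eq.2 hi
        rw [Matrix.one_apply_ne (Fin.succ_ne_zero i')]
        rw [Finset.sum_eq_single i']
        · rw [if_pos rfl]
          ring
        · intro x _ hx
          rw [if_neg fun h => hx (Fin.succ_injective _ h).symm, zero_mul]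
        · intro h
          exact absurd (Finset.mem_univ _) h
    · obtain ⟨j', rfl⟩ := Fin.exists_succ_eq.2 hj
      simp only [Fin.succ_ne_zero, if_false, (Fin.succ_ne_zero j').symm, mul_zero, zero_add]
      rw [Finset.sum_eq_single j']
      · rw [if_pos rfl, mul_one, Matrix.one_apply]
      · intro x _ hx
        rw [if_neg fun h => hx (Fin.succ_injective _ h), mul_zero]
      · intro h
        exact absurd (Finset.mem_univ _) h
  have hA : A.mulVec (Pi.single 0 1) = q := by
    rw [Matrix.mulVec_single_one]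
    funext i
    simp [A, Matrix.col_apply]
  have h1 := finrank_linSubst (r := r) (d := d) (fun _ : Unit => (Pi.single 0 1 : Fin (r + 1) → ℂ))
    (fun _ => a) hAB
  rw [hA] at h1
  rw [h1]
  exact coord_le r d a hr ha

theorem one_le' (r d a : ℕ) (hr : 1 ≤ r) (ha : a ≤ d + 1) [DecidableEq ι]
    (p : ι → Fin (r + 1) → ℂ) (i : ι) (hq : p i 0 ≠ 0) :
    Module.finrank ℂ (fatForms r d p fun l => if l = i then a else 0) +
      (a + r - 1).choose r ≤ (d + r).choose r := by
  have h1 : (fatForms r d p fun l => if l = i then a else 0) =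
      fatForms r d (fun _ : Unit => p i) fun _ => a := by
    ext F
    constructor
    · intro hF
      refine ⟨hF.1, fun _ => ?_⟩
      have := hF.2 i
      dsimp only at this ⊢
      rwa [if_pos rfl] at this
    · intro hF
      refine ⟨hF.1, fun l => ?_⟩
      dsimp only
      by_cases hl : l = i
      · subst hl
        rw [if_pos rfl]
        exact hF.2 ()
      · rw [if_neg hl]
        exact vanishes_zero _ _
  rw [h1]
  exact one_le r d a hr ha _ hq

/-- Distinct points (separated by linear forms). -/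
def Sep {r : ℕ} (p : ι → Fin (r + 1) → ℂ) : Prop :=
  ∀ i j, i ≠ j → ∃ ℓ : MvPolynomial (Fin (r + 1)) ℂ, ℓ.IsHomogeneous 1 ∧ eval (p j) ℓ = 0 ∧
    eval (p i) ℓ ≠ 0

theorem ind_set {r : ℕ} (hr : 1 ≤ r) (p : ι → Fin (r + 1) → ℂ) (h0 : ∀ i, p i 0 ≠ 0)
    (hsep : Sep p) (m : ι → ℕ) [DecidableEq ι] (S : Finset ι) (N : ℕ) (hN : ∑ i ∈ S, m i ≤ N) :
    Module.finrank ℂ (fatForms r N p fun l => if l ∈ S then m l else 0) +
      ∑ i ∈ S, (m i + r - 1).choose r ≤ (N + r).choose r := by
  induction S using Finset.induction_on generalizing N with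
  | empty =>
    rw [Finset.sum_empty, Nat.add_zero]
    exact finrank_le_all _ _ _ _
  | insert i S hi ih =>
    rw [Finset.sum_insert hi] at hN
    have hex : ∀ j : ι, ∃ ℓ : MvPolynomial (Fin (r + 1)) ℂ, ℓ.IsHomogeneous 1 ∧
        (j ≠ i → eval (p j) ℓ = 0 ∧ eval (p i) ℓ ≠ 0) := by
      intro j
      by_cases hj : j = i
      · exact ⟨X 0, isHomogeneous_X ℂ 0, fun h => absurd hj h⟩
      · obtain ⟨ℓ, h1, h2, h3⟩ := hsep i j (Ne.symm hj)
        exact ⟨ℓ, h1, fun _ => ⟨h2, h3⟩⟩
    choose ℓ hℓ1 hℓ2 using hex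
    set G : MvPolynomial (Fin (r + 1)) ℂ := ∏ j ∈ S, ℓ j ^ m j with hG
    have hGhom : G.IsHomogeneous (∑ j ∈ S, m j) := by
      rw [hG]
      refine IsHomogeneous.prod _ _ _ fun j _ => ?_
      have := (hℓ1 j).pow (m j)
      rwa [Nat.one_mul] at this
    have hGi : eval (p i) G ≠ 0 := by
      rw [hG, map_prod]
      refine Finset.prod_ne_zero_iff.2 fun j hj => ?_
      rw [map_pow]
      exact pow_ne_zero _ (hℓ2 j fun h => hi (h ▸ hj)).2
    have hGS : ∀ l ∈ S, VanishesToOrder G (p l) (m l) := by
      intro l hl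
      rw [hG, ← Finset.mul_prod_erase S _ hl]
      have h1 : VanishesToOrder (ℓ l) (p l) 1 :=
        vanishes_one_iff.2 (hℓ2 l fun h => hi (h ▸ hl)).1
      have h2 := van_pow h1 (m l)
      rw [Nat.mul_one] at h2
      exact van_mul h2 (vanishes_zero (p l) (∏ j ∈ S.erase l, ℓ j ^ m j))
    obtain ⟨t, rfl⟩ : ∃ t, N = ∑ j ∈ S, m j + t := ⟨N - ∑ j ∈ S, m j, by omega⟩
    have i1 := fin_fatForms r t p fun _ => 0
    have i2 := fin_fatForms r (∑ j ∈ S, m j + t) p fun l => if l ∈ S then m l else 0
    have h1 := mulgen G (fatForms r t p fun l => if l = i then m i else 0)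
      (fatForms r t p fun _ => 0)
      (fatForms r (∑ j ∈ S, m j + t) p fun l => if l ∈ insert i S then m l else 0)
      (fatForms r (∑ j ∈ S, m j + t) p fun l => if l ∈ S then m l else 0)
      (fun R hR => ⟨hR.1, fun l => vanishes_zero _ _⟩)
      (fun R hR => ⟨hR.1, fun l => van_mono (hR.2 l) (by
        dsimp only
        split_ifs with e1 e2
        · exact le_rfl
        · exact absurd (Finset.mem_insert_of_mem e1) e2
        · exact Nat.zero_le _
        · exact le_rfl)⟩)
      (fun R hR => ⟨hGhom.mul hR.1, fun l => by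
        dsimp only
        split_ifs with hl
        · exact van_mul (hGS l hl) (vanishes_zero (p l) R)
        · exact vanishes_zero _ _⟩)
      fun R hR h => ⟨hR.1, fun l => by
        dsimp only
        by_cases hl : l = i
        · subst hl
          rw [if_pos rfl]
          have h2 := h.2 l
          dsimp only at h2
          rw [if_pos (Finset.mem_insert_self _ _)] at h2
          exact van_div hGi h2
        · rw [if_neg hl]
          exact vanishes_zero _ _⟩
    have h2 := one_le' r t (m i) hr (by omega) p i (h0 i)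
    have h3 := finrank_all r t p
    have h4 := ih (∑ j ∈ S, m j + t) (Nat.le_add_right _ _)
    rw [Finset.sum_insert hi]
    omega

theorem ind_large {r : ℕ} (hr : 1 ≤ r) [Fintype ι] (p : ι → Fin (r + 1) → ℂ)
    (h0 : ∀ i, p i 0 ≠ 0) (hsep : Sep p) (m : ι → ℕ) (N : ℕ) (hN : ∑ i, m i ≤ N) :
    Module.finrank ℂ (fatForms r N p m) + ∑ i, (m i + r - 1).choose r ≤ (N + r).choose r := by
  classical
  have h := ind_set hr p h0 hsep m Finset.univ N hN
  have h1 : (fun l => if l ∈ (Finset.univ : Finset ι) then m l else 0) = m := by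
    funext l
    rw [if_pos (Finset.mem_univ l)]
  rw [h1] at h
  exact h

end Pool.Agent.H74.KV
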