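import Pool.Agent.H74.KV.Pos

/-!
# Dependent conditions stay dependent: derivatives and inverse systems

If the fat points `m_i p_i` do not impose independent conditions on the forms of degree `d`, then the
fat points `(m_i + t) p_i` fail by at least the number of forms of degree `t` to impose independent
conditions on the forms of degree `d + t`.
-/

namespace Pool.Agent.H74.KV

open MvPolynomial Pool.Agent.H18.Fat Pool.Agent.H18.Ub Pool.Agent.H22.LU Pool.Agent.H74.CT
  Pool.Agent.H74.BP

variable {n : ℕ}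

/-- The numbers `∏ j, α j (α j - 1) ⋯ (α j - γ j + 1)`. -/
def wt (α γ : Fin n →₀ ℕ) : ℕ := ∏ j, (α j).descFactorial (γ j)

/-- The numbers `∏ j, (α j)!`. -/
def fct (α : Fin n →₀ ℕ) : ℕ := ∏ j, (α j).factorial

theorem fct_pos (α : Fin n →₀ ℕ) : 0 < fct α := Finset.prod_pos fun j _ => (α j).factorial_pos

theorem fct_add (γ β : Fin n →₀ ℕ) : fct β * wt (γ + β) γ = fct (γ + β) := by
  unfold fct wt
  rw [← Finset.prod_mul_distrib]
  refine Finset.prod_congr rfl fun j _ => ?_
  have h := Nat.factorial_mul_descFactorial (n := (γ + β) j) (k := γ j) (by simp)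
  have h2 : (γ + β) j - γ j = β j := by simp
  rwa [h2] at h

/-- The derivative `∂^γ`. -/
noncomputable def DD (γ : Fin n →₀ ℕ) : MvPolynomial (Fin n) ℂ →ₗ[ℂ] MvPolynomial (Fin n) ℂ :=
  (basisMonomials (Fin n) ℂ).constr ℂ fun α => monomial (α - γ) (wt α γ : ℂ)

theorem DD_monomial (γ α : Fin n →₀ ℕ) (c : ℂ) :
    DD γ (monomial α c) = monomial (α - γ) (c * wt α γ) := by
  have h1 : monomial α c = c • basisMonomials (Fin n) ℂ α := by
    rw [coe_basisMonomials, smul_monomial, smul_eq_mul, mul_one]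
  rw [h1, map_smul]
  unfold DD
  rw [Module.Basis.constr_basis, smul_monomial, smul_eq_mul]

theorem coeff_shift_DD (γ β : Fin n →₀ ℕ) (q : Fin n → ℂ) (F : MvPolynomial (Fin n) ℂ) :
    coeff β (shift q (DD γ F)) = wt (γ + β) γ * coeff (γ + β) (shift q F) := by
  induction F using MvPolynomial.induction_on' with
  | monomial α c =>
    rw [DD_monomial, coeff_shift_monomial, coeff_shift_monomial]
    have h : (wt α γ : ℂ) * tc q (α - γ) β = wt (γ + β) γ * tc q α (γ + β) := by
      unfold wt tc
      rw [Nat.cast_prod, Nat.cast_prod, ← Finset.prod_mul_distrib, ← Finset.prod_mul_distrib]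
      refine Finset.prod_congr rfl fun j _ => ?_
      have h1 : (α - γ) j = α j - γ j := rfl
      have h2 : (γ + β) j = γ j + β j := rfl
      have h3 : α j - γ j - β j = α j - (γ j + β j) := Nat.sub_sub _ _ _
      rw [h1, h2, h3, ← mul_assoc, ← mul_assoc]
      congr 1
      have h4 := Nat.choose_mul (n := α j) (k := γ j + β j) (s := γ j) (Nat.le_add_right _ _)
      rw [Nat.add_sub_cancel_left] at h4
      have h5 : (α j).descFactorial (γ j) * (α j - γ j).choose (β j) =
          (γ j + β j).descFactorial (γ j) * (α j).choose (γ j + β j) := by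
        rw [Nat.descFactorial_eq_factorial_mul_choose, Nat.descFactorial_eq_factorial_mul_choose,
          mul_assoc, mul_assoc, ← h4]
        ring
      exact_mod_cast h5
    rw [mul_assoc, h]
    ring
  | add p q' hp hq =>
    unfold shift at *
    rw [map_add, map_add, coeff_add, hp, hq, map_add, coeff_add]
    ring

theorem DD_vanish {γ : Fin n →₀ ℕ} {q : Fin n → ℂ} {F : MvPolynomial (Fin n) ℂ} {m : ℕ}
    (h : VanishesToOrder F q (m + γ.degree)) : VanishesToOrder (DD γ F) q m := by
  intro β hβ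
  rw [coeff_shift_DD, h (γ + β) (by
    rw [map_add]
    omega), mul_zero]

theorem wt_eq_zero {α γ : Fin n →₀ ℕ} (h : ¬ γ ≤ α) : wt α γ = 0 := by
  rw [Finsupp.le_def] at h
  push Not at h
  obtain ⟨j, hj⟩ := h
  exact Finset.prod_eq_zero (Finset.mem_univ j) (Nat.descFactorial_of_lt hj)

theorem DD_hom {γ : Fin n →₀ ℕ} {F : MvPolynomial (Fin n) ℂ} {d t : ℕ} (hγ : γ.degree = t)
    (h : F.IsHomogeneous (d + t)) : (DD γ F).IsHomogeneous d := by
  rw [F.as_sum, map_sum]
  refine IsHomogeneous.sum _ _ _ fun α hα => ?_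
  rw [DD_monomial]
  by_cases hle : γ ≤ α
  · refine isHomogeneous_monomial _ ?_
    have h1 : α.degree = d + t := by
      have := h (mem_support_iff.1 hα)
      rw [Finsupp.degree_eq_weight_one]
      exact this
    have h2 : (α - γ + γ).degree = α.degree := by rw [tsub_add_cancel_of_le hle]
    rw [map_add] at h2
    omega
  · rw [wt_eq_zero hle, Nat.cast_zero, mul_zero, monomial_zero]
    exact isHomogeneous_zero _ _ _

/-- A functional, as a form. -/
noncomputable def dualForm (d : ℕ) (L : MvPolynomial (Fin n) ℂ →ₗ[ℂ] ℂ) :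
    MvPolynomial (Fin n) ℂ :=
  toPoly n d fun β => L (monomial β.1 1) / fct β.1

theorem dualForm_eq_zero {d : ℕ} {L : MvPolynomial (Fin n) ℂ →ₗ[ℂ] ℂ} (h : dualForm d L = 0)
    {F : MvPolynomial (Fin n) ℂ} (hF : F.IsHomogeneous d) : L F = 0 := by
  have h1 : (fun β : mons n d => L (monomial β.1 1) / (fct β.1 : ℂ)) = 0 := by
    apply toPoly_injective n d
    rw [map_zero]
    exact h
  rw [← exists_toPoly hF, toPoly_apply, map_sum]
  refine Finset.sum_eq_zero fun β _ => ?_
  have h2 := congrFun h1 β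
  have h3 : (fct β.1 : ℂ) ≠ 0 := by
    have := fct_pos β.1
    exact_mod_cast this.ne'
  have h4 : L (monomial β.1 1) = 0 := by
    rcases div_eq_zero_iff.1 h2 with h5 | h5
    · exact h5
    · exact absurd h5 h3
  have h5 : (monomial β.1 (coeff β.1 F) : MvPolynomial (Fin n) ℂ) =
      coeff β.1 F • monomial β.1 1 := by
    rw [smul_monomial, smul_eq_mul, mul_one]
  rw [h5, map_smul, h4, smul_zero]

theorem apply_DD {d t : ℕ} (L : MvPolynomial (Fin n) ℂ →ₗ[ℂ] ℂ) (g : mons n t → ℂ)
    {α : Fin n →₀ ℕ} (hα : α.degree = d + t) :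
    ∑ γ : mons n t, g γ * L (DD γ.1 (monomial α 1)) =
      fct α * coeff α (toPoly n t g * dualForm d L) := by
  classical
  rw [coeff_mul]
  have h1 : ∀ γ : mons n t, g γ * L (DD γ.1 (monomial α 1)) =
      if γ.1 ≤ α then g γ * (wt α γ.1 * L (monomial (α - γ.1) 1)) else 0 := by
    intro γ
    rw [DD_monomial, one_mul]
    split_ifs with h
    · have h5 : (monomial (α - γ.1) (wt α γ.1 : ℂ) : MvPolynomial (Fin n) ℂ) =
          (wt α γ.1 : ℂ) • monomial (α - γ.1) 1 := by
        rw [smul_monomial, smul_eq_mul, mul_one]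
      rw [h5, map_smul, smul_eq_mul]
    · rw [wt_eq_zero h, Nat.cast_zero, monomial_zero, map_zero, mul_zero]
  rw [Finset.sum_congr rfl fun γ _ => h1 γ, ← Finset.sum_filter]
  rw [Finset.mul_sum]
  have hcoeff : ∀ γ : Fin n →₀ ℕ, (hγ : γ ∉ mons n t) → coeff γ (toPoly n t g) = 0 := by
    intro γ hγ
    rw [mem_mons] at hγ
    exact (toPoly_isHomogeneous g).coeff_eq_zero hγ
  have h2 : ∑ x ∈ Finset.HasAntidiagonal.antidiagonal α, (fct α : ℂ) *
      (coeff x.1 (toPoly n t g) * coeff x.2 (dualForm d L)) =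
      ∑ x ∈ (Finset.HasAntidiagonal.antidiagonal α).filter (fun x => x.1 ∈ mons n t), (fct α : ℂ) *
        (coeff x.1 (toPoly n t g) * coeff x.2 (dualForm d L)) := by
    rw [Finset.sum_filter_of_ne]
    intro x _ hx
    by_contra hcon
    apply hx
    rw [hcoeff _ hcon, zero_mul, mul_zero]
  rw [h2]
  refine Finset.sum_bij (fun γ _ => (γ.1, α - γ.1)) ?_ ?_ ?_ ?_
  · intro γ hγ
    rw [Finset.mem_filter] at hγ ⊢
    refine ⟨?_, γ.2⟩
    rw [Finset.HasAntidiagonal.mem_antidiagonal]
    exact add_tsub_cancel_of_le hγ.2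
  · intro γ _ γ' _ h
    exact Subtype.ext (congrArg Prod.fst h)
  · rintro ⟨γ, β⟩ hx
    rw [Finset.mem_filter, Finset.HasAntidiagonal.mem_antidiagonal] at hx
    obtain ⟨h3, h4⟩ := hx
    dsimp only at h3 h4
    refine ⟨⟨γ, h4⟩, ?_, ?_⟩
    · rw [Finset.mem_filter]
      refine ⟨Finset.mem_univ _, ?_⟩
      rw [← h3]
      exact le_self_add
    · dsimp only
      rw [← h3, add_tsub_cancel_left]
  · intro γ hγ
    rw [Finset.mem_filter] at hγ
    have hβ : (α - γ.1).degree = d := by
      have h3 := mem_mons.1 γ.2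
      have h4 : (α - γ.1 + γ.1).degree = α.degree := by rw [tsub_add_cancel_of_le hγ.2]
      rw [map_add] at h4
      omega
    have h3 := coeff_toPoly g γ
    have h4 : coeff (α - γ.1) (dualForm d L) =
        L (monomial (α - γ.1) 1) / fct (α - γ.1) := by
      unfold dualForm
      exact coeff_toPoly (fun β : mons n d => L (monomial β.1 1) / (fct β.1 : ℂ))
        ⟨α - γ.1, mem_mons.2 hβ⟩
    dsimp only
    rw [h3, h4]
    have h5 := fct_add γ.1 (α - γ.1)
    rw [add_tsub_cancel_of_le hγ.2] at h5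
    have h6 : (fct (α - γ.1) : ℂ) ≠ 0 := by
      have := fct_pos (α - γ.1)
      exact_mod_cast this.ne'
    rw [← h5]
    push_cast
    field_simp

/-- The forms killed by the derivatives of a nonzero functional. -/
theorem finrank_ker_DD {r d t : ℕ} {ι : Type*} (p : ι → Fin (r + 1) → ℂ)
    (L : MvPolynomial (Fin (r + 1)) ℂ →ₗ[ℂ] ℂ)
    (K : Submodule ℂ (MvPolynomial (Fin (r + 1)) ℂ)) (hK : K ≤ fatForms r (d + t) p fun _ => 0)
    (hL : ∃ F : MvPolynomial (Fin (r + 1)) ℂ, F.IsHomogeneous d ∧ L F ≠ 0)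
    (hKL : ∀ F ∈ K, ∀ γ ∈ mons (r + 1) t, L (DD γ F) = 0) :
    Module.finrank ℂ K + (t + r).choose r ≤ (d + t + r).choose r := by
  classical
  set H := fatForms r (d + t) p fun _ => 0 with hH
  have iH := fin_fatForms r (d + t) p fun _ => 0
  let Θ : H →ₗ[ℂ] (mons (r + 1) t → ℂ) :=
    { toFun := fun F γ => L (DD γ.1 F.1)
      map_add' := fun F G => by
        funext γ
        simp
      map_smul' := fun c F => by
        funext γ
        simp }
  have hsurj : LinearMap.range Θ = ⊤ := by
    by_contra hne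
    obtain ⟨f, hf1, hf2⟩ := Submodule.exists_le_ker_of_lt_top _ (lt_top_iff_ne_top.2 hne)
    set g : mons (r + 1) t → ℂ := fun γ => f (Pi.single γ 1) with hg
    have hfg : ∀ v : mons (r + 1) t → ℂ, f v = ∑ γ, g γ * v γ := by
      intro v
      conv_lhs => rw [pi_eq_sum_univ' v]
      rw [map_sum]
      refine Finset.sum_congr rfl fun γ _ => ?_
      rw [map_smul, smul_eq_mul, mul_comm]
    have hG : toPoly (r + 1) t g * dualForm d L = 0 := by
      ext α
      rw [coeff_zero]
      by_cases hα : α.degree = d + t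
      · have hmem : (monomial α 1 : MvPolynomial (Fin (r + 1)) ℂ) ∈ H :=
          ⟨isHomogeneous_monomial _ hα, fun i => vanishes_zero _ _⟩
        have h1 := hf2 (LinearMap.mem_range_self Θ ⟨_, hmem⟩)
        rw [LinearMap.mem_ker, hfg] at h1
        have h2 := apply_DD (d := d) L g hα
        have h3 : ∑ γ : mons (r + 1) t, g γ * L (DD γ.1 (monomial α 1)) = 0 := h1
        rw [h3] at h2
        have h4 : (fct α : ℂ) ≠ 0 := by
          have := fct_pos α
          exact_mod_cast this.ne'
        rcases mul_eq_zero.1 h2.symm with h5 | h5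
        · exact absurd h5 h4
        · exact h5
      · have h1 : (toPoly (r + 1) t g * dualForm d L).IsHomogeneous (t + d) :=
          (toPoly_isHomogeneous g).mul (toPoly_isHomogeneous _)
        exact h1.coeff_eq_zero (by omega)
    rcases mul_eq_zero.1 hG with h | h
    · apply hf1
      have hg0 : g = 0 := by
        apply toPoly_injective (r + 1) t
        rw [h, map_zero]
      ext v
      rw [LinearMap.comp_apply, hfg, hg0]
      simp
    · obtain ⟨F, hF1, hF2⟩ := hL
      exact hF2 (dualForm_eq_zero h hF1)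
  have h1 := LinearMap.finrank_range_add_finrank_ker Θ
  rw [hsurj, finrank_top, Module.finrank_fintype_fun_eq_card, Fintype.card_coe, card_mons,
    finrank_all] at h1
  have h2 : Module.finrank ℂ K ≤ Module.finrank ℂ (LinearMap.ker Θ) := by
    let g : K →ₗ[ℂ] LinearMap.ker Θ :=
      { toFun := fun F => ⟨⟨F.1, hK F.2⟩, by
          rw [LinearMap.mem_ker]
          funext γ
          exact hKL _ F.2 _ γ.2⟩
        map_add' := fun F G => rfl
        map_smul' := fun c F => rfl }
    exact LinearMap.finrank_le_finrank_of_injective (f := g) fun F G h => by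
      have h3 : (g F).1.1 = (g G).1.1 := by rw [h]
      exact Subtype.ext h3
  omega

end Pool.Agent.H74.KV
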