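import Pool.Agent.H74.KV.Inv

/-!
# Dependent conditions: the growth of the defect
-/

namespace Pool.Agent.H74.KV

open MvPolynomial Pool.Agent.H18.Fat Pool.Agent.H18.Ub Pool.Agent.H22.LU Pool.Agent.H74.CT
  Pool.Agent.H74.BP

theorem fat_inf {r d : ℕ} {ι : Type*} (p : ι → Fin (r + 1) → ℂ) (b b' : ι → ℕ) :
    fatForms r d p b ⊓ fatForms r d p b' = fatForms r d p fun i => max (b i) (b' i) := by
  ext F
  constructor
  · rintro ⟨h1, h2⟩
    refine ⟨h1.1, fun i => ?_⟩
    rcases le_total (b i) (b' i) with h | h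
    · dsimp only
      rw [max_eq_right h]
      exact h2.2 i
    · dsimp only
      rw [max_eq_left h]
      exact h1.2 i
  · intro h
    exact ⟨⟨h.1, fun i => van_mono (h.2 i) (le_max_left _ _)⟩,
      ⟨h.1, fun i => van_mono (h.2 i) (le_max_right _ _)⟩⟩

theorem fat_ge {r d : ℕ} (hr : 1 ≤ r) {ι : Type*} [Fintype ι] (p : ι → Fin (r + 1) → ℂ)
    (hp : ∀ i, p i 0 ≠ 0) (b : ι → ℕ) : (d + r).choose r ≤
      Module.finrank ℂ (fatForms r d p b) + ∑ i, (b i + r - 1).choose r := by
  have h := finrank_fatForms_ge (d := d) hr hp b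
  have h2 : ((∑ i, (b i + r - 1).choose r : ℕ) : ℤ) = ∑ i, ((b i + r - 1).choose r : ℤ) := by
    push_cast
    rfl
  omega

theorem inv {r d t : ℕ} (hr : 1 ≤ r) {ι : Type*} [Fintype ι] (p : ι → Fin (r + 1) → ℂ)
    (hp : ∀ i, p i 0 ≠ 0) (m : ι → ℕ) (hm : ∀ i, m i ≤ d + 1)
    (hfail : (d + r).choose r <
      Module.finrank ℂ (fatForms r d p m) + ∑ i, (m i + r - 1).choose r) :
    (d + t + r).choose r + (t + r).choose r ≤
      Module.finrank ℂ (fatForms r (d + t) p fun i => m i + t) +
        ∑ i, (m i + t + r - 1).choose r := by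
  classical
  -- the first dependent point
  obtain ⟨S, i, hiS, hS, hi⟩ : ∃ (S : Finset ι) (i : ι), i ∉ S ∧
      (Module.finrank ℂ (fatForms r d p fun l => if l ∈ S then m l else 0) +
        ∑ l ∈ S, (m l + r - 1).choose r ≤ (d + r).choose r) ∧
      (d + r).choose r <
        Module.finrank ℂ (fatForms r d p fun l => if l ∈ insert i S then m l else 0) +
        ∑ l ∈ insert i S, (m l + r - 1).choose r := by
    by_contra hcon
    push Not at hcon
    have key : ∀ S : Finset ι,
        Module.finrank ℂ (fatForms r d p fun l => if l ∈ S then m l else 0) +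
          ∑ l ∈ S, (m l + r - 1).choose r ≤ (d + r).choose r := by
      intro S
      induction S using Finset.induction_on with
      | empty =>
        rw [Finset.sum_empty, Nat.add_zero]
        exact finrank_le_all _ _ _ _
      | insert i S hi ih => exact hcon S i hi ih
    have h1 := key Finset.univ
    have h2 : (fun l => if l ∈ (Finset.univ : Finset ι) then m l else 0) = m := by
      funext l
      rw [if_pos (Finset.mem_univ l)]
    rw [h2] at h1
    omega
  set U := fatForms r d p fun l => if l = i then m i else 0 with hU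
  set W := fatForms r d p fun l => if l ∈ S then m l else 0 with hW
  have iU : FiniteDimensional ℂ U := fin_fatForms _ _ _ _
  have iW : FiniteDimensional ℂ W := fin_fatForms _ _ _ _
  have hUW : U ⊓ W = fatForms r d p fun l => if l ∈ insert i S then m l else 0 := by
    rw [hU, hW, fat_inf]
    congr 1
    funext l
    by_cases hl : l = i
    · subst hl
      rw [if_pos rfl, if_neg hiS, if_pos (Finset.mem_insert_self _ _)]
      exact max_eq_left (Nat.zero_le _)
    · rw [if_neg hl]
      by_cases hlS : l ∈ S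
      · rw [if_pos hlS, if_pos (Finset.mem_insert_of_mem hlS)]
        exact max_eq_right (Nat.zero_le _)
      · rw [if_neg hlS, if_neg fun h => (Finset.mem_insert.1 h).elim hl hlS]
        rfl
  have e1 := Submodule.finrank_sup_add_finrank_inf_eq U W
  rw [hUW] at e1
  have e2 := one_le' r d (m i) hr (hm i) p i (hp i)
  rw [← hU] at e2
  rw [Finset.sum_insert hiS] at hi
  set H := fatForms r d p fun _ => 0 with hH
  have iH : FiniteDimensional ℂ H := fin_fatForms _ _ _ _
  have e3 : Module.finrank ℂ H = (d + r).choose r := finrank_all r d p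
  have hle : U ⊔ W ≤ H := sup_le (fun F hF => ⟨hF.1, fun l => vanishes_zero _ _⟩)
    fun F hF => ⟨hF.1, fun l => vanishes_zero _ _⟩
  obtain ⟨x, hxH, hx⟩ : ∃ x ∈ H, x ∉ U ⊔ W := by
    by_contra hcon
    push Not at hcon
    have h1 := Submodule.finrank_mono (s := H) (t := U ⊔ W) fun F hF => hcon F hF
    omega
  obtain ⟨L, hL1, hL2⟩ := Submodule.exists_dual_map_eq_bot_of_notMem hx inferInstance
  have hL3 : ∀ F ∈ U ⊔ W, L F = 0 := by
    intro F hF
    have h1 : L F ∈ (U ⊔ W).map L := ⟨F, hF, rfl⟩
    rwa [hL2, Submodule.mem_bot] at h1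
  -- the derivatives
  set U' := fatForms r (d + t) p fun l => if l = i then m i + t else 0 with hU'
  set W' := fatForms r (d + t) p fun l => if l ∈ S then m l + t else 0 with hW'
  have iU' : FiniteDimensional ℂ U' := fin_fatForms _ _ _ _
  have iW' : FiniteDimensional ℂ W' := fin_fatForms _ _ _ _
  have hUW' : U' ⊓ W' = fatForms r (d + t) p fun l => if l ∈ insert i S then m l + t else 0 := by
    rw [hU', hW', fat_inf]
    congr 1
    funext l
    by_cases hl : l = i
    · subst hl
      rw [if_pos rfl, if_neg hiS, if_pos (Finset.mem_insert_self _ _)]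
      exact max_eq_left (Nat.zero_le _)
    · rw [if_neg hl]
      by_cases hlS : l ∈ S
      · rw [if_pos hlS, if_pos (Finset.mem_insert_of_mem hlS)]
        exact max_eq_right (Nat.zero_le _)
      · rw [if_neg hlS, if_neg fun h => (Finset.mem_insert.1 h).elim hl hlS]
        rfl
  have hDU : ∀ F ∈ U', ∀ γ ∈ mons (r + 1) t, DD γ F ∈ U := by
    intro F hF γ hγ
    refine ⟨DD_hom (mem_mons.1 hγ) hF.1, fun l => ?_⟩
    dsimp only
    split_ifs with hl
    · subst hl
      apply DD_vanish
      have h1 := hF.2 l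
      dsimp only at h1
      rw [if_pos rfl] at h1
      rw [mem_mons.1 hγ]
      exact h1
    · exact vanishes_zero _ _
  have hDW : ∀ F ∈ W', ∀ γ ∈ mons (r + 1) t, DD γ F ∈ W := by
    intro F hF γ hγ
    refine ⟨DD_hom (mem_mons.1 hγ) hF.1, fun l => ?_⟩
    dsimp only
    split_ifs with hl
    · apply DD_vanish
      have h1 := hF.2 l
      dsimp only at h1
      rw [if_pos hl] at h1
      rw [mem_mons.1 hγ]
      exact h1
    · exact vanishes_zero _ _
  have e4 := finrank_ker_DD (r := r) (d := d) (t := t) p L (U' ⊔ W')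
    (sup_le (fun F hF => ⟨hF.1, fun l => vanishes_zero _ _⟩)
      fun F hF => ⟨hF.1, fun l => vanishes_zero _ _⟩) ⟨x, hxH.1, hL1⟩ (fun F hF γ hγ => by
      obtain ⟨A, hA, B, hB, rfl⟩ := Submodule.mem_sup.1 hF
      rw [map_add, map_add, hL3 _ (Submodule.mem_sup_left (hDU A hA γ hγ)),
        hL3 _ (Submodule.mem_sup_right (hDW B hB γ hγ)), add_zero])
  have e5 := Submodule.finrank_sup_add_finrank_inf_eq U' W'
  rw [hUW'] at e5
  have e6 := fat_ge (d := d + t) hr p hp fun l => if l = i then m i + t else 0
  have e7 := fat_ge (d := d + t) hr p hp fun l => if l ∈ S then m l + t else 0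
  have e8 := raise (d := d + t) hr p hp (fun l => if l ∈ insert i S then m l + t else 0)
    (fun l => m l + t) fun l => by
      split_ifs
      · exact le_rfl
      · exact Nat.zero_le _
  have z0 : (0 + r - 1).choose r = 0 := Nat.choose_eq_zero_of_lt (by omega)
  have s1 : ∑ l, ((if l = i then m i + t else 0) + r - 1).choose r = (m i + t + r - 1).choose r := by
    rw [Finset.sum_eq_single i]
    · rw [if_pos rfl]
    · intro l _ hl
      rw [if_neg hl, z0]
    · intro h
      exact absurd (Finset.mem_univ i) h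
  have s2 : ∀ S : Finset ι, ∑ l, ((if l ∈ S then m l + t else 0) + r - 1).choose r =
      ∑ l ∈ S, (m l + t + r - 1).choose r := by
    intro S
    rw [← Finset.sum_subset (Finset.subset_univ S)]
    · exact Finset.sum_congr rfl fun l hl => by rw [if_pos hl]
    · intro l _ hl
      rw [if_neg hl, z0]
  rw [s1, ← hU'] at e6
  rw [s2, ← hW'] at e7
  rw [s2, Finset.sum_insert hiS] at e8
  omega

end Pool.Agent.H74.KV
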