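import Pool.Agent.H74.KV.Xu2
import Pool.Agent.H74.KV.GenN

/-!
# The plane in standard form
-/

namespace Pool.Agent.H74.KV

open Finset Pool.Agent.H18.Cub Pool.Agent.H18.Pr Pool.Agent.H18.Fat Pool.Agent.H18.Ub
  Pool.Agent.H18.Nef Pool.Agent.H74.BP

/-- The plane: the large points fill less than `16 / 17`. -/
theorem plane_num17 : ∃ K E : ℕ, ∀ M : ℕ, 1 ≤ M → ∀ ε : ℝ, 0 < ε → ∃ d₀ : ℕ,
    ∀ (k d μ : ℕ) (m : Fin k → ℕ) (J : Finset (Fin k)), d₀ ≤ d → (∀ i ∈ J, ε * d ≤ m i) →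
    (∀ i, i ∉ J → m i ≤ μ) → (∀ S : Finset (Fin k), S.card ≤ 3 → ∑ i ∈ S, m i ≤ d) →
    ∑ i ∈ J, (m i : ℝ) ^ 2 ≤ (16 / 17 - ε) * d ^ 2 → Off (K * M ^ E) M d μ m J →
    ForGeneralPoints 2 k fun p => ImposesMaximalConditions 2 d p m := by
  classical
  obtain ⟨K, E, hT⟩ := plane_T
  refine ⟨K + 600, E + 6, fun M hM ε hε => ?_⟩
  -- the nef class
  set η : ℝ := min (ε / 24) (1 / 2) with hη
  have hηpos : 0 < η := lt_min (by positivity) (by norm_num)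
  have hηε : η ≤ ε / 24 := min_le_left _ _
  obtain ⟨d₀, hd₀⟩ := plane_of_nef M hM η hηpos
  obtain ⟨d₁, hd₁⟩ := exists_nat_ge (24 / ε)
  have hE1 : K * M ^ E ≤ (K + 600) * M ^ (E + 6) :=
    Nat.mul_le_mul (Nat.le_add_right _ _) (Nat.pow_le_pow_right hM (Nat.le_add_right _ _))
  have hE2 : 300 * 2 * M ^ (2 + 4) ≤ (K + 600) * M ^ (E + 6) := by
    have h1 : M ^ (2 + 4) ≤ M ^ (E + 6) := Nat.pow_le_pow_right hM (by omega)
    nlinarith [Nat.zero_le (K * M ^ (E + 6))]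
  refine ⟨d₀ + d₁ + K * M ^ E + 1, fun k d μ m J hd hJ hμ hstd hsq hoff => ?_⟩
  rcases Nat.lt_or_ge J.card 9 with h9 | h9
  · refine hT M hM k d μ m J hμ hstd (by omega) (Or.inl ⟨by omega, ?_⟩)
    exact hoff.mono hE1
  · have hd0 : (0 : ℝ) < d := by exact_mod_cast (by omega : 0 < d)
    have hdd : (24 / ε : ℝ) ≤ d := hd₁.trans (by exact_mod_cast (by omega : d₁ ≤ d))
    rw [div_le_iff₀ hε] at hdd
    -- `ε ≤ 1`
    have hε1 : ε ≤ 16 / 17 := by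
      by_contra hcon
      push Not at hcon
      have h1 : (0 : ℝ) ≤ ∑ i ∈ J, (m i : ℝ) ^ 2 := sum_nonneg fun _ _ => sq_nonneg _
      have h2 : (16 / 17 - ε) * (d : ℝ) ^ 2 < 0 := by
        have : (0 : ℝ) < (d : ℝ) ^ 2 := by positivity
        nlinarith
      linarith
    set a := ⌊(1 - η) * (d : ℝ)⌋₊ with ha
    have hη1 : 0 ≤ 1 - η := by
      have := min_le_right (ε / 24) (1 / 2 : ℝ)
      linarith
    have ha1 : (a : ℝ) ≤ (1 - η) * d := Nat.floor_le (by positivity)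
    have ha2 : (1 - η) * (d : ℝ) < a + 1 := Nat.lt_floor_add_one _
    set y := ⌈ε * (d : ℝ)⌉₊ with hy
    have hy1 : ε * (d : ℝ) ≤ y := Nat.le_ceil _
    refine hd₀ k d μ a m J (by omega) (fun i hi => ?_) hμ ?_ ha1 (hoff.mono hE2)
    · refine le_trans ?_ (hJ i hi)
      have : η ≤ ε := by linarith
      exact mul_le_mul_of_nonneg_right this hd0.le
    · refine nef_num17 hε (J := J) (by omega) (d := d) (y := y) (fun i hi => ?_)
        (fun S _ hS => hstd S hS.le) hsq ?_ ?_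
      · exact Nat.ceil_le.2 (hJ i hi)
      · have h1 : (6 : ℝ) * d ≤ 6 * a + y := by nlinarith
        exact_mod_cast h1
      · nlinarith

end Pool.Agent.H74.KV
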