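import Pool.Agent.H74.KV.Bez
import Pool.Agent.H18.Ex.Sing

/-!
# Points of a plane curve, and the restriction to an irreducible curve
-/

namespace Pool.Agent.H74.KV

open MvPolynomial Pool.Agent.H18.Fat Pool.Agent.H18.Ub Pool.Agent.H22.LU Pool.Agent.H74.CT
  Pool.Agent.H74.BP

/-- The restriction of `F` to the line `P + t v`. -/
noncomputable def onl (P v : Fin (2 + 1) → ℂ) (F : MvPolynomial (Fin (2 + 1)) ℂ) :
    Polynomial ℂ :=
  aeval (fun j => Polynomial.C (P j) + Polynomial.C (v j) * Polynomial.X) F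

theorem onl_eval (P v : Fin (2 + 1) → ℂ) (F : MvPolynomial (Fin (2 + 1)) ℂ) (t : ℂ) :
    (onl P v F).eval t = eval (fun j => P j + v j * t) F := by
  unfold onl
  have h : ((Polynomial.aeval t : Polynomial ℂ →ₐ[ℂ] ℂ).comp
      (aeval (fun j => Polynomial.C (P j) + Polynomial.C (v j) * Polynomial.X) :
        MvPolynomial (Fin (2 + 1)) ℂ →ₐ[ℂ] Polynomial ℂ)) F =
      (aeval (fun j => P j + v j * t) : MvPolynomial (Fin (2 + 1)) ℂ →ₐ[ℂ] ℂ) F := by
    congr 1
    apply MvPolynomial.algHom_ext
    intro j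
    simp
  rw [AlgHom.comp_apply, Polynomial.coe_aeval_eq_eval] at h
  rw [h]
  rfl

theorem exists_dir {F : MvPolynomial (Fin (2 + 1)) ℂ} (hX : ¬ X 0 ∣ F) :
    ∃ v : Fin (2 + 1) → ℂ, v 0 = 0 ∧ eval v F ≠ 0 := by
  by_contra hcon
  push Not at hcon
  apply hX
  let φ : MvPolynomial (Fin (2 + 1)) ℂ →ₐ[ℂ] MvPolynomial (Fin (2 + 1)) ℂ :=
    aeval fun j => if j = 0 then 0 else X j
  have h1 : φ F = 0 := by
    apply MvPolynomial.funext
    intro v
    have h2 : ((aeval v : MvPolynomial (Fin (2 + 1)) ℂ →ₐ[ℂ] ℂ).comp φ) F =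
        (aeval (fun j => if j = 0 then 0 else v j) : MvPolynomial (Fin (2 + 1)) ℂ →ₐ[ℂ] ℂ) F := by
      congr 1
      apply MvPolynomial.algHom_ext
      intro j
      rw [AlgHom.comp_apply, aeval_X]
      simp only [φ, aeval_X]
      split_ifs
      · rw [map_zero]
      · rw [aeval_X]
    have h3 := hcon (fun j => if j = 0 then 0 else v j) (if_pos rfl)
    rw [map_zero]
    exact h2.trans h3
  have h2 : ∀ G : MvPolynomial (Fin (2 + 1)) ℂ, X 0 ∣ G - φ G := by
    intro G
    induction G using MvPolynomial.induction_on with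
    | C a =>
      have : φ (C a) = C a := by
        simp only [φ, aeval_C, algebraMap_eq]
      rw [this, sub_self]
      exact dvd_zero _
    | add p q hp hq =>
      rw [map_add]
      have : p + q - (φ p + φ q) = (p - φ p) + (q - φ q) := by ring
      rw [this]
      exact dvd_add hp hq
    | mul_X p j hp =>
      rw [map_mul]
      have : p * X j - φ p * φ (X j) = (p - φ p) * X j + φ p * (X j - φ (X j)) := by ring
      rw [this]
      refine dvd_add (hp.mul_right _) (Dvd.dvd.mul_left ?_ _)
      simp only [φ, aeval_X]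
      split_ifs with hj
      · rw [hj, sub_zero]
      · rw [sub_self]
        exact dvd_zero _
  have h3 := h2 F
  rwa [h1, sub_zero] at h3

theorem exists_root {F : MvPolynomial (Fin (2 + 1)) ℂ} {e : ℕ} (hF : F.IsHomogeneous e)
    (he : 1 ≤ e) {v : Fin (2 + 1) → ℂ} (hv : eval v F ≠ 0) (P : Fin (2 + 1) → ℂ) :
    ∃ t : ℂ, eval (fun j => P j + v j * t) F = 0 := by
  by_contra hcon
  push Not at hcon
  have h1 : (onl P v F).degree = 0 := by
    by_contra h0
    obtain ⟨t, ht⟩ := IsAlgClosed.exists_root (onl P v F) h0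
    rw [Polynomial.IsRoot, onl_eval] at ht
    exact hcon t ht
  obtain ⟨c, hc⟩ : ∃ c, onl P v F = Polynomial.C c := ⟨_, Polynomial.eq_C_of_degree_eq_zero h1⟩
  -- the restriction to the line from `v` to `P`
  have h2 : onl v P F = Polynomial.C c * Polynomial.X ^ e := by
    have h3 : Set.Infinite {t : ℂ | t ≠ 0} := by
      have : {t : ℂ | t ≠ 0} = ({0} : Set ℂ)ᶜ := by
        ext t
        simp
      rw [this]
      exact Set.Finite.infinite_compl (Set.finite_singleton 0)
    refine Polynomial.eq_of_infinite_eval_eq _ _ (h3.mono fun t ht => ?_)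
    rw [Set.mem_ofPred_eq] at ht ⊢
    rw [onl_eval]
    have h4 := Pool.Agent.H18.Ex.eval_smul_of_homogeneous hF t (fun j => P j + v j * t⁻¹)
    have h5 : (fun j => t * (P j + v j * t⁻¹)) = fun j => v j + P j * t := by
      funext j
      field_simp
      ring
    rw [h5] at h4
    rw [h4, ← onl_eval, hc]
    simp
    ring
  have h3 : eval v F = 0 := by
    have h4 := onl_eval v P F 0
    rw [h2] at h4
    have h5 : (fun j => v j + P j * 0) = v := by
      funext j
      ring
    rw [h5] at h4
    rw [← h4]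
    simp
    right
    omega
  exact hv h3

/-- Points of a plane curve in the affine chart, different from finitely many given points. -/
theorem exists_points {F : MvPolynomial (Fin (2 + 1)) ℂ} {e : ℕ} (hF : F.IsHomogeneous e)
    (he : 1 ≤ e) (hX : ¬ X 0 ∣ F) (bad : Set (Fin (2 + 1) → ℂ)) (hbad : bad.Finite) (x : ℕ) :
    ∃ q : Fin x → Fin (2 + 1) → ℂ, Function.Injective q ∧
      ∀ l, q l 0 = 1 ∧ eval (q l) F = 0 ∧ q l ∉ bad := by
  obtain ⟨v, hv0, hv⟩ := exists_dir hX
  -- a linear form vanishing on `v`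
  have hv12 : v 1 ≠ 0 ∨ v 2 ≠ 0 := by
    by_contra hcon
    push Not at hcon
    have h1 : v = fun j => 0 * v j := by
      funext j
      fin_cases j
      · simp [hv0]
      · simp [hcon.1]
      · simp [hcon.2]
    have h2 := Pool.Agent.H18.Ex.eval_smul_of_homogeneous hF 0 v
    rw [← h1, zero_pow (by omega), zero_mul] at h2
    exact hv h2
  obtain ⟨P, hP0, hP⟩ : ∃ P : ℂ → Fin (2 + 1) → ℂ, (∀ s, P s 0 = 1) ∧
      ∀ s, v 2 * P s 1 - v 1 * P s 2 = s := by
    rcases hv12 with h | h
    · refine ⟨fun s => ![1, 0, -s / v 1], fun s => rfl, fun s => ?_⟩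
      have e1 : (![1, 0, -s / v 1] : Fin (2 + 1) → ℂ) 1 = 0 := rfl
      have e2 : (![1, 0, -s / v 1] : Fin (2 + 1) → ℂ) 2 = -s / v 1 := rfl
      dsimp only
      rw [e1, e2]
      field_simp
      ring
    · refine ⟨fun s => ![1, s / v 2, 0], fun s => rfl, fun s => ?_⟩
      have e1 : (![1, s / v 2, 0] : Fin (2 + 1) → ℂ) 1 = s / v 2 := rfl
      have e2 : (![1, s / v 2, 0] : Fin (2 + 1) → ℂ) 2 = 0 := rfl
      dsimp only
      rw [e1, e2]
      field_simp
      ring
  choose t ht using fun s => exists_root hF he hv (P s)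
  set Q : ℂ → Fin (2 + 1) → ℂ := fun s j => P s j + v j * t s with hQ
  have hQ0 : ∀ s, Q s 0 = 1 := by
    intro s
    rw [hQ]
    dsimp only
    rw [hP0, hv0, zero_mul, add_zero]
  have hQs : ∀ s, v 2 * Q s 1 - v 1 * Q s 2 = s := by
    intro s
    rw [hQ]
    dsimp only
    have := hP s
    linear_combination this
  have hinj : Function.Injective Q := by
    intro s s' h
    rw [← hQs s, h, hQs]
  have hfin : (Q ⁻¹' bad).Finite := hbad.preimage hinj.injOn
  have hinf : (Q ⁻¹' bad)ᶜ.Infinite := hfin.infinite_compl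
  obtain ⟨S, hS, hSc⟩ := hinf.exists_subset_card_eq x
  have e : Fin x ≃ S := (Fintype.equivFinOfCardEq (by rw [Fintype.card_coe, hSc])).symm
  refine ⟨fun l => Q (e l), fun l l' h => ?_, fun l => ⟨hQ0 _, ht _, ?_⟩⟩
  · exact e.injective (Subtype.ext (hinj h))
  · exact hS (e l).2

/-- Affine points are separated. -/
theorem sep_of_affine {ι : Type*} {p : ι → Fin (2 + 1) → ℂ} (h1 : ∀ i, p i 0 = 1)
    (hinj : Function.Injective p) : Sep p := by
  intro i j hij
  have h2 : p i ≠ p j := fun h => hij (hinj h)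
  obtain ⟨c, hc⟩ := Function.ne_iff.1 h2
  refine ⟨X c - C (p j c) * X 0, ?_, ?_, ?_⟩
  · refine (isHomogeneous_X ℂ c).sub ?_
    have := (isHomogeneous_C (Fin (2 + 1)) (p j c)).mul (isHomogeneous_X ℂ (0 : Fin (2 + 1)))
    rwa [Nat.zero_add] at this
  · simp [h1]
  · simp only [map_sub, eval_X, map_mul, eval_C, h1, mul_one]
    exact sub_ne_zero.2 hc

/-- The restriction to an irreducible curve. -/
theorem peel {n : ℕ} (p : Fin n → Fin (2 + 1) → ℂ) (h1 : ∀ i, p i 0 = 1)
    (hinj : Function.Injective p) {F : MvPolynomial (Fin (2 + 1)) ℂ} {e : ℕ} (hF : Irreducible F)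
    (hFe : F.IsHomogeneous e) (he : 1 ≤ e) (hX : ¬ X 0 ∣ F) (κ : Fin n → ℕ)
    (hκ : ∀ i, VanishesToOrder F (p i) (κ i)) (hκ' : ∀ i, ¬ VanishesToOrder F (p i) (κ i + 1))
    (j : ℕ) (b : Fin n → ℕ) (x : ℕ) (hx : e * j < ∑ i, κ i * b i + x) :
    Module.finrank ℂ (fatForms 2 j p b) ≤
      Module.finrank ℂ (fatForms 2 (j - e) p fun i => b i - κ i) + x := by
  classical
  obtain ⟨q, hq1, hq2⟩ := exists_points hFe he hX (Set.range p) (Set.finite_range p) x
  have i1 := fin_fatForms 2 j p b
  have i2 := fin_fatForms 2 (j - e) p fun i => b i - κ i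
  let f : fatForms 2 j p b →ₗ[ℂ] (Fin x → ℂ) :=
    { toFun := fun G l => eval (q l) G.1
      map_add' := fun G H => by
        funext l
        simp
      map_smul' := fun c G => by
        funext l
        simp [MvPolynomial.smul_eval] }
  have hker : Module.finrank ℂ (LinearMap.ker f) ≤
      Module.finrank ℂ (fatForms 2 (j - e) p fun i => b i - κ i) := by
    let g : LinearMap.ker f →ₗ[ℂ] MvPolynomial (Fin (2 + 1)) ℂ :=
      (fatForms 2 j p b).subtype.comp (LinearMap.ker f).subtype
    have hg : Function.Injective g := Subtype.val_injective.comp Subtype.val_injective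
    have hr : LinearMap.range g ≤ (fatForms 2 (j - e) p fun i => b i - κ i).map
        (LinearMap.mulLeft ℂ F) := by
      rintro _ ⟨G, rfl⟩
      have hGf : ∀ l, eval (q l) G.1.1 = 0 := fun l => congrFun (LinearMap.mem_ker.1 G.2) l
      have hdvd : F ∣ G.1.1 := by
        by_contra hcon
        have hs : Sep (Sum.elim p q) := by
          refine sep_of_affine (fun i => ?_) ?_
          · rcases i with i | i
            · exact h1 i
            · exact (hq2 i).1
          · refine Function.Injective.sumElim hinj hq1 fun i l h => ?_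
            exact (hq2 l).2.2 ⟨i, h⟩
        have h2 := bezout (Sum.elim p q) (fun i => by
          rcases i with i | i
          · rw [Sum.elim_inl, h1]
            exact one_ne_zero
          · rw [Sum.elim_inr, (hq2 i).1]
            exact one_ne_zero) hs hF hFe G.1.2.1 hcon (Sum.elim κ fun _ => 1)
          (Sum.elim b fun _ => 1) (fun i => by
            rcases i with i | i
            · exact hκ i
            · exact vanishes_one_iff.2 (hq2 i).2.1) (fun i => by
            rcases i with i | i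
            · exact G.1.2.2 i
            · exact vanishes_one_iff.2 (hGf i))
        rw [Fintype.sum_sum_type] at h2
        simp only [Sum.elim_inl, Sum.elim_inr, mul_one, Finset.sum_const, Finset.card_univ,
          Fintype.card_fin, smul_eq_mul] at h2
        omega
      obtain ⟨H, hH⟩ := hdvd
      refine ⟨H, ⟨hom_quot (hH ▸ G.1.2.1) hF.ne_zero hFe, fun i => ?_⟩, hH.symm⟩
      exact vanishes_of_mul (hκ' i) (hH ▸ G.1.2.2 i)
    rw [← LinearMap.finrank_range_of_inj hg]
    exact (Submodule.finrank_mono hr).trans (Submodule.finrank_map_le _ _)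
  have h2 := LinearMap.finrank_range_add_finrank_ker f
  have h3 : Module.finrank ℂ (LinearMap.range f) ≤ x := by
    refine (Submodule.finrank_le _).trans ?_
    rw [Module.finrank_fintype_fun_eq_card, Fintype.card_fin]
  omega

/-- The restriction to the line at infinity. -/
theorem peel_inf {n : ℕ} (p : Fin n → Fin (2 + 1) → ℂ) (h1 : ∀ i, p i 0 ≠ 0)
    (j : ℕ) (b : Fin n → ℕ) : Module.finrank ℂ (fatForms 2 (j + 1) p b) ≤
      Module.finrank ℂ (fatForms 2 j p b) + (j + 2) := by
  have h2 := grow_le (r := 2) (j := j) p h1 b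
  rw [finrank_all, finrank_all] at h2
  have h3 : (j + 1 + 2).choose 2 = (j + 2).choose 2 + (j + 2) := by
    have : j + 1 + 2 = (j + 2) + 1 := by omega
    rw [this, Nat.choose_succ_succ' (j + 2) 1, Nat.choose_one_right]
    exact Nat.add_comm _ _
  omega

end Pool.Agent.H74.KV
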