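import Pool.Agent.H74.KV.Xu2

/-!
# Irreducible curves through nine or more general points: the ratio of the squares
-/

namespace Pool.Agent.H74.KV

open Finset MvPolynomial Pool.Agent.H18.Fat Pool.Agent.H18.Ub Pool.Agent.H22.LU Pool.Agent.H74.CT
  Pool.Agent.H74.BP Pool.Agent.H18.Nef

variable {n : ℕ}

/-- Two points are exchanged. -/
theorem swap_sq {D e : ℕ} {p : Fin n → Fin (2 + 1) → ℂ} (hp : Good n D p) (he : e ≤ D)
    {A : MvPolynomial (Fin (2 + 1)) ℂ} (hA : Irreducible A) (hAe : A.IsHomogeneous e)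
    (κ : Fin n → ℕ)
    (hκ : ∀ j, VanishesToOrder A (p j) (κ j) ∧ ¬ VanishesToOrder A (p j) (κ j + 1))
    {i l : Fin n} (hil : κ l < κ i) : ∑ j, κ j ^ 2 ≤ e ^ 2 + (κ i - κ l) ^ 2 := by
  classical
  have hA0 := hA.ne_zero
  have hne : i ≠ l := by
    rintro rfl
    omega
  have hle : ∀ j, κ j ≤ e := by
    intro j
    by_contra hcon
    push Not at hcon
    exact hA0 (eq_zero_of_vanishes A hAe (p j) hcon (hκ j).1)
  set κ' : Fin n → ℕ := fun j => κ (Equiv.swap i l j) with hκ'
  have h1 : 1 ≤ generalDim 2 e κ := eff_of_mem hp he hA0 hAe κ fun j => (hκ j).1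
  have h2 : generalDim 2 e κ' = generalDim 2 e κ :=
    generalDim_comp (fun j => Equiv.swap i l j) (Equiv.swap i l).injective κ
      fun j hj => absurd ⟨Equiv.swap i l j, by simp⟩ hj
  have h3 : 1 ≤ Module.finrank ℂ (fatForms 2 e p κ') := by
    rw [hp.dim e he κ' fun j => (hle _).trans he, h2]
    exact h1
  obtain ⟨G, hG, hG0⟩ : ∃ G ∈ fatForms 2 e p κ', G ≠ 0 := by
    by_contra hcon
    push Not at hcon
    have h4 : fatForms 2 e p κ' = ⊥ := by
      rw [eq_bot_iff]
      intro F hF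
      rw [Submodule.mem_bot]
      exact hcon F hF
    rw [h4, finrank_bot] at h3
    omega
  have hκ'i : κ' i = κ l := by
    rw [hκ']
    simp
  have hκ'l : κ' l = κ i := by
    rw [hκ']
    simp
  -- `A` does not divide `G`
  have hdvd : ¬ A ∣ G := by
    rintro ⟨B, rfl⟩
    have hB0 : B ≠ 0 := by
      rintro rfl
      exact hG0 (mul_zero A)
    obtain ⟨a, b, ha, hb, hab⟩ := hom_of_mul hG.1 hA0 hB0
    have hae : a = e := (ha.inj_right hAe hA0)
    have hb0 : b = 0 := by omega
    subst hb0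
    have h4 := totalDegree_eq_zero_iff_eq_C.1 (hb.totalDegree hB0)
    have hc : coeff 0 B ≠ 0 := by
      intro h
      rw [h, map_zero] at h4
      exact hB0 h4
    apply (hκ l).2
    intro β hβ
    have h5 := hG.2 l β (by
      rw [hκ'l]
      omega)
    rw [h4] at h5
    have h6 : shift (p l) (A * C (coeff 0 B)) = shift (p l) A * C (coeff 0 B) := by
      unfold shift
      rw [map_mul, aeval_C, algebraMap_eq]
    rw [h6, mul_comm, coeff_C_mul] at h5
    exact (mul_eq_zero.1 h5).resolve_left hc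
  have h4 := bezout p hp.ne hp.sep hA hAe hG.1 hdvd κ κ' (fun j => (hκ j).1) fun j => hG.2 j
  have hl : l ∈ univ.erase i := mem_erase.2 ⟨hne.symm, mem_univ l⟩
  have h5 : ∀ f : Fin n → ℕ, ∑ j, f j = f i + (f l + ∑ j ∈ (univ.erase i).erase l, f j) := by
    intro f
    rw [add_sum_erase _ f hl, add_sum_erase _ f (mem_univ i)]
  rw [h5] at h4
  rw [h5]
  have h6 : ∑ j ∈ (univ.erase i).erase l, κ j * κ' j = ∑ j ∈ (univ.erase i).erase l, κ j ^ 2 := by
    refine sum_congr rfl fun j hj => ?_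
    have hjl := ne_of_mem_erase hj
    have hji := ne_of_mem_erase (mem_of_mem_erase hj)
    have h7 : κ' j = κ j := by
      rw [hκ']
      dsimp only
      rw [Equiv.swap_apply_of_ne_of_ne hji hjl]
    rw [h7, sq]
  rw [h6, hκ'i, hκ'l] at h4
  obtain ⟨c, hc⟩ : ∃ c, κ i = κ l + c := ⟨κ i - κ l, by omega⟩
  rw [hc] at h4 ⊢
  rw [Nat.add_sub_cancel_left]
  nlinarith

/-- Points on a grid. -/
theorem grid_ub {s d : ℕ} (hs : 0 < s) (κ : Fin n → ℕ) (B : Finset (Fin n))
    (ψ : {i // i ∈ B} ↪ (Fin 2 → Fin s))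
    (hψ : ∀ i, κ i.1 ≤ perf d (ψ i)) :
    generalDim 2 d κ + ∑ i ∈ B, (κ i + 1).choose 2 ≤ (d + 2).choose 2 := by
  classical
  have hζ := Complex.isPrimitiveRoot_exp s (by omega)
  set ζ := Complex.exp (2 * Real.pi * Complex.I / (s : ℂ)) with hζdef
  have h1 := surjective_of_sub (grid_surjective (r := 2) d (by norm_num) hs hζ) ψ ψ.injective
    (fun i : {i // i ∈ B} => κ i.1) hψ
  have h2 := finrank_of_surjective (by norm_num) (fun i => gridPt_ne ζ (ψ i)) h1
  set p : Fin n → Fin (2 + 1) → ℂ := fun i => if h : i ∈ B then gridPt ζ (ψ ⟨i, h⟩) else 0 with hp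
  have h3 : generalDim 2 d κ ≤ Module.finrank ℂ (fatForms 2 d p κ) := Nat.sInf_le ⟨p, rfl⟩
  have h4 : Module.finrank ℂ (fatForms 2 d p κ) ≤
      Module.finrank ℂ (fatForms 2 d (fun i : {i // i ∈ B} => gridPt ζ (ψ i)) fun i => κ i.1) := by
    refine Submodule.finrank_mono fun F hF => ⟨hF.1, fun l => ?_⟩
    have h5 := hF.2 l.1
    have h6 : p l.1 = gridPt ζ (ψ l) := by
      rw [hp]
      dsimp only
      rw [dif_pos l.2]
    rw [h6] at h5
    exact h5
  have h5 : ∑ i : {i // i ∈ B}, (κ i.1 + 2 - 1).choose 2 = ∑ i ∈ B, (κ i + 1).choose 2 :=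
    Finset.sum_coe_sort B fun i => (κ i + 1).choose 2
  omega

/-- The simple points impose one condition each. -/
theorem drop_simple {r e : ℕ} (κ : Fin n → ℕ) (h : 1 ≤ generalDim r e κ) :
    (univ.filter fun i => κ i = 1).card + generalDim r e κ ≤
      generalDim r e fun i => if 2 ≤ κ i then κ i else 0 := by
  classical
  have key : ∀ S : Finset (Fin n), (∀ i ∈ S, κ i = 1) →
      S.card + generalDim r e κ ≤ generalDim r e fun i => if i ∈ S then 0 else κ i := by
    intro S
    induction S using Finset.induction_on with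
    | empty =>
      intro _
      simp
    | insert P S hP ih =>
      intro hS
      have h1 := ih fun i hi => hS i (mem_insert_of_mem hi)
      have h2 := simple_lt (r := r) (e := e) (fun i => if i ∈ insert P S then 0 else κ i) P
        (if_pos (mem_insert_self P S)) (h.trans (generalDim_anti fun i => by
          split_ifs
          · exact Nat.zero_le _
          · exact le_rfl))
      have h3 : Function.update (fun i => if i ∈ insert P S then 0 else κ i) P 1 =
          fun i => if i ∈ S then 0 else κ i := by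
        funext i
        by_cases hi : i = P
        · rw [hi, Function.update_self, if_neg hP, hS P (mem_insert_self P S)]
        · rw [Function.update_of_ne hi]
          by_cases h4 : i ∈ S
          · rw [if_pos h4, if_pos (mem_insert_of_mem h4)]
          · rw [if_neg h4, if_neg (fun h' => h4 ((mem_insert.1 h').resolve_left hi))]
      rw [h3] at h2
      rw [card_insert_of_notMem hP]
      omega
  have h1 := key (univ.filter fun i => κ i = 1) fun i hi => (mem_filter.1 hi).2
  have h2 : (fun i => if i ∈ univ.filter (fun i => κ i = 1) then 0 else κ i) =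
      fun i => if 2 ≤ κ i then κ i else 0 := by
    funext i
    by_cases h3 : κ i = 1
    · rw [if_pos (mem_filter.2 ⟨mem_univ i, h3⟩), if_neg (by omega)]
    · have h4 : i ∉ univ.filter fun i => κ i = 1 := fun h => h3 (mem_filter.1 h).2
      rw [if_neg h4]
      split_ifs
      · rfl
      · omega
  rw [h2] at h1
  exact h1

theorem emb_of_card {s d t b : ℕ} (B : Finset (Fin n)) (hB : B.card ≤ b)
    (hb : b ≤ (univ.filter fun x : Fin 2 → Fin s => t ≤ perf d x).card) :
    ∃ ψ : {i // i ∈ B} ↪ (Fin 2 → Fin s), ∀ i, t ≤ perf d (ψ i) := by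
  classical
  obtain ⟨ψ⟩ : Nonempty ({i // i ∈ B} ↪
      {x : Fin 2 → Fin s // x ∈ univ.filter fun x : Fin 2 → Fin s => t ≤ perf d x}) := by
    apply Function.Embedding.nonempty_of_card_le
    rw [Fintype.card_coe, Fintype.card_coe]
    omega
  exact ⟨ψ.trans (Function.Embedding.subtype _), fun i => (mem_filter.1 (ψ i).2).2⟩

/-- Small curves. -/
theorem small_curve {e : ℕ} {κ : Fin n → ℕ} (he : e ≤ 5) (hX : ∑ i, κ i ^ 2 = e ^ 2 + 1)
    (hs : 3 * e + 1 ≤ ∑ i, κ i) : generalDim 2 e κ = 0 := by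
  classical
  by_contra hcon
  have h1 : 1 ≤ generalDim 2 e κ := by omega
  set B : Finset (Fin n) := univ.filter fun i => 2 ≤ κ i with hB
  have hdrop := drop_simple κ h1
  set S := (univ : Finset (Fin n)).filter fun i => κ i = 1 with hS
  -- the sum of `κ (κ - 1)`
  have hpair : ∀ i, κ i * (κ i - 1) + κ i = κ i ^ 2 := by
    intro i
    rcases Nat.eq_zero_or_pos (κ i) with h | h
    · rw [h]
      rfl
    · obtain ⟨c, hc⟩ : ∃ c, κ i = c + 1 := ⟨κ i - 1, by omega⟩
      rw [hc, Nat.add_sub_cancel]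
      ring
  have hsum : ∑ i, κ i * (κ i - 1) + ∑ i, κ i = ∑ i, κ i ^ 2 := by
    rw [← sum_add_distrib]
    exact sum_congr rfl fun i _ => hpair i
  have hBsum : ∑ i ∈ B, κ i * (κ i - 1) ≤ ∑ i, κ i * (κ i - 1) :=
    sum_le_sum_of_subset (subset_univ B)
  have hBcard : 2 * B.card ≤ ∑ i ∈ B, κ i * (κ i - 1) := by
    have h2 : ∑ _i ∈ B, 2 ≤ ∑ i ∈ B, κ i * (κ i - 1) := sum_le_sum fun i hi => by
      have h3 := (mem_filter.1 hi).2
      have h4 : 2 * 1 ≤ κ i * (κ i - 1) := Nat.mul_le_mul h3 (by omega)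
      omega
    rw [sum_const, smul_eq_mul, Nat.mul_comm] at h2
    exact h2
  have hthree : ∀ u ∈ B, 3 ≤ κ u → 2 * B.card + 4 ≤ ∑ i ∈ B, κ i * (κ i - 1) := by
    intro u hu hu3
    have h2 : ∑ _i ∈ B.erase u, 2 ≤ ∑ i ∈ B.erase u, κ i * (κ i - 1) := sum_le_sum fun i hi => by
      have h3 := (mem_filter.1 (mem_of_mem_erase hi)).2
      have h4 : 2 * 1 ≤ κ i * (κ i - 1) := Nat.mul_le_mul h3 (by omega)
      omega
    rw [sum_const, smul_eq_mul, card_erase_of_mem hu] at h2
    have h3 := add_sum_erase B (fun i => κ i * (κ i - 1)) hu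
    have h4 : 3 * 2 ≤ κ u * (κ u - 1) := Nat.mul_le_mul hu3 (by omega)
    have h5 : 1 ≤ B.card := card_pos.2 ⟨u, hu⟩
    have h6 : (B.card - 1) * 2 = 2 * B.card - 2 := by omega
    omega
  have hfour : ∀ u ∈ B, 4 ≤ κ u → 12 ≤ ∑ i ∈ B, κ i * (κ i - 1) := by
    intro u hu hu4
    have h3 := single_le_sum (f := fun i => κ i * (κ i - 1)) (fun _ _ => Nat.zero_le _) hu
    have h4 : 4 * 3 ≤ κ u * (κ u - 1) := Nat.mul_le_mul hu4 (by omega)
    omega
  -- the number of all conditions
  have hlen : 2 * (S.card + ∑ i ∈ B, (κ i + 1).choose 2) = ∑ i, κ i ^ 2 + ∑ i, κ i := by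
    have h2 : ∀ x : ℕ, 2 * (x + 1).choose 2 = x ^ 2 + x := by
      intro x
      rw [Nat.choose_two_right, Nat.add_sub_cancel, Nat.mul_div_cancel' (by
        have := Nat.even_mul_succ_self x
        rw [Nat.mul_comm]
        exact even_iff_two_dvd.1 this)]
      ring
    have h3 : ∑ i, κ i ^ 2 + ∑ i, κ i = ∑ i, (κ i ^ 2 + κ i) := (sum_add_distrib).symm
    rw [h3, ← sum_filter_add_sum_filter_not univ (fun i => 2 ≤ κ i), ← hB]
    have h4 : ∑ i ∈ B, (κ i ^ 2 + κ i) = 2 * ∑ i ∈ B, (κ i + 1).choose 2 := by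
      rw [mul_sum]
      exact sum_congr rfl fun i _ => (h2 _).symm
    have h5 : ∑ i ∈ univ.filter (fun i => ¬ 2 ≤ κ i), (κ i ^ 2 + κ i) = 2 * S.card := by
      have h6 : S ⊆ univ.filter fun i => ¬ 2 ≤ κ i := fun i hi => by
        rw [hS, mem_filter] at hi
        exact mem_filter.2 ⟨mem_univ i, by omega⟩
      rw [← sum_subset h6]
      · rw [sum_congr rfl (g := fun _ => 2) fun i hi => by rw [(mem_filter.1 hi).2]; rfl, sum_const,
          smul_eq_mul, Nat.mul_comm]
      · intro i hi hi'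
        have h7 := (mem_filter.1 hi).2
        have h8 : κ i = 0 := by
          by_contra h
          exact hi' (mem_filter.2 ⟨mem_univ i, by omega⟩)
        rw [h8]
        rfl
    rw [h4, h5]
    ring
  have hsumB : ∑ i ∈ B, ((if 2 ≤ κ i then κ i else 0) + 1).choose 2 =
      ∑ i ∈ B, (κ i + 1).choose 2 := sum_congr rfl fun i hi => by rw [if_pos (mem_filter.1 hi).2]
  -- the bound for the big points
  have hub : generalDim 2 e (fun i => if 2 ≤ κ i then κ i else 0) +
      ∑ i ∈ B, (κ i + 1).choose 2 ≤ (e + 2).choose 2 := by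
    rw [← hsumB]
    have hval : ∀ i ∈ B, (if 2 ≤ κ i then κ i else 0) = κ i := fun i hi =>
      if_pos (mem_filter.1 hi).2
    have hcase : e = 3 ∨ e = 4 ∨ e = 5 := by
      rcases Nat.eq_zero_or_pos e with h0 | h0
      · exfalso
        subst h0
        have h3 : ∑ i, κ i = 0 := sum_eq_zero fun i _ =>
          Nat.le_zero.1 (le_of_effective κ h1 i)
        omega
      · interval_cases e <;> omega
    rcases hcase with rfl | rfl | rfl
    · have hB0 : B.card ≤ 0 := by omega
      obtain ⟨ψ, hψ⟩ := emb_of_card (s := 1) (d := 3) (t := 0) (b := 0) B hB0 (Nat.zero_le _)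
      refine grid_ub (by norm_num) _ B ψ fun i => ?_
      exfalso
      have := card_pos.2 ⟨i.1, i.2⟩
      omega
    · have hB2 : B.card ≤ 2 := by omega
      obtain ⟨ψ, hψ⟩ := emb_of_card (s := 2) (d := 4) (t := 2) (b := 2) B hB2 (by decide)
      refine grid_ub (by norm_num) _ B ψ fun i => ?_
      rw [hval i.1 i.2]
      refine le_trans ?_ (hψ i)
      by_contra h
      have := hthree i.1 i.2 (by omega)
      have := card_pos.2 ⟨i.1, i.2⟩
      omega
    · by_cases h3 : ∃ u ∈ B, 3 ≤ κ u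
      · obtain ⟨u, hu, hu3⟩ := h3
        have h4 := hthree u hu hu3
        have hB3 : B.card ≤ 3 := by omega
        obtain ⟨ψ, hψ⟩ := emb_of_card (s := 2) (d := 5) (t := 3) (b := 3) B hB3 (by decide)
        refine grid_ub (by norm_num) _ B ψ fun i => ?_
        rw [hval i.1 i.2]
        refine le_trans ?_ (hψ i)
        by_contra h
        have := hfour i.1 i.2 (by omega)
        omega
      · push Not at h3
        have hB5 : B.card ≤ 5 := by omega
        obtain ⟨ψ, hψ⟩ := emb_of_card (s := 3) (d := 5) (t := 2) (b := 5) B hB5 (by decide)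
        refine grid_ub (by norm_num) _ B ψ fun i => ?_
        rw [hval i.1 i.2]
        refine le_trans ?_ (hψ i)
        have := h3 i.1 i.2
        omega
  have h2 : 2 * (e + 2).choose 2 = e ^ 2 + 3 * e + 2 := by
    interval_cases e <;> rfl
  omega

end Pool.Agent.H74.KV
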