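import Pool.Agent.H74.KV.VolV
import Pool.Agent.H74.KV.Inv2

/-!
# Vanishing for nef classes of large degree
-/

namespace Pool.Agent.H74.KV

open MvPolynomial Pool.Agent.H18.Fat Pool.Agent.H18.Ub Pool.Agent.H22.LU Pool.Agent.H74.CT
  Pool.Agent.H74.BP Pool.Agent.H18.Nef

theorem nef_exact (n : ℕ) (ε : ℝ) (hε : 0 < ε) : ∃ d₀ : ℕ, ∀ (d a : ℕ) (m : Fin n → ℕ),
    d₀ ≤ d → NefC a m → (a : ℝ) ≤ (1 - ε) * d →
    generalDim 2 d m + ∑ i, (m i + 2 - 1).choose 2 = (d + 2).choose 2 := by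
  classical
  set N : ℝ := n + 1 with hN
  have hNpos : 0 < N := by positivity
  set δ : ℝ := ε ^ 2 / (32 * N ^ 2) with hδ
  have hδpos : 0 < δ := by positivity
  obtain ⟨a₀, ha₀⟩ := volU n δ hδpos
  obtain ⟨d₁, hd₁⟩ := exists_nat_gt (max (2 * N / ε) (16 * N * N ^ 2 / ε ^ 2))
  have hd₁a : 2 * N / ε < d₁ := (le_max_left _ _).trans_lt hd₁
  have hd₁b : 16 * N * N ^ 2 / ε ^ 2 < d₁ := (le_max_right _ _).trans_lt hd₁
  refine ⟨a₀ + d₁ + 1, fun d a m hd hnef ha => ?_⟩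
  have hdr : (d₁ : ℝ) ≤ d := by exact_mod_cast (by omega : d₁ ≤ d)
  have hd0 : (0 : ℝ) < d := by exact_mod_cast (by omega : 0 < d)
  have had : a ≤ d := by
    have h1 : (a : ℝ) ≤ d := by nlinarith
    exact_mod_cast h1
  obtain ⟨t, ht1, ht2⟩ : ∃ t, t * (n + 1) ≤ d - a ∧ d - a < t * (n + 1) + (n + 1) :=
    ⟨(d - a) / (n + 1), Nat.div_mul_le_self _ _, Nat.lt_div_mul_add (by omega)⟩
  have hma : ∀ i, m i ≤ a := fun i => hnef.one i
  have htd : t ≤ d := by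
    have : t * 1 ≤ t * (n + 1) := Nat.mul_le_mul_left _ (by omega)
    omega
  -- the class `(d + t; m + t)` is nef
  have hnef' : NefC (d + t) fun i => m i + t := by
    intro e κ he
    have h1 := hnef e κ he
    have h2 : ∀ i, κ i ≤ e := fun i => le_of_effective κ he i
    have h3 : ∑ i, (m i + t) * κ i = ∑ i, m i * κ i + ∑ i, t * κ i := by
      rw [← Finset.sum_add_distrib]
      exact Finset.sum_congr rfl fun i _ => Nat.add_mul _ _ _
    have h4 : ∑ i, t * κ i ≤ t * (n * e) := by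
      rw [← Finset.mul_sum]
      refine Nat.mul_le_mul_left _ ?_
      refine (Finset.sum_le_sum fun i _ => h2 i).trans ?_
      rw [Finset.sum_const, Finset.card_univ, Fintype.card_fin, smul_eq_mul]
    have h5 : a * e + t * (n * e) ≤ (d + t) * e := by
      have h6 : a + t * n ≤ d + t := by
        have : t * (n + 1) = t * n + t := by ring
        omega
      calc a * e + t * (n * e) = (a + t * n) * e := by ring
        _ ≤ (d + t) * e := Nat.mul_le_mul_right _ h6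
    change ∑ i, (m i + t) * κ i ≤ (d + t) * e
    omega
  have hge := Pool.Agent.H74.CT.generalDim_ge (r := 2) (by norm_num) d m
  have hs : ((∑ i, (m i + 2 - 1).choose 2 : ℕ) : ℤ) = ∑ i, ((m i + 2 - 1).choose 2 : ℤ) := by
    push_cast
    rfl
  by_contra hcon
  have hfail : (d + 2).choose 2 < generalDim 2 d m + ∑ i, (m i + 2 - 1).choose 2 := by omega
  obtain ⟨p, hp0, hp1, hp2⟩ := Pool.Agent.H18.Cub.exists_of_general
    ((Pool.Agent.H18.Pr.general_ne_zero 2 n).and ((generalDim_spec 2 d m).and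
      (generalDim_spec 2 (d + t) fun i => m i + t)))
  have h1 := inv (r := 2) (d := d) (t := t) (by norm_num) p hp0 m (fun i => by
    have := hma i
    omega) (by
    rw [hp1]
    exact hfail)
  rw [hp2] at h1
  have h2 := ha₀ (d + t) (fun i => m i + t) (by omega) hnef'
  -- estimates
  have h3 : (((d + t + 2).choose 2 + (t + 2).choose 2 : ℕ) : ℤ) ≤
      ((generalDim 2 (d + t) (fun i => m i + t) + ∑ i, (m i + t + 2 - 1).choose 2 : ℕ) : ℤ) := by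
    exact_mod_cast h1
  have h4 := two_choose (d + t)
  have h5 := two_choose t
  have h6 : 2 * ((∑ i, (m i + t + 2 - 1).choose 2 : ℕ) : ℤ) =
      ∑ i, (((m i + t : ℕ) : ℤ) + 1) * ((m i + t : ℕ) : ℤ) := by
    rw [Nat.cast_sum, Finset.mul_sum]
    exact Finset.sum_congr rfl fun i _ => two_len _
  have h7 : ∑ i, (((m i + t : ℕ) : ℤ) + 1) * ((m i + t : ℕ) : ℤ) ≤
      ∑ i, ((m i + t : ℕ) : ℤ) ^ 2 + n * (2 * d) := by
    have h8 : ∀ i ∈ (Finset.univ : Finset (Fin n)), (((m i + t : ℕ) : ℤ) + 1) * ((m i + t : ℕ) : ℤ) ≤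
        ((m i + t : ℕ) : ℤ) ^ 2 + 2 * d := by
      intro i _
      have h9 : ((m i + t : ℕ) : ℤ) ≤ 2 * d := by
        have := hma i
        exact_mod_cast (by omega : m i + t ≤ 2 * d)
      nlinarith
    refine (Finset.sum_le_sum h8).trans ?_
    rw [Finset.sum_add_distrib, Finset.sum_const, Finset.card_univ, Fintype.card_fin,
      nsmul_eq_mul]
  have h8 : ((d + t : ℕ) : ℤ) ^ 2 + (t : ℤ) ^ 2 ≤
      2 * (generalDim 2 (d + t) (fun i => m i + t) : ℤ) + ∑ i, ((m i + t : ℕ) : ℤ) ^ 2 +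
        n * (2 * d) := by
    push_cast at h3 h4 h5 h6 h7 ⊢
    nlinarith
  have h9 : ((d + t : ℕ) : ℝ) ^ 2 + (t : ℝ) ^ 2 ≤
      2 * (generalDim 2 (d + t) (fun i => m i + t) : ℝ) + ∑ i, ((m i + t : ℕ) : ℝ) ^ 2 +
        n * (2 * d) := by exact_mod_cast h8
  have h10 : (t : ℝ) ^ 2 ≤ δ * ((d + t : ℕ) : ℝ) ^ 2 + n * (2 * d) := by
    have h11 : (1 + δ) * ((d + t : ℕ) : ℝ) ^ 2 = ((d + t : ℕ) : ℝ) ^ 2 +
        δ * ((d + t : ℕ) : ℝ) ^ 2 := by ring
    rw [h11] at h2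
    linarith
  have h11 : ((d + t : ℕ) : ℝ) ^ 2 ≤ 4 * (d : ℝ) ^ 2 := by
    have h12 : ((d + t : ℕ) : ℝ) ≤ 2 * d := by exact_mod_cast (by omega : d + t ≤ 2 * d)
    have h13 : (0 : ℝ) ≤ ((d + t : ℕ) : ℝ) := by positivity
    nlinarith
  have h12 : δ * ((d + t : ℕ) : ℝ) ^ 2 ≤ δ * (4 * (d : ℝ) ^ 2) :=
    mul_le_mul_of_nonneg_left h11 hδpos.le
  -- the lower bound for `t`
  have h13 : ε * d < t * N + N := by
    have h14 : (((d - a : ℕ) : ℕ) : ℝ) < ((t * (n + 1) + (n + 1) : ℕ) : ℝ) := by exact_mod_cast ht2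
    rw [Nat.cast_sub had] at h14
    push_cast at h14
    rw [hN]
    linarith
  have h14 : 2 * N ≤ ε * d := by
    rw [div_lt_iff₀ hε] at hd₁a
    nlinarith
  have h15 : ε * d ≤ 2 * N * t := by nlinarith
  have h16 : ε ^ 2 * (d : ℝ) ^ 2 ≤ 4 * N ^ 2 * (t : ℝ) ^ 2 := by
    have h17 : (ε * d) ^ 2 ≤ (2 * N * t) ^ 2 := pow_le_pow_left₀ (by positivity) h15 2
    nlinarith
  have h17 : 4 * N ^ 2 * δ * 4 = ε ^ 2 / 2 := by
    rw [hδ]
    field_simp
    ring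
  have h18 : ε ^ 2 * (d : ℝ) ^ 2 ≤ ε ^ 2 / 2 * (d : ℝ) ^ 2 + 4 * N ^ 2 * (N * (2 * d)) := by
    have h19 : (t : ℝ) ^ 2 ≤ δ * (4 * (d : ℝ) ^ 2) + N * (2 * d) := by
      have h20 : (n : ℝ) * (2 * d) ≤ N * (2 * d) :=
        mul_le_mul_of_nonneg_right (by rw [hN]; linarith) (by positivity)
      linarith
    have h20 : 4 * N ^ 2 * (t : ℝ) ^ 2 ≤ 4 * N ^ 2 * (δ * (4 * (d : ℝ) ^ 2) + N * (2 * d)) :=
      mul_le_mul_of_nonneg_left h19 (by positivity)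
    have h21 : 4 * N ^ 2 * (δ * (4 * (d : ℝ) ^ 2) + N * (2 * d)) =
        (4 * N ^ 2 * δ * 4) * (d : ℝ) ^ 2 + 4 * N ^ 2 * (N * (2 * d)) := by ring
    rw [h21, h17] at h20
    linarith
  have h19 : 16 * N * N ^ 2 < ε ^ 2 * d := by
    rw [div_lt_iff₀ (by positivity)] at hd₁b
    nlinarith
  nlinarith

end Pool.Agent.H74.KV
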