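import Pool.Agent.H74.KV.Pos

/-!
# The volume of a nef class
-/

namespace Pool.Agent.H74.KV

open MvPolynomial Pool.Agent.H18.Fat Pool.Agent.H18.Ub Pool.Agent.H22.LU Pool.Agent.H74.CT
  Pool.Agent.H74.BP Pool.Agent.H18.Nef

variable {n : ℕ}

/-- Restriction to the components of a curve of degree `f`. -/
theorem peel_all {D : ℕ} {p : Fin n → Fin (2 + 1) → ℂ} (hp : Good n D p) (a : ℕ) (μ : Fin n → ℕ)
    (hnef : NefC a μ) (k : ℕ) : ∀ f ≤ D, ∀ F : MvPolynomial (Fin (2 + 1)) ℂ, F ≠ 0 →
    F.IsHomogeneous f → ∃ φ : Fin n → ℕ, (∀ i, φ i ≤ f) ∧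
      (∀ i, VanishesToOrder F (p i) (φ i) ∧ ¬ VanishesToOrder F (p i) (φ i + 1)) ∧
      ∀ (j : ℕ) (b : Fin n → ℕ), j ≤ k * a → (∀ i, k * μ i + f ≤ b i + D) →
        Module.finrank ℂ (fatForms 2 j p b) + k * ∑ i, μ i * φ i ≤
          Module.finrank ℂ (fatForms 2 (j - f) p fun i => b i - φ i) + k * (a * f) +
            f * (n * D * D + 1) := by
  classical
  intro f
  induction f using Nat.strong_induction_on with
  | _ f ih =>
    intro hfD F hF0 hFf
    rcases Nat.eq_zero_or_pos f with h0 | hpos
    · subst h0
      obtain ⟨c, hc⟩ : ∃ c, F = C c := ⟨_, totalDegree_eq_zero_iff_eq_C.1 (hFf.totalDegree hF0)⟩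
      have hc0 : c ≠ 0 := by
        rintro rfl
        exact hF0 (by rw [hc, map_zero])
      refine ⟨fun _ => 0, fun _ => le_rfl, fun i => ⟨vanishes_zero _ _, ?_⟩, fun j b _ _ => ?_⟩
      · rw [Nat.zero_add, vanishes_one_iff, hc, eval_C]
        exact hc0
      · simp
    · have hnu : ¬ IsUnit F := by
        intro h
        have h1 := ((MvPolynomial.isUnit_iff_totalDegree_of_isReduced (R := ℂ)).1 h).2
        rw [hFf.totalDegree hF0] at h1
        omega
      obtain ⟨A, hA, G, hG⟩ := WfDvdMonoid.exists_irreducible_factor hnu hF0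
      have hA0 := hA.ne_zero
      have hG0 : G ≠ 0 := by
        rintro rfl
        exact hF0 (by rw [hG, mul_zero])
      obtain ⟨e, g, hAe, hGg, heg⟩ := hom_of_mul (hG ▸ hFf) hA0 hG0
      have he : 1 ≤ e := by
        by_contra hcon
        have h1 : e = 0 := by omega
        subst h1
        have h2 := totalDegree_eq_zero_iff_eq_C.1 (hAe.totalDegree hA0)
        apply hA.not_isUnit
        rw [h2]
        refine (isUnit_iff_ne_zero.2 fun h3 => hA0 ?_).map (C : ℂ →+* MvPolynomial (Fin (2 + 1)) ℂ)
        rw [h2, h3, map_zero]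
      choose κ hκe hκ1 hκ2 using fun i => exists_mult hAe hA0 (p i)
      obtain ⟨φ, hφ1, hφ2, hφ3⟩ := ih g (by omega) (by omega) G hG0 hGg
      have hκD : ∀ i, κ i ≤ D := fun i => (hκe i).trans (by omega)
      -- the component meets the nef class nonnegatively
      have hN : ∑ i, μ i * κ i ≤ a * e := by
        apply hnef
        rw [← hp.dim e (by omega) κ hκD]
        have i1 := fin_fatForms 2 e p κ
        rw [Nat.one_le_iff_ne_zero, Ne, Submodule.finrank_eq_zero]
        intro h
        have h1 : A ∈ fatForms 2 e p κ := ⟨hAe, hκ1⟩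
        rw [h, Submodule.mem_bot] at h1
        exact hA0 h1
      refine ⟨fun i => κ i + φ i, fun i => ?_, fun i => ⟨?_, fun h => ?_⟩, fun j b hj hb => ?_⟩
      · have e1 := hκe i
        have e2 := hφ1 i
        change κ i + φ i ≤ f
        omega
      · rw [hG]
        exact van_mul (hκ1 i) (hφ2 i).1
      · rw [hG] at h
        have h1 := vanishes_of_mul (hκ2 i) h
        have h2 : κ i + φ i + 1 - κ i = φ i + 1 := by omega
        rw [h2] at h1
        exact (hφ2 i).2 h1
      · have h1 := hφ3 (j - e) (fun i => b i - κ i) (by omega) fun i => by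
          have e1 := hb i
          have e2 := hκe i
          change k * μ i + g ≤ b i - κ i + D
          omega
        have h2 : (fun i => b i - κ i - φ i) = fun i => b i - (κ i + φ i) := by
          funext i
          omega
        have h3 : j - e - g = j - f := by omega
        rw [h2, h3] at h1
        -- one component
        have h4 : Module.finrank ℂ (fatForms 2 j p b) + k * ∑ i, μ i * κ i ≤
            Module.finrank ℂ (fatForms 2 (j - e) p fun i => b i - κ i) + k * (a * e) +
              (n * D * D + 1) := by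
          by_cases hX : X 0 ∣ A
          · -- the line at infinity
            have hass : Associated (X 0) A :=
              (MvPolynomial.X_prime (R := ℂ) (i := (0 : Fin (2 + 1)))).associated_of_dvd hA.prime hX
            obtain ⟨u, hu⟩ := hass
            have hκ0 : ∀ i, κ i = 0 := by
              intro i
              by_contra hne
              have h5 : VanishesToOrder A (p i) 1 := van_mono (hκ1 i) (by omega)
              rw [vanishes_one_iff, ← hu, map_mul, eval_X, hp.one, one_mul] at h5
              have h6 : IsUnit (eval (p i) (u : MvPolynomial (Fin (2 + 1)) ℂ)) :=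
                u.isUnit.map (eval (p i))
              rw [h5] at h6
              exact not_isUnit_zero h6
            have he1 : e = 1 := by
              have h5 : (X 0 : MvPolynomial (Fin (2 + 1)) ℂ).IsHomogeneous 1 := isHomogeneous_X ℂ 0
              have h6 := ((MvPolynomial.isUnit_iff_totalDegree_of_isReduced (R := ℂ)).1
                u.isUnit).2
              have h7 := totalDegree_mul_of_isDomain (f := (X 0 : MvPolynomial (Fin (2 + 1)) ℂ))
                (g := (u : MvPolynomial (Fin (2 + 1)) ℂ)) (MvPolynomial.X_ne_zero (R := ℂ) (0 : Fin (2 + 1)))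
                u.isUnit.ne_zero
              rw [hu, hAe.totalDegree hA0, totalDegree_X, h6] at h7
              exact h7
            have h5 : ∑ i, μ i * κ i = 0 := Finset.sum_eq_zero fun i _ => by rw [hκ0, Nat.mul_zero]
            have h6 : (fun i => b i - κ i) = b := by
              funext i
              rw [hκ0, Nat.sub_zero]
            rw [h5, h6, he1, Nat.mul_one, Nat.mul_zero, Nat.add_zero]
            rcases Nat.eq_zero_or_pos j with hj0 | hj0
            · subst hj0
              rw [Nat.zero_sub]
              omega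
            · obtain ⟨j', rfl⟩ : ∃ j', j = j' + 1 := ⟨j - 1, by omega⟩
              have h7 := peel_inf p hp.ne j' b
              rw [Nat.add_sub_cancel]
              omega
          · have h5 := peel p hp.one hp.inj hA hAe he hX κ hκ1 hκ2 j b
              (k * (a * e) - k * ∑ i, μ i * κ i + (n * D * D + 1)) (by
                have e1 : e * j ≤ k * (a * e) := by
                  calc e * j ≤ e * (k * a) := Nat.mul_le_mul_left _ hj
                    _ = k * (a * e) := by ring
                have e2 : k * ∑ i, μ i * κ i ≤ ∑ i, κ i * b i + n * D * D := by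
                  have e3 : ∀ i, k * (μ i * κ i) ≤ κ i * b i + D * D := by
                    intro i
                    have e4 := hb i
                    have e5 : κ i * (k * μ i) ≤ κ i * (b i + D) :=
                      Nat.mul_le_mul_left _ (by omega)
                    have e6 : κ i * D ≤ D * D := Nat.mul_le_mul_right _ (hκD i)
                    calc k * (μ i * κ i) = κ i * (k * μ i) := by ring
                      _ ≤ κ i * (b i + D) := e5
                      _ = κ i * b i + κ i * D := by ring
                      _ ≤ κ i * b i + D * D := by omega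
                  rw [Finset.mul_sum]
                  refine (Finset.sum_le_sum fun i _ => e3 i).trans ?_
                  rw [Finset.sum_add_distrib, Finset.sum_const, Finset.card_univ,
                    Fintype.card_fin, smul_eq_mul, mul_assoc]
                have e7 : k * ∑ i, μ i * κ i ≤ k * (a * e) := Nat.mul_le_mul_left _ hN
                omega)
            have e7 : k * ∑ i, μ i * κ i ≤ k * (a * e) := Nat.mul_le_mul_left _ hN
            omega
        have h5 : ∑ i, μ i * (κ i + φ i) = ∑ i, μ i * κ i + ∑ i, μ i * φ i := by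
          rw [← Finset.sum_add_distrib]
          exact Finset.sum_congr rfl fun i _ => Nat.mul_add _ _ _
        have h6 : k * (a * f) = k * (a * e) + k * (a * g) := by
          rw [← heg]
          ring
        have h7 : f * (n * D * D + 1) = e * (n * D * D + 1) + g * (n * D * D + 1) := by
          rw [← heg]
          ring
        have h8 : 1 * (n * D * D + 1) ≤ e * (n * D * D + 1) := Nat.mul_le_mul_right _ he
        dsimp only
        rw [h5, h6, h7, Nat.mul_add]
        omega

theorem choose_add_le (b z : ℕ) : (b + z + 2 - 1).choose 2 ≤ (b + 2 - 1).choose 2 + z * (b + z) := by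
  rw [bez_len]
  have h1 : (z + 2 - 1).choose 2 ≤ z * z := by
    have h2 : z + 2 - 1 = z + 1 := by omega
    rw [h2, Nat.choose_two_right, Nat.add_sub_cancel]
    refine Nat.div_le_of_le_mul ?_
    rcases Nat.eq_zero_or_pos z with h | h
    · subst h
      simp
    · nlinarith
  have h2 : z * (b + z) = z * z + b * z := by ring
  omega

theorem choose_step {b b' y M : ℕ} (h : b' ≤ b + y) (hM : b' ≤ M) :
    (b' + 2 - 1).choose 2 ≤ (b + 2 - 1).choose 2 + y * M := by
  rcases Nat.lt_or_ge b b' with hb | hb
  · obtain ⟨z, rfl⟩ : ∃ z, b' = b + z := ⟨b' - b, by omega⟩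
    have h1 := choose_add_le b z
    have h2 : z * (b + z) ≤ y * M := Nat.mul_le_mul (by omega) hM
    omega
  · have h1 : (b' + 2 - 1).choose 2 ≤ (b + 2 - 1).choose 2 := Nat.choose_le_choose _ (by omega)
    omega

/-- The step: restriction to a member of the system `k₀ N`. -/
theorem vol_step {a : ℕ} {μ : Fin n → ℕ} (hnef : NefC a μ) {k₀ : ℕ}
    (hk₀ : 1 ≤ generalDim 2 (k₀ * a) fun i => k₀ * μ i) (k : ℕ) :
    generalDim 2 (k * a) (fun i => k * μ i) + k * k₀ * ∑ i, μ i ^ 2 ≤
      generalDim 2 ((k - k₀) * a) (fun i => (k - k₀) * μ i) + k * k₀ * a ^ 2 +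
        k₀ * a * (n * (k₀ * a) * (k₀ * a) + 1) := by
  classical
  have hμa : ∀ i, μ i ≤ a := fun i => hnef.one i
  obtain ⟨p, hp⟩ := exists_good n (k * a + k₀ * a)
  have hpD : Good n (k₀ * a) p := ⟨hp.one, hp.inj, fun d hd m hm =>
    hp.dim d (hd.trans (Nat.le_add_left _ _)) m fun i => (hm i).trans (Nat.le_add_left _ _)⟩
  have h1 : Module.finrank ℂ (fatForms 2 (k₀ * a) p fun i => k₀ * μ i) =
      generalDim 2 (k₀ * a) fun i => k₀ * μ i :=
    hpD.dim _ le_rfl _ fun i => Nat.mul_le_mul_left _ (hμa i)
  obtain ⟨F, hF, hF0⟩ : ∃ F ∈ fatForms 2 (k₀ * a) p (fun i => k₀ * μ i), F ≠ 0 := by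
    by_contra hcon
    push Not at hcon
    have h2 : (fatForms 2 (k₀ * a) p fun i => k₀ * μ i) = ⊥ := by
      rw [eq_bot_iff]
      intro F hF
      rw [Submodule.mem_bot]
      exact hcon F hF
    rw [h2, finrank_bot] at h1
    omega
  obtain ⟨φ, hφ1, hφ2, hφ3⟩ := peel_all hpD a μ hnef k (k₀ * a) le_rfl F hF0 hF.1
  have hφk : ∀ i, k₀ * μ i ≤ φ i := by
    intro i
    by_contra hcon
    push Not at hcon
    exact (hφ2 i).2 (van_mono (hF.2 i) hcon)
  have h2 := hφ3 (k * a) (fun i => k * μ i) le_rfl fun i => le_rfl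
  have h3 : k * a - k₀ * a = (k - k₀) * a := (Nat.sub_mul _ _ _).symm
  rw [h3] at h2
  have h4 := raise (r := 2) (d := (k - k₀) * a) (by norm_num) p hp.ne
    (fun i => min (k * μ i - φ i) ((k - k₀) * μ i)) (fun i => (k - k₀) * μ i)
    fun i => min_le_right _ _
  have h5 : Module.finrank ℂ (fatForms 2 ((k - k₀) * a) p fun i => k * μ i - φ i) ≤
      Module.finrank ℂ (fatForms 2 ((k - k₀) * a) p fun i =>
        min (k * μ i - φ i) ((k - k₀) * μ i)) := by
    have := fin_fatForms 2 ((k - k₀) * a) p fun i => min (k * μ i - φ i) ((k - k₀) * μ i)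
    exact Submodule.finrank_mono fun G hG => ⟨hG.1, fun i => van_mono (hG.2 i) (min_le_left _ _)⟩
  have h6 : ∀ i, ((k - k₀) * μ i + 2 - 1).choose 2 ≤
      (min (k * μ i - φ i) ((k - k₀) * μ i) + 2 - 1).choose 2 +
        (φ i - k₀ * μ i) * (k * μ i) := by
    intro i
    refine choose_step ?_ (Nat.mul_le_mul_right _ (Nat.sub_le _ _))
    have e1 := hφk i
    have e2 : (k - k₀) * μ i = k * μ i - k₀ * μ i := Nat.sub_mul _ _ _
    rw [e2]
    omega
  have h7 := Finset.sum_le_sum fun i (_ : i ∈ (Finset.univ : Finset (Fin n))) => h6 i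
  rw [Finset.sum_add_distrib] at h7
  have h8 : ∑ i, (φ i - k₀ * μ i) * (k * μ i) + k * k₀ * ∑ i, μ i ^ 2 =
      k * ∑ i, μ i * φ i := by
    rw [Finset.mul_sum, Finset.mul_sum, ← Finset.sum_add_distrib]
    refine Finset.sum_congr rfl fun i _ => ?_
    obtain ⟨c, hc⟩ := Nat.exists_eq_add_of_le (hφk i)
    rw [hc, Nat.add_sub_cancel_left]
    ring
  have h9 : Module.finrank ℂ (fatForms 2 ((k - k₀) * a) p fun i => (k - k₀) * μ i) =
      generalDim 2 ((k - k₀) * a) fun i => (k - k₀) * μ i := by
    refine hp.dim _ ?_ _ fun i => ?_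
    · exact (Nat.mul_le_mul_right _ (Nat.sub_le _ _)).trans (Nat.le_add_right _ _)
    · exact (Nat.mul_le_mul (Nat.sub_le _ _) (hμa i)).trans (Nat.le_add_right _ _)
  have h10 : generalDim 2 (k * a) (fun i => k * μ i) ≤
      Module.finrank ℂ (fatForms 2 (k * a) p fun i => k * μ i) := Nat.sInf_le ⟨p, rfl⟩
  have h11 : k * (a * (k₀ * a)) = k * k₀ * a ^ 2 := by ring
  rw [h11] at h2
  rw [h9] at h4
  omega

end Pool.Agent.H74.KV
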