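import Pool.Agent.H74.KV.Vol

/-!
# The dimension of a nef system is its self-intersection, up to a small error
-/

namespace Pool.Agent.H74.KV

open MvPolynomial Pool.Agent.H18.Fat Pool.Agent.H18.Ub Pool.Agent.H22.LU Pool.Agent.H74.CT
  Pool.Agent.H74.BP Pool.Agent.H18.Nef

variable {n : ℕ}

theorem two_choose (x : ℕ) : 2 * ((x + 2).choose 2 : ℤ) = (x + 2) * (x + 1) := by
  have h : ((x + 2).choose 2 : ℚ) = (x + 2) * (x + 1) / 2 := by
    rw [Nat.cast_choose_two]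
    push_cast
    ring
  have h2 : ((2 * ((x + 2).choose 2 : ℤ) : ℤ) : ℚ) = (((x + 2) * (x + 1) : ℤ) : ℚ) := by
    push_cast
    rw [h]
    ring
  exact_mod_cast h2

theorem two_len (x : ℕ) : 2 * ((x + 2 - 1).choose 2 : ℤ) = (x + 1) * x := by
  have h1 : x + 2 - 1 = x + 1 := by omega
  rw [h1]
  have h : ((x + 1).choose 2 : ℚ) = (x + 1) * x / 2 := by
    rw [Nat.cast_choose_two]
    push_cast
    ring
  have h2 : ((2 * ((x + 1).choose 2 : ℤ) : ℤ) : ℚ) = (((x + 1) * x : ℤ) : ℚ) := by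
    push_cast
    rw [h]
    ring
  exact_mod_cast h2

/-- Riemann-Roch. -/
theorem rr (d : ℕ) (m : Fin n → ℕ) :
    ((d : ℤ) + 2) * (d + 1) - ∑ i, ((m i : ℤ) + 1) * m i ≤ 2 * generalDim 2 d m := by
  have h1 := Pool.Agent.H74.CT.generalDim_ge (r := 2) (by norm_num) d m
  have h2 := two_choose d
  have h3 : 2 * ∑ i, ((m i + 2 - 1).choose 2 : ℤ) = ∑ i, ((m i : ℤ) + 1) * m i := by
    rw [Finset.mul_sum]
    exact Finset.sum_congr rfl fun i _ => two_len _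
  linarith

theorem eff (e : ℕ) (f : Fin n → ℕ) (h : ∑ i, f i ^ 2 < e ^ 2) :
    ∃ K, 1 ≤ K ∧ 1 ≤ generalDim 2 (K * e) fun i => K * f i := by
  refine ⟨∑ i, f i + 1, by omega, ?_⟩
  set K := ∑ i, f i + 1 with hK
  have h1 := rr (K * e) fun i => K * f i
  have h2 : ∑ i, (((K * f i : ℕ) : ℤ) + 1) * ((K * f i : ℕ) : ℤ) =
      (K : ℤ) ^ 2 * ((∑ i, f i ^ 2 : ℕ) : ℤ) + K * ((∑ i, f i : ℕ) : ℤ) := by
    push_cast
    rw [Finset.mul_sum, Finset.mul_sum, ← Finset.sum_add_distrib]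
    exact Finset.sum_congr rfl fun i _ => by ring
  rw [h2] at h1
  have h3 : ((∑ i, f i ^ 2 : ℕ) : ℤ) + 1 ≤ (e : ℤ) ^ 2 := by exact_mod_cast h
  have h4 : ((∑ i, f i : ℕ) : ℤ) = (K : ℤ) - 1 := by
    rw [hK]
    push_cast
    ring
  rw [h4] at h1
  have h5 : (0 : ℤ) ≤ K := by positivity
  have h6 : (0 : ℤ) ≤ e := by positivity
  have h7 : (K : ℤ) ^ 2 * (((∑ i, f i ^ 2 : ℕ) : ℤ) + 1) ≤ (K : ℤ) ^ 2 * (e : ℤ) ^ 2 :=
    mul_le_mul_of_nonneg_left h3 (by positivity)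
  have h8 : (0 : ℤ) ≤ K * e := by positivity
  push_cast at h1
  push_cast at h7
  have h9 : (0 : ℤ) < 2 * (generalDim 2 (K * e) fun i => K * f i : ℕ) := by
    refine lt_of_lt_of_le ?_ h1
    nlinarith
  omega

/-- The self-intersection of a nef class is nonnegative. -/
theorem nef_sq {a : ℕ} {μ : Fin n → ℕ} (hnef : NefC a μ) : ∑ i, μ i ^ 2 ≤ a ^ 2 := by
  by_contra hcon
  push Not at hcon
  set Q := ∑ i, μ i ^ 2 with hQ
  set q := 2 * a + 1 with hq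
  set s := Nat.sqrt (q ^ 2 * Q) with hs
  have hs1 : s * s ≤ q ^ 2 * Q := Nat.sqrt_le _
  have hs2 : q ^ 2 * Q < (s + 1) * (s + 1) := Nat.lt_succ_sqrt _
  obtain ⟨K, hK1, hK2⟩ := eff (s + 1) (fun i => q * μ i) (by
    have : ∑ i, (q * μ i) ^ 2 = q ^ 2 * Q := by
      rw [hQ, Finset.mul_sum]
      exact Finset.sum_congr rfl fun i _ => by ring
    rw [this]
    calc q ^ 2 * Q < (s + 1) * (s + 1) := hs2
      _ = (s + 1) ^ 2 := by ring)
  have h1 := hnef _ _ hK2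
  have h2 : ∑ i, μ i * (K * (q * μ i)) = K * (q * Q) := by
    rw [hQ, Finset.mul_sum, Finset.mul_sum]
    exact Finset.sum_congr rfl fun i _ => by ring
  have h3 : a * (K * (s + 1)) = K * (a * (s + 1)) := by ring
  rw [h2, h3] at h1
  have h4 : q * Q ≤ a * (s + 1) := Nat.le_of_mul_le_mul_left h1 hK1
  have h5 : (a : ℤ) * s * (a * s) ≤ a ^ 2 * (q ^ 2 * Q) := by
    have : a ^ 2 * (s * s) ≤ a ^ 2 * (q ^ 2 * Q) := Nat.mul_le_mul_left _ hs1
    have h6 : ((a ^ 2 * (s * s) : ℕ) : ℤ) ≤ ((a ^ 2 * (q ^ 2 * Q) : ℕ) : ℤ) := by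
      exact_mod_cast this
    push_cast at h6
    linarith
  have h6 : (q : ℤ) * Q - a ≤ a * s := by
    have : ((q * Q : ℕ) : ℤ) ≤ ((a * (s + 1) : ℕ) : ℤ) := by exact_mod_cast h4
    push_cast at this
    linarith
  have h7 : (a : ℤ) ^ 2 + 1 ≤ Q := by exact_mod_cast hcon
  have h8 : (q : ℤ) = 2 * a + 1 := by
    rw [hq]
    push_cast
    ring
  have h0 : (0 : ℤ) ≤ a := by positivity
  have h9 : (0 : ℤ) ≤ q * Q - a := by
    rw [h8]
    nlinarith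
  have h10 : ((q : ℤ) * Q - a) * (q * Q - a) ≤ a * s * (a * s) :=
    mul_le_mul h6 h6 h9 (h9.trans h6)
  have h11 : ((q : ℤ) * Q - a) * (q * Q - a) ≤ a ^ 2 * (q ^ 2 * Q) := h10.trans h5
  have h12 : (q : ℤ) ^ 2 * Q * (a ^ 2 + 1) ≤ q ^ 2 * Q * Q :=
    mul_le_mul_of_nonneg_left h7 (by positivity)
  have h13 : (q : ℤ) ^ 2 * Q ≤ 2 * a * (q * Q) := by nlinarith
  have h14 : (q : ℤ) ^ 2 * Q = 2 * a * (q * Q) + q * Q := by
    rw [h8]
    ring
  have h15 : (0 : ℤ) < q * Q := by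
    rw [h8]
    nlinarith
  linarith

/-- The volume of a nef class. -/
theorem vol {a : ℕ} {μ : Fin n → ℕ} (hnef : NefC a μ) : ∃ C : ℕ, ∀ k : ℕ,
    2 * generalDim 2 (k * a) (fun i => k * μ i) + k ^ 2 * ∑ i, μ i ^ 2 ≤
      k ^ 2 * a ^ 2 + C * (k + 1) := by
  set Q := ∑ i, μ i ^ 2 with hQ
  have hQA : Q ≤ a ^ 2 := nef_sq hnef
  by_cases hex : ∃ k₀, 1 ≤ k₀ ∧ 1 ≤ generalDim 2 (k₀ * a) fun i => k₀ * μ i
  · obtain ⟨k₀, hk1, hk2⟩ := hex
    set C₀ := k₀ * a * (n * (k₀ * a) * (k₀ * a) + 1) with hC₀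
    set B := (k₀ * a + 2).choose 2 with hB
    refine ⟨k₀ * a ^ 2 + 2 * C₀ + 2 * B, fun k => ?_⟩
    induction k using Nat.strong_induction_on with
    | _ k ih =>
      rcases Nat.lt_or_ge k k₀ with hlt | hge
      · obtain ⟨p, hp⟩ := Pool.Agent.H18.Cub.exists_of_general
          (generalDim_spec 2 (k * a) fun i => k * μ i)
        have h1 := finrank_le_all 2 (k * a) p fun i => k * μ i
        rw [hp] at h1
        have h2 : (k * a + 2).choose 2 ≤ B :=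
          Nat.choose_le_choose _ (Nat.add_le_add_right (Nat.mul_le_mul_right _ hlt.le) _)
        have h3 : k ^ 2 * Q ≤ k ^ 2 * a ^ 2 := Nat.mul_le_mul_left _ hQA
        have h4 : 2 * B * 1 ≤ (k₀ * a ^ 2 + 2 * C₀ + 2 * B) * (k + 1) :=
          Nat.mul_le_mul (Nat.le_add_left _ _) (by omega)
        omega
      · have h1 := vol_step hnef hk2 k
        have h2 := ih (k - k₀) (by omega)
        obtain ⟨c, rfl⟩ : ∃ c, k = c + k₀ := ⟨k - k₀, by omega⟩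
        rw [Nat.add_sub_cancel] at h1 h2
        rw [← hQ, ← hC₀] at h1
        have h3 : k₀ * (k₀ * Q) ≤ k₀ * (k₀ * a ^ 2) :=
          Nat.mul_le_mul_left _ (Nat.mul_le_mul_left _ hQA)
        generalize hg1 : generalDim 2 ((c + k₀) * a) (fun i => (c + k₀) * μ i) = g1 at h1 ⊢
        generalize hg2 : generalDim 2 (c * a) (fun i => c * μ i) = g2 at h1 h2
        have h4 : (k₀ * a ^ 2 + 2 * C₀ + 2 * B) * (c + k₀ + 1) =
            (k₀ * a ^ 2 + 2 * C₀ + 2 * B) * (c + 1) + k₀ * (k₀ * a ^ 2) + 2 * (k₀ * C₀) +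
              2 * (k₀ * B) := by ring
        have h5 : C₀ ≤ k₀ * C₀ := Nat.le_mul_of_pos_left _ hk1
        have h6 : (c + k₀) ^ 2 * Q = c ^ 2 * Q + 2 * (c * k₀ * Q) + k₀ * (k₀ * Q) := by ring
        have h7 : (c + k₀) ^ 2 * a ^ 2 = c ^ 2 * a ^ 2 + 2 * (c * k₀ * a ^ 2) +
            k₀ * (k₀ * a ^ 2) := by ring
        have h8 : (c + k₀) * k₀ * Q = c * k₀ * Q + k₀ * (k₀ * Q) := by ring
        have h9 : (c + k₀) * k₀ * a ^ 2 = c * k₀ * a ^ 2 + k₀ * (k₀ * a ^ 2) := by ring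
        rw [h8, h9] at h1
        rw [h4, h6, h7]
        omega
  · push Not at hex
    refine ⟨2 * 2, fun k => ?_⟩
    rcases Nat.eq_zero_or_pos k with h0 | h0
    · subst h0
      obtain ⟨p, hp⟩ := Pool.Agent.H18.Cub.exists_of_general
        (generalDim_spec 2 (0 * a) fun i => 0 * μ i)
      have h1 := finrank_le_all 2 (0 * a) p fun i => 0 * μ i
      rw [hp, Nat.zero_mul] at h1
      have h2 : (0 + 2).choose 2 = 1 := rfl
      rw [h2] at h1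
      rw [Nat.zero_mul]
      omega
    · have h1 := hex k h0
      have h3 : k ^ 2 * Q ≤ k ^ 2 * a ^ 2 := Nat.mul_le_mul_left _ hQA
      omega

end Pool.Agent.H74.KV
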