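import Pool.Agent.H74.KV.VolU

/-!
# The dimension of a nef system, uniformly
-/

namespace Pool.Agent.H74.KV

open MvPolynomial Pool.Agent.H18.Fat Pool.Agent.H18.Ub Pool.Agent.H22.LU Pool.Agent.H74.CT
  Pool.Agent.H74.BP Pool.Agent.H18.Nef

theorem volU (n : ℕ) (δ : ℝ) (hδ : 0 < δ) : ∃ a₀ : ℕ, ∀ (a : ℕ) (m : Fin n → ℕ), a₀ ≤ a →
    NefC a m → 2 * (generalDim 2 a m : ℝ) + ∑ i, (m i : ℝ) ^ 2 ≤ (1 + δ) * (a : ℝ) ^ 2 := by
  classical
  obtain ⟨T, hT⟩ := exists_nat_ge (max 1 (2 * (3 + 2 * n) / δ))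
  have hT1 : (1 : ℝ) ≤ T := (le_max_left _ _).trans hT
  have hT1' : 1 ≤ T := by exact_mod_cast hT1
  have hT2 : 2 * (3 + 2 * (n : ℝ)) / δ ≤ T := (le_max_right _ _).trans hT
  have hCex : ∀ μ : Fin n → Fin (T + 2), ∃ C : ℕ, NefC (T + 1) (fun i => (μ i : ℕ)) →
      ∀ k : ℕ, 2 * generalDim 2 (k * (T + 1)) (fun i => k * (μ i : ℕ)) +
        k ^ 2 * ∑ i, (μ i : ℕ) ^ 2 ≤ k ^ 2 * (T + 1) ^ 2 + C * (k + 1) := by
    intro μ
    by_cases h : NefC (T + 1) fun i => (μ i : ℕ)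
    · obtain ⟨C, hC⟩ := vol h
      exact ⟨C, fun _ => hC⟩
    · exact ⟨0, fun h' => absurd h' h⟩
  choose Cf hCf using hCex
  set C := ∑ μ, Cf μ with hC
  obtain ⟨a₁, ha₁⟩ := exists_nat_ge (4 * C / δ)
  refine ⟨T * T + a₁, fun a m ha hnef => ?_⟩
  set k := a / T with hk
  have hkT : T ≤ k := by
    rw [hk, Nat.le_div_iff_mul_le (by omega)]
    omega
  have hk1 : k * T ≤ a := Nat.div_mul_le_self a T
  have hk2 : a < k * (T + 1) := by
    have h1 := Nat.lt_div_mul_add (a := a) (b := T) (by omega)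
    rw [← hk] at h1
    calc a < k * T + T := h1
      _ ≤ k * T + k := by omega
      _ = k * (T + 1) := by ring
  have hkpos : 0 < k := by omega
  have hma : ∀ i, m i ≤ a := fun i => hnef.one i
  have hμlt : ∀ i, m i / k < T + 2 := by
    intro i
    have h1 : m i / k < T + 1 := by
      rw [Nat.div_lt_iff_lt_mul hkpos]
      have := hma i
      rw [Nat.mul_comm]
      omega
    omega
  set μ : Fin n → Fin (T + 2) := fun i => ⟨m i / k, hμlt i⟩ with hμ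
  have hμ1 : ∀ i, k * (μ i : ℕ) ≤ m i := fun i => Nat.mul_div_le (m i) k
  have hμ2 : ∀ i, m i < k * (μ i : ℕ) + k := by
    intro i
    have h1 := Nat.lt_div_mul_add (a := m i) (b := k) hkpos
    have h2 : (μ i : ℕ) = m i / k := rfl
    rw [h2, Nat.mul_comm]
    exact h1
  have hnefμ : NefC (T + 1) fun i => (μ i : ℕ) := by
    intro e κ he
    have h1 := hnef e κ he
    have h2 : k * ∑ i, (μ i : ℕ) * κ i ≤ ∑ i, m i * κ i := by
      rw [Finset.mul_sum]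
      refine Finset.sum_le_sum fun i _ => ?_
      rw [← Nat.mul_assoc]
      exact Nat.mul_le_mul_right _ (hμ1 i)
    have h3 : a * e ≤ k * ((T + 1) * e) := by
      rw [← Nat.mul_assoc]
      exact Nat.mul_le_mul_right _ hk2.le
    exact Nat.le_of_mul_le_mul_left ((h2.trans h1).trans h3) hkpos
  have h1 := hCf μ hnefμ k
  have h2 : generalDim 2 a m ≤ generalDim 2 (k * (T + 1)) fun i => k * (μ i : ℕ) :=
    (generalDim_anti hμ1).trans (generalDim_deg (fun i => k * (μ i : ℕ)) hk2.le)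
  have h3 : Cf μ ≤ C := Finset.single_le_sum (f := Cf) (fun _ _ => Nat.zero_le _)
    (Finset.mem_univ μ)
  have h4 : ((2 * generalDim 2 a m + k ^ 2 * ∑ i, (μ i : ℕ) ^ 2 : ℕ) : ℝ) ≤
      ((k ^ 2 * (T + 1) ^ 2 + C * (k + 1) : ℕ) : ℝ) := by
    have h5 := Nat.mul_le_mul_right (k + 1) h3
    exact_mod_cast (by omega : 2 * generalDim 2 a m + k ^ 2 * ∑ i, (μ i : ℕ) ^ 2 ≤
      k ^ 2 * (T + 1) ^ 2 + C * (k + 1))
  push_cast at h4
  -- real estimates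
  have hTpos : (0 : ℝ) < T := by linarith
  have hkT' : (k : ℝ) * T ≤ a := by exact_mod_cast hk1
  have hkr : (k : ℝ) ≤ a / T := by
    rw [le_div_iff₀ hTpos]
    exact hkT'
  have hk0 : (0 : ℝ) ≤ k := by positivity
  have ha0 : (0 : ℝ) ≤ a := by positivity
  have e1 : (k : ℝ) * (T + 1) ≤ a + a / T := by linarith
  have e2 : (k : ℝ) ^ 2 * (T + 1) ^ 2 ≤ (a : ℝ) ^ 2 * (1 + 3 / T) := by
    have h5 : ((k : ℝ) * (T + 1)) ^ 2 ≤ (a + a / T) ^ 2 := by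
      have h6 : 0 ≤ (k : ℝ) * (T + 1) := by positivity
      exact pow_le_pow_left₀ h6 e1 2
    have h6 : ((a : ℝ) + a / T) ^ 2 = (a : ℝ) ^ 2 * (1 + 2 / T + (1 / T) * (1 / T)) := by
      field_simp
      ring
    have h7 : (1 / (T : ℝ)) * (1 / T) ≤ 1 / T := by
      have h8 : 1 / (T : ℝ) ≤ 1 := by
        rw [div_le_one hTpos]
        exact hT1
      have h9 : (0 : ℝ) ≤ 1 / T := by positivity
      nlinarith
    have h8 : (a : ℝ) ^ 2 * (1 + 2 / T + (1 / T) * (1 / T)) ≤ (a : ℝ) ^ 2 * (1 + 3 / T) := by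
      refine mul_le_mul_of_nonneg_left ?_ (by positivity)
      have h9 : (3 : ℝ) / T = 2 / T + 1 / T := by ring
      linarith
    calc (k : ℝ) ^ 2 * (T + 1) ^ 2 = (k * (T + 1)) ^ 2 := by ring
      _ ≤ _ := h5
      _ = _ := h6
      _ ≤ _ := h8
  have e3 : ∑ i, (m i : ℝ) ^ 2 ≤ (k : ℝ) ^ 2 * ∑ i, ((μ i : ℕ) : ℝ) ^ 2 +
      n * (2 * (a : ℝ) ^ 2 / T) := by
    have h5 : ∀ i, (m i : ℝ) ^ 2 ≤ (k : ℝ) ^ 2 * ((μ i : ℕ) : ℝ) ^ 2 + 2 * (a : ℝ) ^ 2 / T := by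
      intro i
      have h6 : (m i : ℝ) ≤ k * ((μ i : ℕ) : ℝ) + k := by exact_mod_cast (hμ2 i).le
      have h7 : (k : ℝ) * ((μ i : ℕ) : ℝ) ≤ m i := by exact_mod_cast hμ1 i
      have h8 : (m i : ℝ) ≤ a := by exact_mod_cast hma i
      have h9 : (0 : ℝ) ≤ k * ((μ i : ℕ) : ℝ) := by positivity
      have h10 : (0 : ℝ) ≤ m i := by positivity
      have h11 : (m i : ℝ) ^ 2 - (k * ((μ i : ℕ) : ℝ)) ^ 2 ≤ k * (2 * m i) := by nlinarith
      have h12 : (k : ℝ) * (2 * m i) ≤ (a / T) * (2 * a) :=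
        mul_le_mul hkr (by linarith) (by positivity) (by positivity)
      have h13 : ((a : ℝ) / T) * (2 * a) = 2 * (a : ℝ) ^ 2 / T := by ring
      have h14 : ((k : ℝ) * ((μ i : ℕ) : ℝ)) ^ 2 = (k : ℝ) ^ 2 * ((μ i : ℕ) : ℝ) ^ 2 := by ring
      linarith
    refine (Finset.sum_le_sum fun i _ => h5 i).trans ?_
    rw [Finset.sum_add_distrib, ← Finset.mul_sum, Finset.sum_const, Finset.card_univ,
      Fintype.card_fin, nsmul_eq_mul]
  have hkone : (1 : ℝ) ≤ k := by exact_mod_cast hkpos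
  have e4 : (C : ℝ) * (k + 1) ≤ δ / 2 * (a : ℝ) ^ 2 := by
    have h5 : (k : ℝ) + 1 ≤ 2 * a := by
      have h6 : (k : ℝ) * 1 ≤ k * T := mul_le_mul_of_nonneg_left hT1 hk0
      linarith
    have h6 : (C : ℝ) * (k + 1) ≤ C * (2 * a) := mul_le_mul_of_nonneg_left h5 (by positivity)
    have h7 : 4 * (C : ℝ) / δ ≤ a := ha₁.trans (by exact_mod_cast (by omega : a₁ ≤ a))
    rw [div_le_iff₀ hδ] at h7
    have h8 : (C : ℝ) * (2 * a) ≤ δ / 2 * (a : ℝ) ^ 2 := by nlinarith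
    linarith
  have e5 : (3 + 2 * (n : ℝ)) / T ≤ δ / 2 := by
    rw [div_le_iff₀ hδ] at hT2
    rw [div_le_iff₀ hTpos]
    linarith
  have e6 : (a : ℝ) ^ 2 * ((3 + 2 * (n : ℝ)) / T) ≤ (a : ℝ) ^ 2 * (δ / 2) :=
    mul_le_mul_of_nonneg_left e5 (by positivity)
  have e7 : (a : ℝ) ^ 2 * ((3 + 2 * (n : ℝ)) / T) = (a : ℝ) ^ 2 * (3 / T) +
      n * (2 * (a : ℝ) ^ 2 / T) := by
    field_simp
  nlinarith

end Pool.Agent.H74.KV
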