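import Pool.Agent.H74.KV.Uni
import Pool.Agent.H74.BP.Eight

/-!
# Curves through ten or more general points
-/

namespace Pool.Agent.H74.KV

open Finset MvPolynomial Pool.Agent.H18.Fat Pool.Agent.H18.Ub Pool.Agent.H22.LU Pool.Agent.H74.CT
  Pool.Agent.H74.BP Pool.Agent.H18.Nef

variable {n : ℕ}

theorem Good.sep {D : ℕ} {p : Fin n → Fin (2 + 1) → ℂ} (h : Good n D p) : Sep p :=
  sep_of_affine h.one h.inj

/-- The lemma of Xu, in a weak form. -/
theorem xu_weak {D e : ℕ} {p : Fin n → Fin (2 + 1) → ℂ} (hp : Good n D p) (he : e ≤ D)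
    {A : MvPolynomial (Fin (2 + 1)) ℂ} (hA : Irreducible A) (hAe : A.IsHomogeneous e)
    (κ : Fin n → ℕ)
    (hκ : ∀ j, VanishesToOrder A (p j) (κ j) ∧ ¬ VanishesToOrder A (p j) (κ j + 1))
    {i l : Fin n} (hi : 1 ≤ κ i) (hl : κ l = 0) : ∑ j, κ j ^ 2 ≤ e ^ 2 + κ i ^ 2 := by
  classical
  have hA0 := hA.ne_zero
  have hil : i ≠ l := by
    rintro rfl
    omega
  have hle : ∀ j, κ j ≤ e := by
    intro j
    by_contra hcon
    push Not at hcon
    exact hA0 (eq_zero_of_vanishes A hAe (p j) hcon (hκ j).1)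
  -- the class with the two points exchanged
  set κ' : Fin n → ℕ := fun j => κ (Equiv.swap i l j) with hκ'
  have h1 : 1 ≤ generalDim 2 e κ := by
    rw [← hp.dim e he κ fun j => (hle j).trans he]
    have hfin := fin_fatForms 2 e p κ
    have hmem : A ∈ fatForms 2 e p κ := ⟨hAe, fun j => (hκ j).1⟩
    by_contra hcon
    have h2 : Module.finrank ℂ (fatForms 2 e p κ) = 0 := by omega
    rw [Submodule.finrank_eq_zero] at h2
    rw [h2, Submodule.mem_bot] at hmem
    exact hA0 hmem
  have h2 : generalDim 2 e κ' = generalDim 2 e κ :=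
    generalDim_comp (fun j => Equiv.swap i l j) (Equiv.swap i l).injective κ
      fun j hj => absurd ⟨Equiv.swap i l j, by simp⟩ hj
  have h3 : 1 ≤ Module.finrank ℂ (fatForms 2 e p κ') := by
    rw [hp.dim e he κ' fun j => (hle _).trans he, h2]
    exact h1
  obtain ⟨G, hG, hG0⟩ : ∃ G ∈ fatForms 2 e p κ', G ≠ 0 := by
    by_contra hcon
    push Not at hcon
    have h4 : fatForms 2 e p κ' = ⊥ := by
      rw [eq_bot_iff]
      intro F hF
      rw [Submodule.mem_bot]
      exact hcon F hF
    rw [h4, finrank_bot] at h3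
    omega
  have hκ'i : κ' i = 0 := by
    rw [hκ']
    simp [hl]
  have hκ'l : κ' l = κ i := by
    rw [hκ']
    simp
  -- `A` does not divide `G`
  have hdvd : ¬ A ∣ G := by
    rintro ⟨B, rfl⟩
    have hB0 : B ≠ 0 := by
      rintro rfl
      exact hG0 (mul_zero A)
    obtain ⟨a, b, ha, hb, hab⟩ := hom_of_mul hG.1 hA0 hB0
    have hae : a = e := (ha.inj_right hAe hA0)
    have hb0 : b = 0 := by omega
    subst hb0
    have h4 := totalDegree_eq_zero_iff_eq_C.1 (hb.totalDegree hB0)
    have h5 : VanishesToOrder (A * B) (p l) 1 := fun β hβ => hG.2 l β (lt_of_lt_of_le hβ (by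
      rw [hκ'l]
      exact hi))
    rw [vanishes_one_iff, map_mul, h4, eval_C] at h5
    rcases mul_eq_zero.1 h5 with h6 | h6
    · exact (hκ l).2 (by
        rw [hl, vanishes_one_iff]
        exact h6)
    · exact hB0 (by rw [h4, h6, map_zero])
  have h4 := bezout p hp.ne hp.sep hA hAe hG.1 hdvd κ κ' (fun j => (hκ j).1) fun j => hG.2 j
  have h5 : ∑ j, κ j ^ 2 ≤ ∑ j, κ j * κ' j + κ i ^ 2 := by
    rw [← add_sum_erase univ (fun j => κ j ^ 2) (mem_univ i),
      ← add_sum_erase univ (fun j => κ j * κ' j) (mem_univ i)]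
    have h6 : ∑ j ∈ univ.erase i, κ j ^ 2 ≤ ∑ j ∈ univ.erase i, κ j * κ' j := by
      refine sum_le_sum fun j hj => ?_
      by_cases hjl : j = l
      · rw [hjl, hl]
        simp
      · have h7 : κ' j = κ j := by
          rw [hκ']
          dsimp only
          rw [Equiv.swap_apply_of_ne_of_ne (ne_of_mem_erase hj) hjl]
        rw [h7, sq]
    omega
  have h6 : e * e = e ^ 2 := by ring
  omega

/-- Curves through nine or more general points, and a further one which is not on the curve. -/
theorem sq_le {D e : ℕ} {p : Fin n → Fin (2 + 1) → ℂ} (hp : Good n D p) (he : e ≤ D)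
    {A : MvPolynomial (Fin (2 + 1)) ℂ} (hA : Irreducible A) (hAe : A.IsHomogeneous e)
    (κ : Fin n → ℕ)
    (hκ : ∀ j, VanishesToOrder A (p j) (κ j) ∧ ¬ VanishesToOrder A (p j) (κ j + 1))
    {l : Fin n} (hl : κ l = 0) (S : Finset (Fin n)) (hS : ∀ i ∈ S, 1 ≤ κ i) (hS9 : 9 ≤ S.card) :
    9 * ∑ i ∈ S, κ i ^ 2 ≤ 10 * e ^ 2 := by
  classical
  have hA0 := hA.ne_zero
  have hSne : S.Nonempty := card_pos.1 (by omega)
  obtain ⟨i, hi, hmin⟩ := exists_min_image S κ hSne
  have h1 := xu_weak hp he hA hAe κ hκ (hS i hi) hl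
  have h2 : ∑ j ∈ S, κ j ^ 2 ≤ ∑ j, κ j ^ 2 := sum_le_sum_of_subset (subset_univ S)
  have hle : ∀ j, κ j ≤ e := by
    intro j
    by_contra hcon
    push Not at hcon
    exact hA0 (eq_zero_of_vanishes A hAe (p j) hcon (hκ j).1)
  rcases Nat.lt_or_ge S.card 10 with h9 | h10
  · have hcard : S.card = 9 := by omega
    have h3 : 1 ≤ generalDim 2 e κ := by
      rw [← hp.dim e he κ fun j => (hle j).trans he]
      have hfin := fin_fatForms 2 e p κ
      have hmem : A ∈ fatForms 2 e p κ := ⟨hAe, fun j => (hκ j).1⟩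
      by_contra hcon
      have h2 : Module.finrank ℂ (fatForms 2 e p κ) = 0 := by omega
      rw [Submodule.finrank_eq_zero] at h2
      rw [h2, Submodule.mem_bot] at hmem
      exact hA0 hmem
    have h4 := nine h3 S (by omega)
    have h5 : ∑ _j ∈ S, κ i ≤ ∑ j ∈ S, κ j := sum_le_sum fun j hj => hmin j hj
    rw [sum_const, hcard, smul_eq_mul] at h5
    have h6 : 3 * κ i ≤ e := by omega
    have h7 : (3 * κ i) ^ 2 ≤ e ^ 2 := Nat.pow_le_pow_left h6 2
    have h8 : (3 * κ i) ^ 2 = 9 * κ i ^ 2 := by ring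
    omega
  · have h5 : ∑ _j ∈ S, κ i ^ 2 ≤ ∑ j ∈ S, κ j ^ 2 :=
      sum_le_sum fun j hj => Nat.pow_le_pow_left (hmin j hj) 2
    rw [sum_const, smul_eq_mul] at h5
    have h6 : 10 * κ i ^ 2 ≤ S.card * κ i ^ 2 := Nat.mul_le_mul_right _ h10
    omega

/-- Numerical criterion for nefness: at least three points, all multiplicities at least `y`, standard
form. -/
theorem nef_num {ε : ℝ} (hε : 0 < ε) {m : Fin n → ℕ} {J : Finset (Fin n)} (hJ3 : 3 ≤ J.card)
    {d y a : ℕ} (hy : ∀ i ∈ J, y ≤ m i) (hstd : ∀ S ⊆ J, S.card = 3 → ∑ i ∈ S, m i ≤ d)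
    (hsq : ∑ i ∈ J, (m i : ℝ) ^ 2 ≤ (9 / 10 - ε) * d ^ 2)
    (ha1 : 6 * d ≤ 6 * a + y) (ha2 : (1 - 5 / 9 * ε) * d ≤ a) :
    NefC a fun i => if i ∈ J then m i else 0 := by
  classical
  intro f k hk
  -- a further point
  set K : Fin (n + 1) → ℕ := Fin.snoc (α := fun _ => ℕ) k 0 with hK
  have hKc : ∀ i : Fin n, K i.castSucc = k i := fun i => by
    rw [hK, Fin.snoc_castSucc]
  have hKl : K (Fin.last n) = 0 := by
    rw [hK, Fin.snoc_last]
  have hoff : ∀ i : Fin (n + 1), i ∉ Set.range (Fin.castSucc (n := n)) → i = Fin.last n := by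
    intro i hi
    by_contra hne
    exact hi ⟨i.castPred hne, Fin.castSucc_castPred i hne⟩
  have h1 : generalDim 2 f K = generalDim 2 f k := by
    rw [← generalDim_comp (fun i : Fin n => i.castSucc) (Fin.castSucc_injective n) K fun i hi => by
      rw [hoff i hi, hKl]]
    congr 1
    funext i
    exact hKc i
  have hk' : 1 ≤ generalDim 2 f K := by
    rw [h1]
    exact hk
  have hkf : ∀ i, K i ≤ f := fun i => le_of_effective K hk' i
  obtain ⟨p, hp⟩ := exists_good (n + 1) (f + 1)
  -- a form not vanishing at the last point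
  obtain ⟨F, hF, hFl⟩ : ∃ F ∈ fatForms 2 f p K, eval (p (Fin.last n)) F ≠ 0 := by
    by_contra hcon
    push Not at hcon
    have h2 : fatForms 2 f p K ≤ fatForms 2 f p (Function.update K (Fin.last n) 1) := by
      intro G hG
      refine ⟨hG.1, fun l => ?_⟩
      by_cases hl : l = Fin.last n
      · rw [hl, Function.update_self, vanishesToOrder_one]
        exact hcon G hG
      · rw [Function.update_of_ne hl]
        exact hG.2 l
    have hfin := fin_fatForms 2 f p (Function.update K (Fin.last n) 1)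
    have h3 := Submodule.finrank_mono h2
    rw [hp.dim f (by omega) K fun i => (hkf i).trans (by omega),
      hp.dim f (by omega) _ fun i => by
        by_cases hl : i = Fin.last n
        · rw [hl, Function.update_self]
          omega
        · rw [Function.update_of_ne hl]
          exact (hkf i).trans (by omega)] at h3
    have h4 := simple_lt K (Fin.last n) hKl hk'
    omega
  have hF0 : F ≠ 0 := by
    rintro rfl
    exact hFl (map_zero _)
  -- the pairing with the components
  have hmain := pair_of_irred (p := p) a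
    (Fin.snoc (α := fun _ => ℕ) (fun i => if i ∈ J then m i else 0) 0) f F hF0 hF.1
    (fun A e κ hA hAF hAe he hef hκ => by
      have hκl : κ (Fin.last n) = 0 := by
        by_contra hne
        obtain ⟨B, rfl⟩ := hAF
        apply hFl
        have h2 : VanishesToOrder A (p (Fin.last n)) 1 := fun β hβ =>
          (hκ (Fin.last n)).1 β (lt_of_lt_of_le hβ (Nat.one_le_iff_ne_zero.2 hne))
        rw [vanishesToOrder_one] at h2
        rw [map_mul, h2, zero_mul]
      have hA0 := hA.ne_zero
      have hle : ∀ j, κ j ≤ e := by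
        intro j
        by_contra hcon
        push Not at hcon
        exact hA0 (eq_zero_of_vanishes A hAe (p j) hcon (hκ j).1)
      rw [Fin.sum_univ_castSucc]
      have h2 : ∀ i : Fin n, (Fin.snoc (α := fun _ => ℕ) (fun i => if i ∈ J then m i else 0) 0 :
          Fin (n + 1) → ℕ) i.castSucc = if i ∈ J then m i else 0 := fun i => by
        rw [Fin.snoc_castSucc]
      have h3 : (Fin.snoc (α := fun _ => ℕ) (fun i => if i ∈ J then m i else 0) 0 :
          Fin (n + 1) → ℕ) (Fin.last n) = 0 := by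
        rw [Fin.snoc_last]
      rw [h3, Nat.zero_mul, Nat.add_zero]
      have h4 : ∑ i : Fin n, (Fin.snoc (α := fun _ => ℕ) (fun i => if i ∈ J then m i else 0) 0 :
          Fin (n + 1) → ℕ) i.castSucc * κ i.castSucc = ∑ i ∈ J, m i * κ i.castSucc := by
        rw [← sum_subset (subset_univ J)]
        · exact sum_congr rfl fun i hi => by rw [h2, if_pos hi]
        · intro i _ hi
          rw [h2, if_neg hi, Nat.zero_mul]
      rw [h4]
      set S := J.filter fun i => 1 ≤ κ i.castSucc with hS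
      have hSJ : S ⊆ J := filter_subset _ _
      rcases Nat.lt_or_ge S.card 9 with hS8 | hS9
      · -- at most eight points
        obtain ⟨J', hSJ', hJ'J, hJ'3, hJ'8⟩ : ∃ J' : Finset (Fin n), S ⊆ J' ∧ J' ⊆ J ∧
            3 ≤ J'.card ∧ J'.card ≤ 8 := by
          rcases Nat.lt_or_ge S.card 3 with h | h
          · obtain ⟨J', h5, h6, h7⟩ := exists_subsuperset_card_eq hSJ (n := 3) (by omega) hJ3
            exact ⟨J', h5, h6, by omega, by omega⟩
          · exact ⟨S, Subset.rfl, hSJ, h, by omega⟩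
        have h5 : 1 ≤ generalDim 2 e fun i : Fin n => κ i.castSucc := by
          have h6 : generalDim 2 e (fun i : Fin n => κ i.castSucc) = generalDim 2 e κ :=
            generalDim_comp (fun i : Fin n => i.castSucc) (Fin.castSucc_injective n) κ
              fun i hi => by rw [hoff i hi, hκl]
          rw [h6, ← hp.dim e (by omega) κ fun j => (hle j).trans (by omega)]
          have hfin := fin_fatForms 2 e p κ
          have hmem : A ∈ fatForms 2 e p κ := ⟨hAe, fun j => (hκ j).1⟩
          by_contra hcon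
          have h2 : Module.finrank ℂ (fatForms 2 e p κ) = 0 := by omega
          rw [Submodule.finrank_eq_zero] at h2
          rw [h2, Submodule.mem_bot] at hmem
          exact hA0 hmem
        have h6 := nef_eight m J' hJ'3 hJ'8 d y (fun i hi => hy i (hJ'J hi))
          (fun T hT hTc => hstd T (hT.trans hJ'J) hTc) h5
        have h7 : ∑ i ∈ J, m i * κ i.castSucc = ∑ i ∈ J', m i * κ i.castSucc := by
          refine (sum_subset hJ'J fun i hi hi' => ?_).symm
          have h8 : i ∉ S := fun h => hi' (hSJ' h)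
          rw [hS, mem_filter] at h8
          have h9 : κ i.castSucc = 0 := by
            by_contra hne
            exact h8 ⟨hi, by omega⟩
          rw [h9, Nat.mul_zero]
        rw [h7]
        have h8 : 6 * d * e ≤ (6 * a + y) * e := Nat.mul_le_mul_right _ ha1
        have h9 : (6 * a + y) * e = 6 * (a * e) + y * e := by ring
        omega
      · -- at least nine points
        have h5 := sq_le hp (e := e) (by omega) hA hAe κ hκ hκl (S.image Fin.castSucc)
          (fun j hj => by
            obtain ⟨i, hi, rfl⟩ := mem_image.1 hj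
            rw [hS, mem_filter] at hi
            exact hi.2) (by
            rw [card_image_of_injective _ (Fin.castSucc_injective n)]
            exact hS9)
        rw [sum_image fun x _ y _ h => Fin.castSucc_injective n h] at h5
        have h6 : ∑ i ∈ J, m i * κ i.castSucc = ∑ i ∈ S, m i * κ i.castSucc := by
          refine (sum_subset hSJ fun i hi hi' => ?_).symm
          rw [hS, mem_filter] at hi'
          have h9 : κ i.castSucc = 0 := by
            by_contra hne
            exact hi' ⟨hi, by omega⟩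
          rw [h9, Nat.mul_zero]
        have h7 : (∑ i ∈ S, (m i : ℝ) * (κ i.castSucc : ℝ)) ^ 2 ≤
            (∑ i ∈ S, (m i : ℝ) ^ 2) * ∑ i ∈ S, (κ i.castSucc : ℝ) ^ 2 :=
          sum_mul_sq_le_sq_mul_sq _ _ _
        have h8 : ∑ i ∈ S, (m i : ℝ) ^ 2 ≤ (9 / 10 - ε) * d ^ 2 :=
          (sum_le_sum_of_subset_of_nonneg hSJ fun _ _ _ => sq_nonneg _).trans hsq
        have h9 : ∑ i ∈ S, (κ i.castSucc : ℝ) ^ 2 ≤ 10 / 9 * (e : ℝ) ^ 2 := by
          have h10 : (9 : ℝ) * ∑ i ∈ S, (κ i.castSucc : ℝ) ^ 2 ≤ 10 * (e : ℝ) ^ 2 := by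
            exact_mod_cast h5
          linarith
        have h10 : (0 : ℝ) ≤ (9 / 10 - ε) * d ^ 2 :=
          le_trans (sum_nonneg fun _ _ => sq_nonneg _) h8
        have h11 : (∑ i ∈ S, (m i : ℝ) * (κ i.castSucc : ℝ)) ^ 2 ≤
            (9 / 10 - ε) * d ^ 2 * (10 / 9 * (e : ℝ) ^ 2) :=
          h7.trans (mul_le_mul h8 h9 (sum_nonneg fun _ _ => sq_nonneg _) h10)
        have he0 : (0 : ℝ) < e := by exact_mod_cast he
        have hd0 : (0 : ℝ) ≤ d := Nat.cast_nonneg d
        have ha0 : (0 : ℝ) ≤ a := Nat.cast_nonneg a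
        have h12 : (9 / 10 - ε) * (d : ℝ) ^ 2 * (10 / 9 * (e : ℝ) ^ 2) ≤
            ((a : ℝ) * e) ^ 2 := by
          have h13 : (9 / 10 - ε) * (d : ℝ) ^ 2 * (10 / 9) ≤ (a : ℝ) ^ 2 := by
            rcases le_or_gt 0 (1 - 5 / 9 * ε) with h14 | h14
            · have h15 : ((1 - 5 / 9 * ε) * (d : ℝ)) ^ 2 ≤ (a : ℝ) ^ 2 :=
                pow_le_pow_left₀ (mul_nonneg h14 hd0) ha2 2
              have h16 : (9 / 10 - ε) * (d : ℝ) ^ 2 * (10 / 9) ≤
                  ((1 - 5 / 9 * ε) * (d : ℝ)) ^ 2 := by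
                have h17 : ((1 - 5 / 9 * ε) * (d : ℝ)) ^ 2 =
                    (9 / 10 - ε) * (d : ℝ) ^ 2 * (10 / 9) + (5 / 9 * ε * d) ^ 2 := by ring
                rw [h17]
                have := sq_nonneg (5 / 9 * ε * (d : ℝ))
                linarith
              exact h16.trans h15
            · have h15 : (9 / 10 - ε) * (d : ℝ) ^ 2 * (10 / 9) ≤ 0 := by
                have h16 : 9 / 10 - ε ≤ 0 := by linarith
                have h17 : (0 : ℝ) ≤ (d : ℝ) ^ 2 := sq_nonneg _
                nlinarith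
              exact h15.trans (sq_nonneg _)
          have h14 : (9 / 10 - ε) * (d : ℝ) ^ 2 * (10 / 9 * (e : ℝ) ^ 2) =
              ((9 / 10 - ε) * (d : ℝ) ^ 2 * (10 / 9)) * (e : ℝ) ^ 2 := by ring
          rw [h14, mul_pow]
          exact mul_le_mul_of_nonneg_right h13 (sq_nonneg _)
        have h13 : ∑ i ∈ S, (m i : ℝ) * (κ i.castSucc : ℝ) ≤ (a : ℝ) * e :=
          abs_le_of_sq_le_sq' (h11.trans h12) (by positivity) |>.2
        rw [h6]
        exact_mod_cast h13) K fun i => hF.2 i
  rw [Fin.sum_univ_castSucc, hKl, Nat.mul_zero, Nat.add_zero] at hmain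
  have h2 : ∀ i : Fin n, (Fin.snoc (α := fun _ => ℕ) (fun i => if i ∈ J then m i else 0) 0 :
      Fin (n + 1) → ℕ) i.castSucc = if i ∈ J then m i else 0 := fun i => by
    rw [Fin.snoc_castSucc]
  have h3 : ∑ i : Fin n, (Fin.snoc (α := fun _ => ℕ) (fun i => if i ∈ J then m i else 0) 0 :
      Fin (n + 1) → ℕ) i.castSucc * K i.castSucc = ∑ i, (if i ∈ J then m i else 0) * k i :=
    sum_congr rfl fun i _ => by rw [h2, hKc]
  rw [h3] at hmain
  exact hmain

end Pool.Agent.H74.KV
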