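import Pool.Agent.H74.KV.Xu
import Pool.Agent.H74.KV.Def

/-!
# The lemma of Xu, nefness and emptiness in standard form
-/

namespace Pool.Agent.H74.KV

open Finset MvPolynomial Pool.Agent.H18.Fat Pool.Agent.H18.Ub Pool.Agent.H22.LU Pool.Agent.H74.CT
  Pool.Agent.H74.BP Pool.Agent.H18.Nef

variable {n : ℕ}

theorem eff_of_mem {D e : ℕ} {p : Fin n → Fin (2 + 1) → ℂ} (hp : Good n D p) (he : e ≤ D)
    {A : MvPolynomial (Fin (2 + 1)) ℂ} (hA0 : A ≠ 0) (hAe : A.IsHomogeneous e)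
    (κ : Fin n → ℕ) (hκ : ∀ j, VanishesToOrder A (p j) (κ j)) : 1 ≤ generalDim 2 e κ := by
  have hle : ∀ j, κ j ≤ e := by
    intro j
    by_contra hcon
    push Not at hcon
    exact hA0 (eq_zero_of_vanishes A hAe (p j) hcon (hκ j))
  rw [← hp.dim e he κ fun j => (hle j).trans he]
  have hfin := fin_fatForms 2 e p κ
  have hmem : A ∈ fatForms 2 e p κ := ⟨hAe, hκ⟩
  by_contra hcon
  have h2 : Module.finrank ℂ (fatForms 2 e p κ) = 0 := by omega
  rw [Submodule.finrank_eq_zero] at h2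
  rw [h2, Submodule.mem_bot] at hmem
  exact hA0 hmem

/-- The lemma of Xu. -/
theorem xu {D e : ℕ} {p : Fin n → Fin (2 + 1) → ℂ} (hp : Good n D p) (he : e ≤ D)
    {A : MvPolynomial (Fin (2 + 1)) ℂ} (hA : Irreducible A) (hAe : A.IsHomogeneous e)
    (κ : Fin n → ℕ)
    (hκ : ∀ j, VanishesToOrder A (p j) (κ j) ∧ ¬ VanishesToOrder A (p j) (κ j + 1))
    {i : Fin n} (hi : 1 ≤ κ i) : ∑ j, κ j ^ 2 ≤ e ^ 2 + κ i := by
  classical
  have hA0 := hA.ne_zero
  have hle : ∀ j, κ j ≤ e := by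
    intro j
    by_contra hcon
    push Not at hcon
    exact hA0 (eq_zero_of_vanishes A hAe (p j) hcon (hκ j).1)
  obtain ⟨G, hGe, hG1, hG2, hG3⟩ := exists_drop hp.one κ
    (hp.dim e he κ fun j => (hle j).trans he) ⟨hAe, fun j => (hκ j).1⟩ hi (hκ i).2
  have hG0 : G ≠ 0 := by
    rintro rfl
    exact hG3 fun β _ => by
      unfold shift
      rw [map_zero, coeff_zero]
  have hdvd : ¬ A ∣ G := by
    rintro ⟨B, rfl⟩
    apply hG3
    have hB0 : B ≠ 0 := by
      rintro rfl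
      exact hG0 (mul_zero A)
    obtain ⟨a, b, ha, hb, hab⟩ := hom_of_mul hGe hA0 hB0
    have hae : a = e := ha.inj_right hAe hA0
    have hb0 : b = 0 := by omega
    subst hb0
    have h4 := totalDegree_eq_zero_iff_eq_C.1 (hb.totalDegree hB0)
    intro β hβ
    rw [h4]
    have h5 : shift (p i) (A * C (coeff 0 B)) = shift (p i) A * C (coeff 0 B) := by
      unfold shift
      rw [map_mul, aeval_C, algebraMap_eq]
    rw [h5, mul_comm, coeff_C_mul, (hκ i).1 β hβ, mul_zero]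
  have h4 := bezout p hp.ne hp.sep hA hAe hGe hdvd κ (fun j => if j = i then κ i - 1 else κ j)
    (fun j => (hκ j).1) fun j => by
      by_cases hj : j = i
      · rw [if_pos hj, hj]
        exact hG2
      · rw [if_neg hj]
        exact hG1 j hj
  have h5 : ∑ j, κ j ^ 2 ≤ ∑ j, κ j * (if j = i then κ i - 1 else κ j) + κ i := by
    rw [← add_sum_erase univ (fun j => κ j ^ 2) (mem_univ i),
      ← add_sum_erase univ (fun j => κ j * (if j = i then κ i - 1 else κ j)) (mem_univ i)]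
    have h6 : ∑ j ∈ univ.erase i, κ j ^ 2 =
        ∑ j ∈ univ.erase i, κ j * (if j = i then κ i - 1 else κ j) := by
      refine sum_congr rfl fun j hj => ?_
      rw [if_neg (ne_of_mem_erase hj), sq]
    have h7 : κ i ^ 2 = κ i * (κ i - 1) + κ i := by
      obtain ⟨c, hc⟩ : ∃ c, κ i = c + 1 := ⟨κ i - 1, by omega⟩
      rw [hc, Nat.add_sub_cancel]
      ring
    rw [if_pos rfl, h6, h7]
    omega
  have h6 : e * e = e ^ 2 := by ring
  omega

/-- Simple points impose independent conditions. -/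
theorem simple_count {r e : ℕ} (S : Finset (Fin n)) :
    generalDim r e (fun i => if i ∈ S then 1 else 0) = 0 ∨
      generalDim r e (fun i => if i ∈ S then 1 else 0) + S.card ≤ (e + r).choose r := by
  classical
  induction S using Finset.induction_on with
  | empty =>
    right
    rw [card_empty, Nat.add_zero]
    obtain ⟨p, hp⟩ := Pool.Agent.H18.Cub.exists_of_general
      (generalDim_spec r e fun i : Fin n => if i ∈ (∅ : Finset (Fin n)) then 1 else 0)
    rw [← hp]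
    exact finrank_le_all _ _ _ _
  | insert P S hP ih =>
    have h1 : (fun i => if i ∈ insert P S then 1 else 0) =
        Function.update (fun i => if i ∈ S then 1 else 0) P 1 := by
      funext i
      by_cases hi : i = P
      · rw [hi, Function.update_self, if_pos (mem_insert_self P S)]
      · rw [Function.update_of_ne hi]
        by_cases h : i ∈ S
        · rw [if_pos h, if_pos (mem_insert_of_mem h)]
        · rw [if_neg h, if_neg (fun h' => h ((mem_insert.1 h').resolve_left hi))]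
    rw [h1]
    rcases Nat.eq_zero_or_pos (generalDim r e fun i => if i ∈ S then 1 else 0) with h0 | h0
    · left
      have h2 : generalDim r e (Function.update (fun i => if i ∈ S then 1 else 0) P 1) ≤
          generalDim r e fun i => if i ∈ S then 1 else 0 := generalDim_anti fun i => by
        by_cases hi : i = P
        · rw [hi, Function.update_self, if_neg hP]
          exact Nat.zero_le _
        · rw [Function.update_of_ne hi]
      omega
    · have h2 := simple_lt (r := r) (e := e) (fun i => if i ∈ S then 1 else 0) P (if_neg hP) h0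
      right
      rw [card_insert_of_notMem hP]
      rcases ih with h | h <;> omega

/-- Curves through nine or more general points. -/
theorem sq_le17 {D e : ℕ} {p : Fin n → Fin (2 + 1) → ℂ} (hp : Good n D p) (he : e ≤ D)
    {A : MvPolynomial (Fin (2 + 1)) ℂ} (hA : Irreducible A) (hAe : A.IsHomogeneous e)
    (κ : Fin n → ℕ)
    (hκ : ∀ j, VanishesToOrder A (p j) (κ j) ∧ ¬ VanishesToOrder A (p j) (κ j + 1))
    (S : Finset (Fin n)) (hS : ∀ i ∈ S, 1 ≤ κ i) (hS9 : 9 ≤ S.card) :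
    16 * ∑ i ∈ S, κ i ^ 2 ≤ 17 * e ^ 2 := by
  classical
  have hSne : S.Nonempty := card_pos.1 (by omega)
  obtain ⟨i, hi, hmin⟩ := exists_min_image S κ hSne
  have h1 := xu hp he hA hAe κ hκ (hS i hi)
  have h2 : ∑ j ∈ S, κ j ^ 2 ≤ ∑ j, κ j ^ 2 := sum_le_sum_of_subset (subset_univ S)
  have hκ1 := hS i hi
  have h3 : 1 ≤ generalDim 2 e κ := eff_of_mem hp he hA.ne_zero hAe κ fun j => (hκ j).1
  suffices h : ∑ j ∈ S, κ j ^ 2 ≤ e ^ 2 ∨ 16 * κ i ≤ e ^ 2 by
    rcases h with h | h <;> omega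
  rcases Nat.lt_or_ge S.card 10 with h9 | h10
  · have hcard : S.card = 9 := by omega
    have h4 := nine h3 S (by omega)
    have h5 : ∑ _j ∈ S, κ i ≤ ∑ j ∈ S, κ j := sum_le_sum fun j hj => hmin j hj
    rw [sum_const, hcard, smul_eq_mul] at h5
    rcases Nat.lt_or_ge (3 * κ i) e with h6 | h6
    · right
      have h7 : (3 * κ i + 1) ^ 2 ≤ e ^ 2 := Nat.pow_le_pow_left h6 2
      nlinarith
    · left
      have h7 : e = 3 * κ i := by omega
      have h8 : ∀ j ∈ S, κ j = κ i := by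
        intro j hj
        by_contra hne
        have h9' : ∑ _j ∈ S, κ i < ∑ j ∈ S, κ j :=
          sum_lt_sum (fun l hl => hmin l hl) ⟨j, hj, lt_of_le_of_ne (hmin j hj) (Ne.symm hne)⟩
        rw [sum_const, hcard, smul_eq_mul] at h9'
        omega
      rw [sum_congr rfl fun j hj => by rw [h8 j hj], sum_const, hcard, smul_eq_mul, h7]
      exact le_of_eq (by ring)
  · right
    have h5 : ∑ _j ∈ S, κ i ^ 2 ≤ ∑ j ∈ S, κ j ^ 2 :=
      sum_le_sum fun j hj => Nat.pow_le_pow_left (hmin j hj) 2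
    rw [sum_const, smul_eq_mul] at h5
    have h6 : 10 * κ i ^ 2 ≤ S.card * κ i ^ 2 := Nat.mul_le_mul_right _ h10
    rcases Nat.lt_or_ge (κ i) 2 with h7 | h7
    · have h8 : κ i = 1 := by omega
      rw [h8] at h6 h5 h1 ⊢
      by_contra hcon
      have he3 : e ≤ 3 := by
        by_contra h
        have : 4 ^ 2 ≤ e ^ 2 := Nat.pow_le_pow_left (by omega) 2
        omega
      have h9 : 1 ≤ generalDim 2 3 fun i => if i ∈ S then 1 else 0 := by
        have h10 : generalDim 2 e κ ≤ generalDim 2 3 κ := generalDim_deg (r := 2) κ he3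
        refine h3.trans (h10.trans (generalDim_anti fun j => ?_))
        split_ifs with hj
        · exact hS j hj
        · exact Nat.zero_le _
      have h11 : (3 + 2).choose 2 = 10 := by decide
      rcases simple_count (r := 2) (e := 3) S with h | h
      · omega
      · omega
    · nlinarith

/-- The pairing with the components, over the real numbers. -/
theorem pair_real {ι : Type*} [Fintype ι] {p : ι → Fin (2 + 1) → ℂ} (a : ℝ) (m : ι → ℕ)
    {f : ℕ} {F : MvPolynomial (Fin (2 + 1)) ℂ} (hF0 : F ≠ 0) (hFf : F.IsHomogeneous f)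
    (H : ∀ (A : MvPolynomial (Fin (2 + 1)) ℂ) (e : ℕ) (κ : ι → ℕ), Irreducible A →
      A.IsHomogeneous e → 1 ≤ e → e ≤ f →
      (∀ i, VanishesToOrder A (p i) (κ i) ∧ ¬ VanishesToOrder A (p i) (κ i + 1)) →
      ∑ i, (m i : ℝ) * κ i ≤ a * e)
    {k : ι → ℕ} (hk : ∀ i, VanishesToOrder F (p i) (k i)) :
    ∑ i, (m i : ℝ) * k i ≤ a * f := by
  have hall : ∀ N : ℕ, 1 ≤ N → (N : ℝ) * ∑ i, (m i : ℝ) * k i ≤ (N * a + 1) * f ∨ a < 0 := by
    intro N hN
    rcases lt_or_ge a 0 with ha | ha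
    · exact Or.inr ha
    · left
      have hc : (N : ℝ) * a ≤ ⌈(N : ℝ) * a⌉₊ := Nat.le_ceil _
      have hc2 : (⌈(N : ℝ) * a⌉₊ : ℝ) < N * a + 1 := Nat.ceil_lt_add_one (by positivity)
      have h1 := pair_of_irred (p := p) ⌈(N : ℝ) * a⌉₊ (fun i => N * m i) f F hF0 hFf
        (fun A e κ hA _ hAe he hef hκ => by
          have h2 := H A e κ hA hAe he hef hκ
          have h3 : ((∑ i, N * m i * κ i : ℕ) : ℝ) ≤ ((⌈(N : ℝ) * a⌉₊ * e : ℕ) : ℝ) := by
            push_cast
            have h4 : ∑ i, (N : ℝ) * (m i : ℝ) * (κ i : ℝ) = N * ∑ i, (m i : ℝ) * κ i := by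
              rw [mul_sum]
              exact sum_congr rfl fun i _ => by ring
            rw [h4]
            have he0 : (0 : ℝ) ≤ e := Nat.cast_nonneg e
            have hN0 : (0 : ℝ) ≤ N := Nat.cast_nonneg N
            calc (N : ℝ) * ∑ i, (m i : ℝ) * κ i ≤ N * (a * e) := mul_le_mul_of_nonneg_left h2 hN0
              _ = (N * a) * e := by ring
              _ ≤ _ := mul_le_mul_of_nonneg_right hc he0
          exact_mod_cast h3) k hk
      have h5 : ((∑ i, N * m i * k i : ℕ) : ℝ) ≤ ((⌈(N : ℝ) * a⌉₊ * f : ℕ) : ℝ) := by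
        exact_mod_cast h1
      push_cast at h5
      have h4 : ∑ i, (N : ℝ) * (m i : ℝ) * (k i : ℝ) = N * ∑ i, (m i : ℝ) * k i := by
        rw [mul_sum]
        exact sum_congr rfl fun i _ => by ring
      rw [h4] at h5
      have hf0 : (0 : ℝ) ≤ f := Nat.cast_nonneg f
      exact h5.trans (mul_le_mul_of_nonneg_right hc2.le hf0)
  rcases lt_or_ge a 0 with ha | ha
  · -- no component
    rcases Nat.eq_zero_or_pos f with h0 | h0
    · subst h0
      rw [Nat.cast_zero, mul_zero]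
      refine le_of_eq (sum_eq_zero fun i _ => ?_)
      have : k i = 0 := by
        by_contra hne
        exact hF0 (eq_zero_of_vanishes F hFf _ (Nat.pos_of_ne_zero hne) (hk i))
      rw [this, Nat.cast_zero, mul_zero]
    · exfalso
      have hnu : ¬ IsUnit F := by
        intro h
        have h1 := ((MvPolynomial.isUnit_iff_totalDegree_of_isReduced (R := ℂ)).1 h).2
        rw [hFf.totalDegree hF0] at h1
        omega
      obtain ⟨A, hA, G, hG⟩ := WfDvdMonoid.exists_irreducible_factor hnu hF0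
      have hG0 : G ≠ 0 := by
        rintro rfl
        exact hF0 (by rw [hG, mul_zero])
      obtain ⟨e, g, hAe, hGg, heg⟩ := hom_of_mul (hG ▸ hFf) hA.ne_zero hG0
      have he : 1 ≤ e := by
        by_contra hcon
        have h1 : e = 0 := by omega
        subst h1
        have h2 := totalDegree_eq_zero_iff_eq_C.1 (hAe.totalDegree hA.ne_zero)
        apply hA.not_isUnit
        rw [h2]
        refine (isUnit_iff_ne_zero.2 fun h3 => hA.ne_zero ?_).map
          (C : ℂ →+* MvPolynomial (Fin (2 + 1)) ℂ)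
        rw [h2, h3, map_zero]
      choose κ hκe hκ1 hκ2 using fun i => exists_mult hAe hA.ne_zero (p i)
      have h1 := H A e κ hA hAe he (by omega) fun i => ⟨hκ1 i, hκ2 i⟩
      have h2 : (0 : ℝ) ≤ ∑ i, (m i : ℝ) * κ i := sum_nonneg fun _ _ => by positivity
      have h3 : (1 : ℝ) ≤ e := by exact_mod_cast he
      nlinarith
  · by_contra hcon
    push Not at hcon
    set s := ∑ i, (m i : ℝ) * k i with hs
    obtain ⟨N, hN⟩ := exists_nat_gt (f / (s - a * f))
    have hpos : 0 < s - a * f := by linarith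
    rw [div_lt_iff₀ hpos] at hN
    rcases hall (N + 1) (by omega) with h | h
    · push_cast at h
      nlinarith
    · linarith

/-- A component of a curve in the pairing with a class in standard form. -/
theorem comp_le {D e : ℕ} {p : Fin n → Fin (2 + 1) → ℂ} (hp : Good n D p) (he : e ≤ D)
    {A : MvPolynomial (Fin (2 + 1)) ℂ} (hA : Irreducible A) (hAe : A.IsHomogeneous e)
    (κ : Fin n → ℕ)
    (hκ : ∀ j, VanishesToOrder A (p j) (κ j) ∧ ¬ VanishesToOrder A (p j) (κ j + 1))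
    {m : Fin n → ℕ} {J : Finset (Fin n)} (hJ3 : 3 ≤ J.card) {d y : ℕ} (hy : ∀ i ∈ J, y ≤ m i)
    (hstd : ∀ S ⊆ J, S.card = 3 → ∑ i ∈ S, m i ≤ d) :
    6 * ∑ i ∈ J, m i * κ i + y * e ≤ 6 * d * e ∨
      16 * (∑ i ∈ J, m i * κ i) ^ 2 ≤ 17 * (∑ i ∈ J, m i ^ 2) * e ^ 2 := by
  classical
  set S := J.filter fun i => 1 ≤ κ i with hS
  have hSJ : S ⊆ J := filter_subset _ _
  rcases Nat.lt_or_ge S.card 9 with hS8 | hS9
  · left
    obtain ⟨J', hSJ', hJ'J, hJ'3, hJ'8⟩ : ∃ J' : Finset (Fin n), S ⊆ J' ∧ J' ⊆ J ∧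
        3 ≤ J'.card ∧ J'.card ≤ 8 := by
      rcases Nat.lt_or_ge S.card 3 with h | h
      · obtain ⟨J', h5, h6, h7⟩ := exists_subsuperset_card_eq hSJ (n := 3) (by omega) hJ3
        exact ⟨J', h5, h6, by omega, by omega⟩
      · exact ⟨S, Subset.rfl, hSJ, h, by omega⟩
    have h5 : 1 ≤ generalDim 2 e κ := eff_of_mem hp he hA.ne_zero hAe κ fun j => (hκ j).1
    have h6 := nef_eight m J' hJ'3 hJ'8 d y (fun i hi => hy i (hJ'J hi))
      (fun T hT hTc => hstd T (hT.trans hJ'J) hTc) h5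
    have h7 : ∑ i ∈ J, m i * κ i = ∑ i ∈ J', m i * κ i := by
      refine (sum_subset hJ'J fun i hi hi' => ?_).symm
      have h8 : i ∉ S := fun h => hi' (hSJ' h)
      rw [hS, mem_filter] at h8
      have h9 : κ i = 0 := by
        by_contra hne
        exact h8 ⟨hi, by omega⟩
      rw [h9, Nat.mul_zero]
    rw [h7]
    exact h6
  · right
    have h5 := sq_le17 hp he hA hAe κ hκ S (fun j hj => (mem_filter.1 hj).2) hS9
    have h6 : ∑ i ∈ J, m i * κ i = ∑ i ∈ S, m i * κ i := by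
      refine (sum_subset hSJ fun i hi hi' => ?_).symm
      rw [hS, mem_filter] at hi'
      have h9 : κ i = 0 := by
        by_contra hne
        exact hi' ⟨hi, by omega⟩
      rw [h9, Nat.mul_zero]
    have h7 : (∑ i ∈ S, m i * κ i) ^ 2 ≤ (∑ i ∈ S, m i ^ 2) * ∑ i ∈ S, κ i ^ 2 :=
      sum_mul_sq_le_sq_mul_sq _ _ _
    have h8 : ∑ i ∈ S, m i ^ 2 ≤ ∑ i ∈ J, m i ^ 2 := sum_le_sum_of_subset hSJ
    rw [h6]
    calc 16 * (∑ i ∈ S, m i * κ i) ^ 2 ≤ 16 * ((∑ i ∈ S, m i ^ 2) * ∑ i ∈ S, κ i ^ 2) :=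
          Nat.mul_le_mul_left _ h7
      _ = (∑ i ∈ S, m i ^ 2) * (16 * ∑ i ∈ S, κ i ^ 2) := by ring
      _ ≤ (∑ i ∈ J, m i ^ 2) * (17 * e ^ 2) := Nat.mul_le_mul h8 h5
      _ = 17 * (∑ i ∈ J, m i ^ 2) * e ^ 2 := by ring

/-- Numerical criterion for nefness: at least three points, all multiplicities at least `y`, standard
form. -/
theorem nef_num17 {ε : ℝ} (hε : 0 < ε) {m : Fin n → ℕ} {J : Finset (Fin n)} (hJ3 : 3 ≤ J.card)
    {d y a : ℕ} (hy : ∀ i ∈ J, y ≤ m i) (hstd : ∀ S ⊆ J, S.card = 3 → ∑ i ∈ S, m i ≤ d)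
    (hsq : ∑ i ∈ J, (m i : ℝ) ^ 2 ≤ (16 / 17 - ε) * d ^ 2)
    (ha1 : 6 * d ≤ 6 * a + y) (ha2 : (1 - 17 / 32 * ε) * d ≤ a) :
    NefC a fun i => if i ∈ J then m i else 0 := by
  classical
  intro f k hk
  have hkf : ∀ i, k i ≤ f := fun i => le_of_effective k hk i
  obtain ⟨p, hp⟩ := exists_good n f
  obtain ⟨F, hF, hF0⟩ : ∃ F ∈ fatForms 2 f p k, F ≠ 0 := by
    rw [← hp.dim f le_rfl k hkf] at hk
    by_contra hcon
    push Not at hcon
    have h4 : fatForms 2 f p k = ⊥ := by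
      rw [eq_bot_iff]
      intro F hF
      rw [Submodule.mem_bot]
      exact hcon F hF
    rw [h4, finrank_bot] at hk
    omega
  refine pair_of_irred (p := p) a (fun i => if i ∈ J then m i else 0) f F hF0 hF.1
    (fun A e κ hA _ hAe he hef hκ => ?_) k fun i => hF.2 i
  have h0 : ∑ i, (if i ∈ J then m i else 0) * κ i = ∑ i ∈ J, m i * κ i := by
    rw [← sum_subset (subset_univ J)]
    · exact sum_congr rfl fun i hi => by rw [if_pos hi]
    · intro i _ hi
      rw [if_neg hi, Nat.zero_mul]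
  rw [h0]
  rcases comp_le hp hef hA hAe κ hκ hJ3 hy hstd with h1 | h1
  · have h8 : 6 * d * e ≤ (6 * a + y) * e := Nat.mul_le_mul_right _ ha1
    have h9 : (6 * a + y) * e = 6 * (a * e) + y * e := by ring
    omega
  · have h2 : (16 : ℝ) * (((∑ i ∈ J, m i * κ i : ℕ) : ℝ)) ^ 2 ≤
        17 * (∑ i ∈ J, (m i : ℝ) ^ 2) * (e : ℝ) ^ 2 := by exact_mod_cast h1
    have he0 : (0 : ℝ) < e := by exact_mod_cast he
    have hd0 : (0 : ℝ) ≤ d := Nat.cast_nonneg d
    have ha0 : (0 : ℝ) ≤ a := Nat.cast_nonneg a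
    have h3 : (17 : ℝ) * (∑ i ∈ J, (m i : ℝ) ^ 2) * (e : ℝ) ^ 2 ≤
        17 * ((16 / 17 - ε) * d ^ 2) * (e : ℝ) ^ 2 :=
      mul_le_mul_of_nonneg_right (mul_le_mul_of_nonneg_left hsq (by norm_num)) (sq_nonneg _)
    have h4 : (17 : ℝ) * ((16 / 17 - ε) * d ^ 2) ≤ 16 * (a : ℝ) ^ 2 := by
      rcases le_or_gt 0 (1 - 17 / 32 * ε) with h14 | h14
      · have h15 : ((1 - 17 / 32 * ε) * (d : ℝ)) ^ 2 ≤ (a : ℝ) ^ 2 :=
          pow_le_pow_left₀ (mul_nonneg h14 hd0) ha2 2
        have h17 : 16 * ((1 - 17 / 32 * ε) * (d : ℝ)) ^ 2 =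
            17 * ((16 / 17 - ε) * d ^ 2) + 16 * (17 / 32 * ε * d) ^ 2 := by ring
        have := sq_nonneg (17 / 32 * ε * (d : ℝ))
        linarith
      · have h16 : 16 / 17 - ε ≤ 0 := by linarith
        have h17 : (0 : ℝ) ≤ (d : ℝ) ^ 2 := sq_nonneg _
        have h18 : (0 : ℝ) ≤ (a : ℝ) ^ 2 := sq_nonneg _
        nlinarith
    have h5 : (((∑ i ∈ J, m i * κ i : ℕ) : ℝ)) ^ 2 ≤ ((a : ℝ) * e) ^ 2 := by
      rw [mul_pow]
      have h6 : 17 * ((16 / 17 - ε) * (d : ℝ) ^ 2) * (e : ℝ) ^ 2 ≤ 16 * (a : ℝ) ^ 2 * (e : ℝ) ^ 2 :=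
        mul_le_mul_of_nonneg_right h4 (sq_nonneg _)
      linarith
    have h6 := (abs_le_of_sq_le_sq' h5 (by positivity)).2
    exact_mod_cast h6

/-- Emptiness in standard form. -/
theorem xu_empty {d : ℕ} {m : Fin n → ℕ} (hstd : ∀ S : Finset (Fin n), S.card ≤ 3 →
    ∑ i ∈ S, m i ≤ d) (h : 17 * d ^ 2 < 16 * ∑ i, m i ^ 2) : generalDim 2 d m = 0 := by
  classical
  by_contra hcon
  have hk : 1 ≤ generalDim 2 d m := by omega
  have hkf : ∀ i, m i ≤ d := fun i => le_of_effective m hk i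
  -- at least three points
  have hn : 3 ≤ (univ : Finset (Fin n)).card := by
    by_contra hlt
    have h1 := hstd univ (by omega)
    have h2 : ∑ i, m i ^ 2 ≤ (∑ i, m i) ^ 2 := by
      rw [sq (∑ i, m i), sum_mul]
      refine sum_le_sum fun i _ => ?_
      rw [sq]
      exact Nat.mul_le_mul_left _ (single_le_sum (f := m) (fun _ _ => Nat.zero_le _) (mem_univ i))
    have h3 : (∑ i, m i) ^ 2 ≤ d ^ 2 := Nat.pow_le_pow_left h1 2
    omega
  obtain ⟨p, hp⟩ := exists_good n d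
  obtain ⟨F, hF, hF0⟩ : ∃ F ∈ fatForms 2 d p m, F ≠ 0 := by
    rw [← hp.dim d le_rfl m hkf] at hk
    by_contra hcon
    push Not at hcon
    have h4 : fatForms 2 d p m = ⊥ := by
      rw [eq_bot_iff]
      intro F hF
      rw [Submodule.mem_bot]
      exact hcon F hF
    rw [h4, finrank_bot] at hk
    omega
  set X' : ℝ := ∑ i, (m i : ℝ) ^ 2 with hX'
  have hX0 : 0 ≤ X' := sum_nonneg fun _ _ => sq_nonneg _
  have hX : 17 * (d : ℝ) ^ 2 < 16 * X' := by
    rw [hX']
    exact_mod_cast h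
  set A' : ℝ := Real.sqrt (17 / 16 * X') with hA'
  have hA'sq : A' ^ 2 = 17 / 16 * X' := Real.sq_sqrt (by positivity)
  have hA'0 : 0 ≤ A' := Real.sqrt_nonneg _
  have hd0 : (0 : ℝ) ≤ d := Nat.cast_nonneg d
  have hdA : (d : ℝ) ≤ A' := by
    refine (abs_le_of_sq_le_sq' ?_ hA'0).2
    rw [hA'sq]
    nlinarith [sq_nonneg (d : ℝ)]
  have h1 := pair_real (p := p) A' m hF0 hF.1 (fun A e κ hA hAe he hed hκ => by
    have he0 : (0 : ℝ) ≤ e := Nat.cast_nonneg e
    rcases comp_le hp hed hA hAe κ hκ hn (d := d) (y := 0) (fun _ _ => Nat.zero_le _)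
      (fun S _ hS => hstd S hS.le) with h2 | h2
    · have h3 : ((6 * ∑ i, m i * κ i + 0 * e : ℕ) : ℝ) ≤ ((6 * d * e : ℕ) : ℝ) := by
        exact_mod_cast h2
      push_cast at h3
      have h4 : (d : ℝ) * e ≤ A' * e := mul_le_mul_of_nonneg_right hdA he0
      linarith
    · have h3 : (16 : ℝ) * (∑ i, (m i : ℝ) * κ i) ^ 2 ≤ 17 * X' * (e : ℝ) ^ 2 := by
        rw [hX']
        exact_mod_cast h2
      have h4 : (∑ i, (m i : ℝ) * κ i) ^ 2 ≤ (A' * e) ^ 2 := by
        rw [mul_pow, hA'sq]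
        linarith
      exact (abs_le_of_sq_le_sq' h4 (by positivity)).2) hF.2
  have h2 : ∑ i, (m i : ℝ) * (m i : ℝ) = X' := by
    rw [hX']
    exact sum_congr rfl fun i _ => (sq _).symm
  rw [h2] at h1
  have h3 : X' ^ 2 ≤ (A' * d) ^ 2 := pow_le_pow_left₀ hX0 h1 2
  rw [mul_pow, hA'sq] at h3
  have hXpos : 0 < X' := by
    have : (0 : ℝ) ≤ (d : ℝ) ^ 2 := sq_nonneg _
    linarith
  nlinarith

end Pool.Agent.H74.KV
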